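import Pool.Agent.P6.Base

set_option autoImplicit false

/-!
Menger's theorem (vertex version, for a graph with finitely many edges).
-/

namespace Pool.Agent.P6

open SimpleGraph

section Joined

variable {V : Type} {G G' : SimpleGraph V} {U W : Set V} {a b c : V}

theorem Joined.mono_graph (h : Joined G U a b) (hG : G ≤ G') : Joined G' U a b := by
  obtain ⟨p, hp⟩ := h
  exact ⟨p.mapLe hG, by simpa using hp⟩

theorem Joined.cons (h : G.Adj a b) (ha : a ∈ U) (h' : Joined G U b c) : Joined G U a c := by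
  obtain ⟨p, hp⟩ := h'
  refine ⟨Walk.cons h p, fun z hz => ?_⟩
  rw [Walk.support_cons, List.mem_cons] at hz
  rcases hz with rfl | hz
  · exact ha
  · exact hp z hz

theorem Joined.left_mem (h : Joined G U a b) : a ∈ U := by
  obtain ⟨p, hp⟩ := h
  exact hp a p.start_mem_support

theorem Joined.right_mem (h : Joined G U a b) : b ∈ U := by
  obtain ⟨p, hp⟩ := h
  exact hp b p.end_mem_support

/-- A walk inside `U` stays inside `W` or reaches a point outside of `W`. -/
theorem Joined.exit (h : Joined G U a b) (S : Set V) :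
    Joined G (U ∩ Sᶜ) a b ∨ ∃ z ∈ S, Joined G U a z := by
  classical
  obtain ⟨p, hp⟩ := h
  by_cases hS : ∃ z ∈ p.support, z ∈ S
  · obtain ⟨z, hz, hzS⟩ := hS
    exact Or.inr ⟨z, hzS, p.takeUntil z hz, fun t ht =>
      hp t (p.support_takeUntil_subset_support hz ht)⟩
  · push Not at hS
    exact Or.inl ⟨p, fun z hz => ⟨hp z hz, hS z hz⟩⟩

/-- Walks and one edge. -/
theorem Joined.edge (x y : V) (h : Joined G U a b) :
    Joined (G.deleteEdges {s(x, y)}) U a b ∨
      (Joined (G.deleteEdges {s(x, y)}) U a x ∧ Joined (G.deleteEdges {s(x, y)}) U y b) ∨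
      (Joined (G.deleteEdges {s(x, y)}) U a y ∧ Joined (G.deleteEdges {s(x, y)}) U x b) := by
  obtain ⟨p, hp⟩ := h
  induction p with
  | nil => exact Or.inl (Joined.refl (hp _ (by simp)))
  | @cons a c b hac p ih =>
    have ha : a ∈ U := hp a (by simp)
    have ih' := ih fun z hz => hp z (by rw [Walk.support_cons]; exact List.mem_cons_of_mem _ hz)
    by_cases he : s(a, c) = s(x, y)
    · rw [Sym2.eq_iff] at he
      rcases he with ⟨rfl, rfl⟩ | ⟨rfl, rfl⟩
      · rcases ih' with h1 | ⟨h1, h2⟩ | ⟨h1, h2⟩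
        · exact Or.inr (Or.inl ⟨Joined.refl ha, h1⟩)
        · exact Or.inr (Or.inl ⟨Joined.refl ha, h2⟩)
        · exact Or.inl h2
      · rcases ih' with h1 | ⟨h1, h2⟩ | ⟨h1, h2⟩
        · exact Or.inr (Or.inr ⟨Joined.refl ha, h1⟩)
        · exact Or.inl h2
        · exact Or.inr (Or.inr ⟨Joined.refl ha, h2⟩)
    · have hadj : (G.deleteEdges {s(x, y)}).Adj a c := by
        rw [deleteEdges_adj]
        exact ⟨hac, by simpa using he⟩
      rcases ih' with h1 | ⟨h1, h2⟩ | ⟨h1, h2⟩
      · exact Or.inl (Joined.cons hadj ha h1)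
      · exact Or.inr (Or.inl ⟨Joined.cons hadj ha h1, h2⟩)
      · exact Or.inr (Or.inr ⟨Joined.cons hadj ha h1, h2⟩)

end Joined

section Menger

variable {V : Type}

/-- There are `k` disjoint paths from `A` to `B`. -/
def Lk (G : SimpleGraph V) (A B : Set V) (k : ℕ) : Prop :=
  ∃ (a b : Fin k → V) (p : ∀ i, G.Walk (a i) (b i)), (∀ i, a i ∈ A ∧ b i ∈ B ∧ (p i).IsPath) ∧
    ∀ i j, i ≠ j → (p i).support.Disjoint (p j).support

/-- No set of fewer than `k` vertices separates `A` from `B`. -/
def NoSep (G : SimpleGraph V) (A B : Set V) (k : ℕ) : Prop :=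
  ∀ T : Finset V, T.card < k → ∃ a ∈ A, ∃ b ∈ B, Joined G (T : Set V)ᶜ a b

theorem NoSep.symm {G : SimpleGraph V} {A B : Set V} {k : ℕ} (h : NoSep G A B k) :
    NoSep G B A k := by
  intro T hT
  obtain ⟨a, ha, b, hb, hab⟩ := h T hT
  exact ⟨b, hb, a, ha, hab.symm⟩

/-- Disjoint paths that end in a set of the same cardinality. -/
theorem Lk.reindex {G : SimpleGraph V} {A : Set V} {T : Finset V} (h : Lk G A (T : Set V) T.card) :
    ∃ (a : V → V) (p : ∀ t, G.Walk (a t) t), (∀ t ∈ T, a t ∈ A ∧ (p t).IsPath) ∧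
      ∀ t ∈ T, ∀ t' ∈ T, t ≠ t' → (p t).support.Disjoint (p t').support := by
  classical
  obtain ⟨a, b, p, h1, h2⟩ := h
  have hinj : Function.Injective b := by
    intro i j hij
    by_contra hne
    refine h2 i j hne (p i).end_mem_support ?_
    rw [hij]
    exact (p j).end_mem_support
  have hsurj : ∀ t ∈ T, ∃ i, b i = t := by
    intro t ht
    have h3 : Finset.univ.image b = T := by
      apply Finset.eq_of_subset_of_card_le
      · intro t ht
        obtain ⟨i, -, rfl⟩ := Finset.mem_image.1 ht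
        exact (h1 i).2.1
      · rw [Finset.card_image_of_injective _ hinj, Finset.card_univ, Fintype.card_fin]
    rw [← h3] at ht
    obtain ⟨i, -, hi⟩ := Finset.mem_image.1 ht
    exact ⟨i, hi⟩
  have hex : ∀ t : V, ∃ (a' : V) (q : G.Walk a' t), t ∈ T →
      a' ∈ A ∧ q.IsPath ∧ ∃ i, b i = t ∧ q.support = (p i).support := by
    intro t
    by_cases ht : t ∈ T
    · obtain ⟨i, rfl⟩ := hsurj t ht
      exact ⟨a i, p i, fun _ => ⟨(h1 i).1, (h1 i).2.2, i, rfl, rfl⟩⟩
    · exact ⟨t, Walk.nil, fun h => absurd h ht⟩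
  choose a' q hq using hex
  refine ⟨a', q, fun t ht => ⟨(hq t ht).1, (hq t ht).2.1⟩, fun t ht t' ht' hne => ?_⟩
  obtain ⟨-, -, i, hi, hqi⟩ := hq t ht
  obtain ⟨-, -, j, hj, hqj⟩ := hq t' ht'
  rw [hqi, hqj]
  refine h2 i j ?_
  rintro rfl
  exact hne (hi.symm.trans hj)

/-- The two halves of the graph are joined along a separator. -/
theorem sep_aux {G G' : SimpleGraph V} {A B : Set V} {k : ℕ} {x y : V} {S : Finset V}
    (hG' : G' = G.deleteEdges {s(x, y)}) (h : NoSep G A B k)
    (hS : ∀ a ∈ A, ∀ b ∈ B, ¬ Joined G' (S : Set V)ᶜ a b) {b0 : V} (hb0 : b0 ∈ B)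
    (hy : Joined G' (S : Set V)ᶜ y b0) : NoSep G' A (insert x (S : Set V)) k := by
  intro T hT
  obtain ⟨a, ha, b, hb, hab⟩ := h T hT
  subst hG'
  rcases hab.edge x y with h1 | ⟨h1, -⟩ | ⟨h1, -⟩
  · rcases h1.exit (S : Set V) with h2 | ⟨z, hz, h2⟩
    · exact absurd (h2.mono Set.inter_subset_right) (hS a ha b hb)
    · exact ⟨a, ha, z, Set.mem_insert_of_mem _ hz, h2⟩
  · exact ⟨a, ha, x, Set.mem_insert _ _, h1⟩
  · rcases h1.exit (S : Set V) with h2 | ⟨z, hz, h2⟩
    · exact absurd ((h2.mono Set.inter_subset_right).trans hy) (hS a ha b0 hb0)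
    · exact ⟨a, ha, z, Set.mem_insert_of_mem _ hz, h2⟩

theorem card_insert_of_noSep [DecidableEq V] {G : SimpleGraph V} {A : Set V} {k : ℕ} {x : V}
    {S : Finset V} (hS : S.card < k) (h : NoSep G A (insert x (S : Set V)) k) :
    (insert x S).card = k ∧ x ∉ S := by
  have h1 : k ≤ (insert x S).card := by
    by_contra hlt
    push Not at hlt
    obtain ⟨a, -, b, hb, hab⟩ := h _ hlt
    have := hab.right_mem
    apply this
    rw [Finset.coe_insert]
    exact hb
  have h2 : x ∉ S := by
    intro hx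
    rw [Finset.insert_eq_of_mem hx] at h1
    omega
  rw [Finset.card_insert_of_notMem h2] at h1 ⊢
  exact ⟨by omega, h2⟩

/-- Combination of the paths of the two halves. -/
theorem combine [DecidableEq V] {G G' : SimpleGraph V} (hle : G' ≤ G) {A B : Set V} {x y : V}
    (hxy : G.Adj x y) {S : Finset V} (hyS : y ∉ S) {k : ℕ}
    (hk1 : (insert x S).card = k) (hk2 : (insert y S).card = k)
    (hS : ∀ a ∈ A, ∀ b ∈ B, ¬ Joined G' (S : Set V)ᶜ a b)
    (h1 : Lk G' A ((insert x S : Finset V) : Set V) k)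
    (h2 : Lk G' B ((insert y S : Finset V) : Set V) k) : Lk G A B k := by
  have h1' := h1
  have h2' := h2
  rw [← hk1] at h1'
  rw [← hk2] at h2'
  obtain ⟨a, p, hp, hpd⟩ := h1'.reindex
  obtain ⟨b, q, hq, hqd⟩ := h2'.reindex
  -- the part of a path before its end avoids `S`
  have key : ∀ (C : Set V) (w : V) (hw : (insert w S).card = k) (c : V → V)
      (r : ∀ t, G'.Walk (c t) t), (∀ t ∈ insert w S, c t ∈ C ∧ (r t).IsPath) →
      (∀ t ∈ insert w S, ∀ t' ∈ insert w S, t ≠ t' → (r t).support.Disjoint (r t').support) →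
      ∀ t ∈ insert w S, ∀ z ∈ (r t).support, z ∉ S → Joined G' (S : Set V)ᶜ (c t) z := by
    intro C w hw c r hr hrd t ht z hz hzS
    refine ⟨(r t).takeUntil z hz, fun u hu => ?_⟩
    intro huS
    have huS' : u ∈ S := huS
    have hu' : u ∈ (r t).support := (r t).support_takeUntil_subset_support hz hu
    have hut : u = t := by
      by_contra hne
      exact hrd u (Finset.mem_insert_of_mem huS') t ht hne (r u).end_mem_support hu'
    subst hut
    have hzu : z ≠ u := by
      rintro rfl
      exact hzS huS'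
    exact Walk.endpoint_notMem_support_takeUntil (hr u ht).2 hz hzu.symm hu
  have cross : ∀ t ∈ insert x S, ∀ t' ∈ insert y S, ∀ z, z ∈ (p t).support → z ∈ (q t').support →
      z ∈ S ∧ z = t ∧ z = t' := by
    intro t ht t' ht' z hz hz'
    have hzS : z ∈ S := by
      by_contra hzS
      have e1 := key A x hk1 a p hp hpd t ht z hz hzS
      have e2 := key B y hk2 b q hq hqd t' ht' z hz' hzS
      exact hS _ (hp t ht).1 _ (hq t' ht').1 (e1.trans e2.symm)
    refine ⟨hzS, ?_, ?_⟩
    · by_contra hne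
      exact hpd z (Finset.mem_insert_of_mem hzS) t ht hne (p z).end_mem_support hz
    · by_contra hne
      exact hqd z (Finset.mem_insert_of_mem hzS) t' ht' hne (q z).end_mem_support hz'
  let σ : V → V := fun t => if t = x then y else t
  have hσ : ∀ t ∈ insert x S, σ t ∈ insert y S := by
    intro t ht
    simp only [σ]
    split_ifs with h
    · exact Finset.mem_insert_self _ _
    · exact Finset.mem_insert_of_mem ((Finset.mem_insert.1 ht).resolve_left h)
  have hσinj : ∀ t ∈ insert x S, ∀ t' ∈ insert x S, σ t = σ t' → t = t' := by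
    intro t ht t' ht' h
    simp only [σ] at h
    split_ifs at h with h3 h4 h4
    · rw [h3, h4]
    · exfalso
      apply hyS
      rw [h]
      exact (Finset.mem_insert.1 ht').resolve_left h4
    · exfalso
      apply hyS
      rw [← h]
      exact (Finset.mem_insert.1 ht).resolve_left h3
    · exact h
  have hσS : ∀ t ∈ insert x S, σ t ∈ S → σ t = t := by
    intro t _ h
    simp only [σ] at h ⊢
    split_ifs at h ⊢ with h3
    · exact absurd h hyS
    · rfl
  have hex : ∀ t : V, ∃ r : G.Walk (a t) (b (σ t)), t ∈ insert x S →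
      (∀ z ∈ r.support, z ∈ (p t).support ∨ z ∈ (q (σ t)).support) := by
    intro t
    by_cases h : t = x
    · have e : σ t = y := by simp [σ, h]
      rw [e]
      subst h
      refine ⟨((p t).mapLe hle).append (Walk.cons hxy ((q y).reverse.mapLe hle)), fun _ z hz => ?_⟩
      rw [Walk.mem_support_append_iff, Walk.support_cons, List.mem_cons] at hz
      rcases hz with hz | rfl | hz
      · left
        simpa using hz
      · left
        exact (p z).end_mem_support
      · right
        simpa using hz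
    · have e : σ t = t := by simp [σ, h]
      rw [e]
      refine ⟨((p t).mapLe hle).append ((q t).reverse.mapLe hle), fun _ z hz => ?_⟩
      rw [Walk.mem_support_append_iff] at hz
      rcases hz with hz | hz
      · left
        simpa using hz
      · right
        simpa using hz
  choose r hr using hex
  have e := (insert x S).equivFinOfCardEq hk1
  refine ⟨fun i => a (e.symm i), fun i => b (σ (e.symm i)), fun i => (r (e.symm i)).bypass,
    fun i => ⟨(hp _ (e.symm i).2).1, (hq _ (hσ _ (e.symm i).2)).1, Walk.bypass_isPath _⟩,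
    fun i j hij => ?_⟩
  have hne : (e.symm i : V) ≠ e.symm j := fun h => hij (e.symm.injective (Subtype.ext h))
  intro z hz hz'
  have hz1 := hr _ (e.symm i).2 z (Walk.support_bypass_subset_support _ hz)
  have hz2 := hr _ (e.symm j).2 z (Walk.support_bypass_subset_support _ hz')
  rcases hz1 with hz1 | hz1 <;> rcases hz2 with hz2 | hz2
  · exact hpd _ (e.symm i).2 _ (e.symm j).2 hne hz1 hz2
  · obtain ⟨k1, k2, k3⟩ := cross _ (e.symm i).2 _ (hσ _ (e.symm j).2) z hz1 hz2
    rw [k3] at k1
    have := hσS _ (e.symm j).2 k1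
    exact hne (k2.symm.trans (k3.trans this))
  · obtain ⟨k1, k2, k3⟩ := cross _ (e.symm j).2 _ (hσ _ (e.symm i).2) z hz2 hz1
    rw [k3] at k1
    have := hσS _ (e.symm i).2 k1
    exact hne (this.symm.trans (k3.symm.trans k2))
  · refine hqd _ (hσ _ (e.symm i).2) _ (hσ _ (e.symm j).2) ?_ hz1 hz2
    intro h
    exact hne (hσinj _ (e.symm i).2 _ (e.symm j).2 h)

theorem menger_aux (n : ℕ) : ∀ (G : SimpleGraph V), G.edgeSet.Finite → G.edgeSet.ncard = n →
    ∀ (A B : Set V) (k : ℕ), NoSep G A B k → Lk G A B k := by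
  classical
  induction n with
  | zero =>
    intro G hfin hn A B k h
    have hG : G = ⊥ := by
      rw [← edgeSet_eq_empty, ← Set.ncard_eq_zero hfin]
      exact hn
    subst hG
    have hbot : ∀ (U : Set V) (a b : V), Joined (⊥ : SimpleGraph V) U a b → a = b := by
      rintro U a b ⟨p, -⟩
      cases p with
      | nil => rfl
      | cons h _ => exact absurd h (by simp)
    have hex : ∃ T : Finset V, (T : Set V) ⊆ A ∩ B ∧ T.card = k := by
      by_cases hAB : (A ∩ B).Finite
      · have h1 : k ≤ hAB.toFinset.card := by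
          by_contra hlt
          push Not at hlt
          obtain ⟨a, ha, b, hb, hab⟩ := h _ hlt
          have := hbot _ _ _ hab
          subst this
          apply hab.left_mem
          simpa using ⟨ha, hb⟩
        obtain ⟨T, hT, hTk⟩ := Finset.exists_subset_card_eq h1
        exact ⟨T, fun z hz => hAB.mem_toFinset.1 (hT hz), hTk⟩
      · obtain ⟨T, hT, hTk⟩ := Set.Infinite.exists_subset_card_eq hAB k
        exact ⟨T, hT, hTk⟩
    obtain ⟨T, hT, rfl⟩ := hex
    refine ⟨fun i => (T.equivFin.symm i : V), fun i => (T.equivFin.symm i : V),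
      fun i => Walk.nil, fun i => ⟨(hT (T.equivFin.symm i).2).1, (hT (T.equivFin.symm i).2).2,
        Walk.IsPath.nil⟩, fun i j hij => ?_⟩
    intro z hz hz'
    rw [Walk.support_nil, List.mem_singleton] at hz hz'
    apply hij
    apply T.equivFin.symm.injective
    exact Subtype.ext (hz.symm.trans hz')
  | succ n ih =>
    intro G hfin hn A B k h
    obtain ⟨e, he⟩ : ∃ e, e ∈ G.edgeSet := by
      by_contra hno
      push Not at hno
      rw [Set.eq_empty_of_forall_notMem hno, Set.ncard_empty] at hn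
      omega
    induction e using Sym2.ind with
    | _ x y =>
    set G' := G.deleteEdges {s(x, y)} with hG'
    have hle : G' ≤ G := deleteEdges_le _
    have hE : G'.edgeSet = G.edgeSet \ {s(x, y)} := edgeSet_deleteEdges _
    have hfin' : G'.edgeSet.Finite := by
      rw [hE]
      exact hfin.subset Set.sdiff_subset
    have hn' : G'.edgeSet.ncard = n := by
      rw [hE, Set.ncard_sdiff_singleton_of_mem he, hn]
      omega
    by_cases hsep : NoSep G' A B k
    · obtain ⟨a, b, p, h1, h2⟩ := ih G' hfin' hn' A B k hsep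
      refine ⟨a, b, fun i => (p i).mapLe hle, fun i => ⟨(h1 i).1, (h1 i).2.1, ?_⟩, fun i j hij => ?_⟩
      · rw [Walk.isPath_mapLe]
        exact (h1 i).2.2
      · intro z hz hz'
        exact h2 i j hij (by simpa using hz) (by simpa using hz')
    · unfold NoSep at hsep
      push Not at hsep
      obtain ⟨S, hSk, hS⟩ := hsep
      have hxy : G.Adj x y := he
      -- the main step, for an oriented edge
      have main : ∀ x y : V, G.Adj x y → G' = G.deleteEdges {s(x, y)} →
          ∀ a0 ∈ A, ∀ b0 ∈ B, Joined G' (S : Set V)ᶜ a0 x → Joined G' (S : Set V)ᶜ y b0 →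
            Lk G A B k := by
        intro x y hxy hGG a0 ha0 b0 hb0 hx hy
        have n1 : NoSep G' A (insert x (S : Set V)) k := sep_aux hGG h hS hb0 hy
        have n2 : NoSep G' B (insert y (S : Set V)) k := by
          refine sep_aux (x := y) (y := x) ?_ h.symm ?_ ha0 hx.symm
          · rw [hGG, Sym2.eq_swap]
          · intro b hb a ha hab
            exact hS a ha b hb hab.symm
        obtain ⟨c1, -⟩ := card_insert_of_noSep hSk n1
        obtain ⟨c2, hyS⟩ := card_insert_of_noSep hSk n2
        refine combine hle hxy hyS c1 c2 hS ?_ ?_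
        · rw [Finset.coe_insert]
          exact ih G' hfin' hn' _ _ _ n1
        · rw [Finset.coe_insert]
          exact ih G' hfin' hn' _ _ _ n2
      obtain ⟨a0, ha0, b0, hb0, hab⟩ := h S hSk
      rcases hab.edge x y with h3 | ⟨h3, h4⟩ | ⟨h3, h4⟩
      · exact absurd h3 (hS a0 ha0 b0 hb0)
      · exact main x y hxy rfl a0 ha0 b0 hb0 h3 h4
      · exact main y x hxy.symm (by rw [hG', Sym2.eq_swap]) a0 ha0 b0 hb0 h3 h4

/-- A path from `A` to `B` contains a path that meets `A` only at the start and `B` only at the end. -/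
theorem shorten {G : SimpleGraph V} {A B : Set V} (n : ℕ) : ∀ (a b : V) (p : G.Walk a b),
    p.length = n → p.IsPath → a ∈ A → b ∈ B → ∃ (a' b' : V) (q : G.Walk a' b'), q.IsPath ∧
      a' ∈ A ∧ b' ∈ B ∧ (∀ z ∈ q.support, z ∈ p.support) ∧
      ∀ z ∈ q.support, (z ∈ A → z = a') ∧ (z ∈ B → z = b') := by
  classical
  induction n using Nat.strong_induction_on with
  | _ n ih =>
  intro a b p hn hp ha hb
  by_cases h : ∀ z ∈ p.support, (z ∈ A → z = a) ∧ (z ∈ B → z = b)
  · exact ⟨a, b, p, hp, ha, hb, fun z hz => hz, h⟩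
  · push Not at h
    obtain ⟨z, hz, h⟩ := h
    by_cases h1 : z ∈ A → z = a
    · obtain ⟨h2, h3⟩ := h h1
      obtain ⟨a', b', q, h4, h5, h6, h7, h8⟩ := ih _ (by
        rw [← hn]
        exact Walk.length_takeUntil_lt_length hz h3) _ _ (p.takeUntil z hz) rfl (hp.takeUntil hz)
        ha h2
      exact ⟨a', b', q, h4, h5, h6, fun w hw => p.support_takeUntil_subset_support hz (h7 w hw), h8⟩
    · push Not at h1
      obtain ⟨a', b', q, h4, h5, h6, h7, h8⟩ := ih _ (by
        rw [← hn]
        exact Walk.length_dropUntil_lt_length hz h1.2) _ _ (p.dropUntil z hz) rfl (hp.dropUntil hz)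
        h1.1 hb
      exact ⟨a', b', q, h4, h5, h6, fun w hw => p.support_dropUntil_subset_support hz (h7 w hw), h8⟩

/-- M1. Menger's theorem for a graph with finitely many edges. -/
theorem menger {G : SimpleGraph V} (hG : G.edgeSet.Finite) {A B : Set V} {k : ℕ}
    (h : ∀ T : Finset V, T.card < k → ∃ a ∈ A, ∃ b ∈ B, Joined G (T : Set V)ᶜ a b) :
    ∃ (a b : Fin k → V) (p : ∀ i, G.Walk (a i) (b i)),
      (∀ i, a i ∈ A ∧ b i ∈ B ∧ (p i).IsPath) ∧
      (∀ i, ∀ z ∈ (p i).support, (z ∈ A → z = a i) ∧ (z ∈ B → z = b i)) ∧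
      ∀ i j, i ≠ j → (p i).support.Disjoint (p j).support := by
  obtain ⟨a, b, p, h1, h2⟩ := menger_aux _ G hG rfl A B k h
  choose a' b' q h3 h4 h5 h6 h7 using fun i =>
    shorten _ (a i) (b i) (p i) rfl (h1 i).2.2 (h1 i).1 (h1 i).2.1
  exact ⟨a', b', q, fun i => ⟨h4 i, h5 i, h3 i⟩, h7, fun i j hij z hz hz' =>
    h2 i j hij (h6 i z hz) (h6 j z hz')⟩

/-- The graph with all edges outside of `U` deleted. -/
def inside (G : SimpleGraph V) (U : Set V) : SimpleGraph V where
  Adj a b := G.Adj a b ∧ a ∈ U ∧ b ∈ U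
  symm := ⟨fun _ _ h => ⟨h.1.symm, h.2.2, h.2.1⟩⟩
  loopless := ⟨fun _ h => h.1.ne rfl⟩

theorem inside_le (G : SimpleGraph V) (U : Set V) : inside G U ≤ G := fun _ _ h => h.1

theorem Joined.inside {G : SimpleGraph V} {U W : Set V} {a b : V} (h : Joined G (U ∩ W) a b) :
    Joined (inside G U) W a b := by
  obtain ⟨p, hp⟩ := h
  induction p with
  | nil => exact Joined.refl (hp _ (by simp)).2
  | @cons a c b hac p ih =>
    have ha := hp a (by simp)
    have hc := hp c (by simp)
    refine Joined.cons (b := c) ⟨hac, ha.1, hc.1⟩ ha.2 (ih fun z hz => hp z ?_)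
    rw [Walk.support_cons]
    exact List.mem_cons_of_mem _ hz

theorem inside_support {G : SimpleGraph V} {U : Set V} {a b : V} (p : (inside G U).Walk a b)
    (ha : a ∈ U) : ∀ z ∈ p.support, z ∈ U := by
  induction p with
  | nil => simpa using ha
  | cons h p ih =>
    intro z hz
    rw [Walk.support_cons, List.mem_cons] at hz
    rcases hz with rfl | hz
    · exact ha
    · exact ih h.2.2 z hz

theorem inside_finite (G : SimpleGraph V) {U : Set V} (hU : U.Finite) :
    (inside G U).edgeSet.Finite := by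
  refine ((hU.prod hU).image (fun z : V × V => s(z.1, z.2))).subset ?_
  intro e he
  induction e using Sym2.ind with
  | _ x y => exact ⟨(x, y), ⟨he.2.1, he.2.2⟩, rfl⟩

/-- M2. Menger's theorem inside a finite set `U` of vertices. -/
theorem menger_inside (G : SimpleGraph V) {U : Set V} (hU : U.Finite) {A B : Set V} (hA : A ⊆ U)
    {k : ℕ} (h : ∀ T : Finset V, T.card < k → ∃ a ∈ A, ∃ b ∈ B, Joined G (U \ T) a b) :
    ∃ (a b : Fin k → V) (p : ∀ i, G.Walk (a i) (b i)),
      (∀ i, a i ∈ A ∧ b i ∈ B ∧ (p i).IsPath) ∧ (∀ i, ∀ z ∈ (p i).support, z ∈ U) ∧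
      (∀ i, ∀ z ∈ (p i).support, (z ∈ A → z = a i) ∧ (z ∈ B → z = b i)) ∧
      ∀ i j, i ≠ j → (p i).support.Disjoint (p j).support := by
  obtain ⟨a, b, p, h1, h2, h3⟩ := menger (G := inside G U) (inside_finite G hU) (A := A) (B := B)
    (k := k) (fun T hT => by
      obtain ⟨a, ha, b, hb, hab⟩ := h T hT
      exact ⟨a, ha, b, hb, Joined.inside hab⟩)
  refine ⟨a, b, fun i => (p i).mapLe (inside_le G U), fun i => ⟨(h1 i).1, (h1 i).2.1, ?_⟩,
    fun i z hz => ?_, fun i z hz => h2 i z (by simpa using hz), fun i j hij z hz hz' =>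
      h3 i j hij (by simpa using hz) (by simpa using hz')⟩
  · rw [Walk.isPath_mapLe]
    exact (h1 i).2.2
  · exact inside_support (p i) (hA (h1 i).1) z (by simpa using hz)

/-- M3. Fans: `k` paths from a vertex `x` to a set `B`, disjoint except at `x`. -/
theorem fan (G : SimpleGraph V) {U : Set V} (hU : U.Finite) {x : V} (hx : x ∈ U) {B : Set V}
    (hxB : x ∉ B) {k : ℕ} (h : ∀ T : Finset V, T.card < k → x ∉ T → ∃ b ∈ B, Joined G (U \ T) x b) :
    ∃ (b : Fin k → V) (p : ∀ i, G.Walk x (b i)),
      (∀ i, b i ∈ B ∧ (p i).IsPath) ∧ (∀ i, ∀ z ∈ (p i).support, z ∈ U) ∧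
      (∀ i, ∀ z ∈ (p i).support, z ∈ B → z = b i) ∧
      ∀ i j, i ≠ j → ∀ z, z ∈ (p i).support → z ∈ (p j).support → z = x := by
  classical
  obtain ⟨a, b, p, h1, h2, h3, h4⟩ := menger_inside G (U := U \ {x}) (hU.subset Set.sdiff_subset)
    (A := {a | G.Adj x a ∧ a ∈ U \ {x}}) (B := B) (k := k) (fun a ha => ha.2) (by
      intro T hT
      obtain ⟨b, hb, w, hw⟩ := h (T.erase x) (lt_of_le_of_lt (Finset.card_erase_le) hT)
        (Finset.notMem_erase _ _)
      have hP := Walk.bypass_isPath w
      have hs : ∀ z ∈ w.bypass.support, z ∈ U \ ((T.erase x : Finset V) : Set V) := fun z hz =>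
        hw z (Walk.support_bypass_subset_support _ hz)
      generalize w.bypass = q at hP hs
      cases q with
      | nil => exact absurd hb hxB
      | @cons _ c _ hxc q =>
        rw [Walk.cons_isPath_iff] at hP
        have hq : ∀ z ∈ q.support, z ∈ (U \ {x}) \ (T : Set V) := by
          intro z hz
          have hzx : z ≠ x := by
            rintro rfl
            exact hP.2 hz
          have h5 := hs z (by rw [Walk.support_cons]; exact List.mem_cons_of_mem _ hz)
          refine ⟨⟨h5.1, hzx⟩, fun hzT => h5.2 ?_⟩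
          rw [Finset.coe_erase]
          exact ⟨hzT, hzx⟩
        exact ⟨c, ⟨hxc, (hq c q.start_mem_support).1⟩, b, hb, q, hq⟩)
  refine ⟨b, fun i => Walk.cons (h1 i).1.1 (p i), fun i => ⟨(h1 i).2.1, ?_⟩, fun i z hz => ?_,
    fun i z hz hzB => ?_, fun i j hij z hz hz' => ?_⟩
  · rw [Walk.cons_isPath_iff]
    exact ⟨(h1 i).2.2, fun hxp => (h2 i x hxp).2 rfl⟩
  · rw [Walk.support_cons, List.mem_cons] at hz
    rcases hz with rfl | hz
    · exact hx
    · exact (h2 i z hz).1
  · rw [Walk.support_cons, List.mem_cons] at hz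
    rcases hz with rfl | hz
    · exact absurd hzB hxB
    · exact (h3 i z hz).2 hzB
  · rw [Walk.support_cons, List.mem_cons] at hz hz'
    rcases hz with hz | hz
    · exact hz
    · rcases hz' with hz' | hz'
      · exact hz'
      · exact absurd hz' (h4 i j hij hz)

end Menger

end Pool.Agent.P6
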