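import Pool.Agent.P6.StarDefs

set_option autoImplicit false

/-!
Assembly of the linkage from a system of exits (`Star.Sys`) and Lemma E (`Star.Link`).
-/

namespace Pool.Agent.P6

section Basic

variable {V : Type} {G : SimpleGraph V} {x : V}

/-- On an arc every vertex is joined to the corner `p` by the part of the arc between them. -/
theorem Star.down (D : Star G x) {p q v : V} (hpq : D.QA p q) (hv : v ∈ D.arc p q) :
    Joined G {w | w ∈ D.arc p q ∧ D.th p q w ≤ D.th p q v} v p := by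
  classical
  set A : Finset V := (D.arc_finite p q hpq).toFinset with hA
  have hmem : ∀ w, w ∈ A ↔ w ∈ D.arc p q := fun w => by simp [hA]
  have main : ∀ n : ℕ, ∀ v ∈ D.arc p q, (A.filter fun w => D.th p q w < D.th p q v).card ≤ n →
      Joined G {w | w ∈ D.arc p q ∧ D.th p q w ≤ D.th p q v} v p := by
    intro n
    induction n with
    | zero =>
      intro v hv hn
      by_cases hvp : v = p
      · subst hvp
        exact Joined.refl ⟨hv, le_rfl⟩
      · exfalso
        have h1 : p ∈ A.filter fun w => D.th p q w < D.th p q v := by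
          rw [Finset.mem_filter, hmem]
          exact ⟨D.left_mem p q hpq, D.th_left p q v hpq hv hvp⟩
        rw [Nat.le_zero, Finset.card_eq_zero] at hn
        rw [hn] at h1
        simp at h1
    | succ n ih =>
      intro v hv hn
      by_cases hvp : v = p
      · subst hvp
        exact Joined.refl ⟨hv, le_rfl⟩
      · have h1 : p ∈ A.filter fun w => D.th p q w < D.th p q v := by
          rw [Finset.mem_filter, hmem]
          exact ⟨D.left_mem p q hpq, D.th_left p q v hpq hv hvp⟩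
        obtain ⟨u, hu, hmax⟩ := Finset.exists_max_image (A.filter fun w => D.th p q w < D.th p q v)
          (fun w => D.th p q w) ⟨p, h1⟩
        rw [Finset.mem_filter, hmem] at hu
        have h2 : G.Adj u v := by
          refine D.next p q u v hpq hu.1 hv hu.2 fun w hw hh => ?_
          have h3 := hmax w (by rw [Finset.mem_filter, hmem]; exact ⟨hw, hh.2⟩)
          exact absurd hh.1 (not_lt.2 h3)
        have h3 : (A.filter fun w => D.th p q w < D.th p q u).card ≤ n := by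
          have h4 : (A.filter fun w => D.th p q w < D.th p q u) ⊂
              A.filter fun w => D.th p q w < D.th p q v := by
            refine Finset.ssubset_iff_subset_ne.2 ⟨?_, ?_⟩
            · intro w hw
              rw [Finset.mem_filter] at hw ⊢
              exact ⟨hw.1, hw.2.trans hu.2⟩
            · intro he
              have h5 : u ∈ A.filter fun w => D.th p q w < D.th p q u := by
                rw [he, Finset.mem_filter, hmem]
                exact hu
              rw [Finset.mem_filter] at h5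
              exact lt_irrefl _ h5.2
          have h6 := Finset.card_lt_card h4
          omega
        have h5 := ih u hu.1 h3
        exact Joined.step h2.symm ⟨hv, le_rfl⟩ (h5.mono fun w hw => ⟨hw.1, hw.2.trans hu.2.le⟩)
  exact main _ v hv le_rfl

theorem Star.right_mem2 (D : Star G x) {p q : V} (hpq : D.QA p q) : q ∈ D.arc p q := by
  rw [← D.arc_symm p q hpq]
  exact D.left_mem q p (D.qsymm p q hpq)

/-- The arc joins its corners. -/
theorem Star.arc_joined (D : Star G x) {p q : V} (hpq : D.QA p q) : Joined G (D.arc p q) p q :=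
  ((D.down hpq (D.right_mem2 hpq)).mono fun _ hw => hw.1).symm

theorem Star.th_right (D : Star G x) {p q v : V} (hpq : D.QA p q) (hv : v ∈ D.arc p q)
    (hvq : v ≠ q) : D.th p q v < D.th p q q := by
  rw [← D.th_symm p q q v hpq (D.right_mem2 hpq) hv]
  refine D.th_left q p v (D.qsymm p q hpq) ?_ hvq
  rw [D.arc_symm p q hpq]
  exact hv

theorem Star.IsExit.adj {D : Star G x} {z n : V} {E : Set V} (h : D.IsExit z n E) : G.Adj x n := by
  rcases h with ⟨-, h, -⟩ | ⟨-, q, hq, -⟩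
  · exact h
  · exact D.qadj n q hq

/-- An exit meets only arcs which end in its corner. -/
theorem Star.IsExit.arc_end {D : Star G x} {z n : V} {E : Set V} (h : D.IsExit z n E) {v p q : V}
    (hv : v ∈ E) (hpq : D.QA p q) (hv' : v ∈ D.arc p q) : n = p ∨ n = q := by
  rcases h with ⟨hz, hn, hE⟩ | ⟨hz, q', hq', hz', hE⟩
  · rw [hE] at hv
    have : v = n := hv
    subst this
    exact D.corner p q v hpq hv' hn
  · rw [hE] at hv
    obtain ⟨hv1, hv2⟩ := hv
    by_cases hc : G.Adj x v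
    · rcases D.corner n q' v hq' hv1 hc with rfl | rfl
      · exact D.corner p q v hpq hv' hc
      · exfalso
        have h1 : z ≠ v := by
          rintro rfl
          exact hz hc
        have h2 := D.th_right hq' hz' h1
        exact absurd hv2 (not_le.2 h2)
    · rcases D.unique n q' p q v hq' hpq hv1 hv' hc with ⟨h1, h2⟩ | ⟨h1, h2⟩
      · exact Or.inl h1.symm
      · exact Or.inr h2.symm

end Basic

section Asm

variable {V : Type} {G : SimpleGraph V} {x : V}

theorem linked3_core (D : Star G x) (hL : D.Link) {y a b c d : V} (hn : [x, y, a, b, c, d].Nodup)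
    {Y L : Finset V} (hY : ∀ v, v ∈ Y ↔ v = y ∨ v = a ∨ v = b ∨ v = c ∨ v = d) (hLY : L ⊆ Y)
    {n z : V → V} {A E : V → Set V} (hS : D.Shape Y L n z A E)
    (hL2 : ∀ w ∈ L, ¬ G.Adj x w ∧ ∃ p q, D.QA p q ∧ w ∈ D.arc p q ∧
      (∃ s ∈ Y, s ∉ L ∧ n s = p) ∧ (∃ s ∈ Y, s ∉ L ∧ n s = q))
    (hbad : ∀ w ∈ L, D.QA (n c) (n d) → w ∉ D.arc (n c) (n d)) :
    Linked3 G Set.univ x y a b c d := by
  obtain ⟨hJ, hxA, hex, hEA, hAS, hzt, hdisj⟩ := hS
  simp only [List.nodup_cons, List.mem_cons, List.not_mem_nil, or_false, not_or, List.nodup_nil,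
    not_false_eq_true, and_true] at hn
  obtain ⟨⟨hxy, hxa, hxb, hxc, hxd⟩, ⟨hya, hyb, hyc, hyd⟩, ⟨hab, hac, had⟩, ⟨hbc, hbd⟩, hcd⟩ := hn
  have yY : y ∈ Y := (hY y).2 (Or.inl rfl)
  have aY : a ∈ Y := (hY a).2 (Or.inr (Or.inl rfl))
  have bY : b ∈ Y := (hY b).2 (Or.inr (Or.inr (Or.inl rfl)))
  have cY : c ∈ Y := (hY c).2 (Or.inr (Or.inr (Or.inr (Or.inl rfl))))
  have dY : d ∈ Y := (hY d).2 (Or.inr (Or.inr (Or.inr (Or.inr rfl))))
  have hnA : ∀ t ∈ Y, n t ∈ A t := fun t ht => (hJ t ht).mem_right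
  have htA : ∀ t ∈ Y, t ∈ A t := fun t ht => (hJ t ht).mem_left
  have hinj : ∀ t ∈ Y, ∀ t' ∈ Y, n t = n t' → t = t' := by
    intro t ht t' ht' he
    by_contra hne
    have h1 := hnA t' ht'
    rw [← he] at h1
    exact Set.disjoint_left.1 (hdisj t ht t' ht' hne) (hnA t ht) h1
  have hadj : ∀ t ∈ Y, G.Adj x (n t) := fun t ht => (hex t ht).adj
  have hne : ∀ t ∈ Y, ∀ t' ∈ Y, t ≠ t' → n t ≠ n t' := fun t ht t' ht' h1 h2 =>
    h1 (hinj t ht t' ht' h2)
  obtain ⟨M, N, hMx, hNx, hMN, hyM, haM, hbM, hcM, hdM, hyN, haN, hbN, ⟨u, hu, v, hv, hau, hvb, huv⟩,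
    hcN, hdN, hcdN⟩ := hL (n y) (n a) (n b) (n c) (n d) (hadj y yY) (hadj a aY) (hadj b bY)
      (hadj c cY) (hadj d dY) (by
        simp only [List.nodup_cons, List.mem_cons, List.not_mem_nil, or_false, not_or,
          List.nodup_nil, not_false_eq_true, and_true]
        exact ⟨⟨hne y yY a aY hya, hne y yY b bY hyb, hne y yY c cY hyc, hne y yY d dY hyd⟩,
          ⟨hne a aY b bY hab, hne a aY c cY hac, hne a aY d dY had⟩,
          ⟨hne b bY c cY hbc, hne b bY d dY hbd⟩, hne c cY d dY hcd⟩)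
  have hM : ∀ t ∈ Y, n t ∉ M := by
    intro t ht
    rcases (hY t).1 ht with rfl | rfl | rfl | rfl | rfl <;> assumption
  set LM : Set V := {w | ∃ p q, D.QA p q ∧ p ∈ M ∧ (q ∈ M ∨ q = n a ∨ q = n b) ∧ w ∈ D.arc p q}
    with hLM
  set LN : Set V := {w | ∃ p q, D.QA p q ∧ p ∈ N ∧ q ∈ N ∧ w ∈ D.arc p q} with hLN
  -- disjointness of `LM` and the sets `A t`
  have d1 : ∀ t ∈ Y, t ≠ a → t ≠ b → ∀ w ∈ A t, w ∉ LM := by
    intro t ht hta htb w hw ⟨p, q, hpq, hp, hq, hwpq⟩
    rcases hAS t ht w hw (Or.inr ⟨p, q, hpq, hwpq⟩) with h1 | ⟨h1, h2⟩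
    · rcases (hex t ht).arc_end h1 hpq hwpq with h3 | h3
      · exact hM t ht (h3 ▸ hp)
      · rcases hq with hq | hq | hq
        · exact hM t ht (h3 ▸ hq)
        · exact hta (hinj t ht a aY (h3.trans hq))
        · exact htb (hinj t ht b bY (h3.trans hq))
    · subst h1
      obtain ⟨h3, p', q', hpq', hw', ⟨s, hs, -, hsp⟩, ⟨s', hs', -, hsq⟩⟩ := hL2 w h2
      rcases D.unique p q p' q' w hpq hpq' hwpq hw' h3 with ⟨e1, e2⟩ | ⟨e1, e2⟩
      · exact hM s hs (by rw [hsp, e1]; exact hp)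
      · exact hM s' hs' (by rw [hsq, e2]; exact hp)
  have hN : ∀ t ∈ Y, n t ∈ N → t = c ∨ t = d := by
    intro t ht h1
    rcases (hY t).1 ht with rfl | rfl | rfl | rfl | rfl
    · exact absurd h1 hyN
    · exact absurd h1 haN
    · exact absurd h1 hbN
    · exact Or.inl rfl
    · exact Or.inr rfl
  have d2 : ∀ t ∈ Y, t ≠ c → t ≠ d → ∀ w ∈ A t, w ∉ LN := by
    intro t ht htc htd w hw ⟨p, q, hpq, hp, hq, hwpq⟩
    rcases hAS t ht w hw (Or.inr ⟨p, q, hpq, hwpq⟩) with h1 | ⟨h1, h2⟩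
    · rcases (hex t ht).arc_end h1 hpq hwpq with h3 | h3
      · rcases hN t ht (h3 ▸ hp) with h4 | h4
        · exact htc h4
        · exact htd h4
      · rcases hN t ht (h3 ▸ hq) with h4 | h4
        · exact htc h4
        · exact htd h4
    · subst h1
      obtain ⟨h3, p', q', hpq', hw', ⟨s, hs, -, hsp⟩, ⟨s', hs', -, hsq⟩⟩ := hL2 w h2
      have hpN : p' ∈ N ∧ q' ∈ N := by
        rcases D.unique p q p' q' w hpq hpq' hwpq hw' h3 with ⟨e1, e2⟩ | ⟨e1, e2⟩
        · exact ⟨e1 ▸ hp, e2 ▸ hq⟩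
        · exact ⟨e1 ▸ hq, e2 ▸ hp⟩
      have hs1 := hN s hs (by rw [hsp]; exact hpN.1)
      have hs2 := hN s' hs' (by rw [hsq]; exact hpN.2)
      have hne' : s ≠ s' := by
        rintro rfl
        exact D.qne p' q' hpq' (hsp.symm.trans hsq)
      rcases hs1 with rfl | rfl
      · rcases hs2 with rfl | rfl
        · exact hne' rfl
        · subst hsp hsq
          exact hbad w h2 hpq' hw'
      · rcases hs2 with rfl | rfl
        · subst hsp hsq
          refine hbad w h2 (D.qsymm _ _ hpq') ?_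
          rw [D.arc_symm _ _ hpq']
          exact hw'
        · exact hne' rfl
  have d3 : ∀ w ∈ LM, w ∉ LN := by
    rintro w ⟨p, q, hpq, hp, hq, hwpq⟩ ⟨p', q', hpq', hp', hq', hwpq'⟩
    have hMN' : ∀ m ∈ M, m ∉ N := fun m h1 h2 => Set.disjoint_left.1 hMN h1 h2
    by_cases hc : G.Adj x w
    · have h1 : w ∈ N := by
        rcases D.corner p' q' w hpq' hwpq' hc with rfl | rfl
        · exact hp'
        · exact hq'
      rcases D.corner p q w hpq hwpq hc with rfl | rfl
      · exact hMN' _ hp h1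
      · rcases hq with hq | hq | hq
        · exact hMN' _ hq h1
        · exact haN (hq ▸ h1)
        · exact hbN (hq ▸ h1)
    · rcases D.unique p q p' q' w hpq hpq' hwpq hwpq' hc with ⟨e1, e2⟩ | ⟨e1, e2⟩
      · exact hMN' _ hp (e1 ▸ hp')
      · exact hMN' _ hp (e2 ▸ hq')
  have hxLM : x ∉ LM := by
    rintro ⟨p, q, hpq, -, -, hw⟩
    exact D.x_notMem p q hpq hw
  have hxLN : x ∉ LN := by
    rintro ⟨p, q, hpq, -, -, hw⟩
    exact D.x_notMem p q hpq hw
  -- connectivity
  have j1 : ∀ w, Relation.ReflTransGen (fun a b => D.QA a b ∧ b ∈ M) u w → w ∈ M ∧ Joined G LM u w := by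
    intro w hw
    induction hw with
    | refl =>
      have huLM : u ∈ LM :=
        ⟨u, n a, D.qsymm _ _ hau, hu, Or.inr (Or.inl rfl), D.left_mem _ _ (D.qsymm _ _ hau)⟩
      exact ⟨hu, Joined.refl huLM⟩
    | @tail w w' _ h1 ih =>
      refine ⟨h1.2, ih.2.trans ?_⟩
      exact (D.arc_joined h1.1).mono fun z hz => ⟨w, w', h1.1, ih.1, Or.inl h1.2, hz⟩
  have j2 : Joined G LM (n a) (n b) := by
    have s1 : D.arc u (n a) ⊆ LM := by
      intro z hz
      exact ⟨u, n a, D.qsymm _ _ hau, hu, Or.inr (Or.inl rfl), hz⟩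
    have s2 : D.arc v (n b) ⊆ LM := by
      intro z hz
      exact ⟨v, n b, hvb, hv, Or.inr (Or.inr rfl), hz⟩
    have e1 : Joined G LM (n a) u := ((D.arc_joined (D.qsymm _ _ hau)).mono s1).symm
    have e2 : Joined G LM v (n b) := (D.arc_joined hvb).mono s2
    exact e1.trans ((j1 v huv).2.trans e2)
  have j3 : ∀ w, Relation.ReflTransGen (fun a b => D.QA a b ∧ b ∈ N) (n c) w →
      w ∈ N ∧ Joined G ({n c} ∪ LN) (n c) w := by
    intro w hw
    induction hw with
    | refl => exact ⟨hcN, Joined.refl (Or.inl rfl)⟩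
    | @tail w w' _ h1 ih =>
      refine ⟨h1.2, ih.2.trans ?_⟩
      exact (D.arc_joined h1.1).mono fun z hz => Or.inr ⟨w, w', h1.1, ih.1, h1.2, hz⟩
  have j4 := (j3 (n d) hcdN).2
  have B1 : Joined G ({x} ∪ A y) x y :=
    Joined.step (hadj y yY) (Or.inl rfl) (((hJ y yY).symm).mono fun z hz => Or.inr hz)
  have B2 : Joined G (A a ∪ A b ∪ LM) a b := by
    refine ((hJ a aY).mono fun z hz => Or.inl (Or.inl hz)).trans ((j2.mono fun z hz => Or.inr hz).trans
      (((hJ b bY).symm).mono fun z hz => Or.inl (Or.inr hz)))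
  have B3 : Joined G (A c ∪ A d ∪ LN) c d := by
    refine ((hJ c cY).mono fun z hz => Or.inl (Or.inl hz)).trans ((j4.mono ?_).trans
      (((hJ d dY).symm).mono fun z hz => Or.inl (Or.inr hz)))
    rintro z (hz | hz)
    · have : z = n c := hz
      subst this
      exact Or.inl (Or.inl (hnA c cY))
    · exact Or.inr hz
  have dA : ∀ t ∈ Y, ∀ t' ∈ Y, t ≠ t' → ∀ w ∈ A t, w ∉ A t' := fun t ht t' ht' h1 w h2 h3 =>
    Set.disjoint_left.1 (hdisj t ht t' ht' h1) h2 h3
  refine linked3_of_joined (A := A a ∪ A b ∪ LM) (B := A c ∪ A d ∪ LN) (C := {x} ∪ A y) B1 B2 B3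
    (Set.subset_univ _) (Set.subset_univ _) (Set.subset_univ _) ?_ ?_ ?_
  · rw [Set.disjoint_left]
    rintro w (hw | hw) ((hw' | hw') | hw')
    · have : w = x := hw
      subst this
      exact hxA a aY hw'
    · have : w = x := hw
      subst this
      exact hxA b bY hw'
    · have : w = x := hw
      subst this
      exact hxLM hw'
    · exact dA y yY a aY hya w hw hw'
    · exact dA y yY b bY hyb w hw hw'
    · exact d1 y yY hya hyb w hw hw'
  · rw [Set.disjoint_left]
    rintro w (hw | hw) ((hw' | hw') | hw')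
    · have : w = x := hw
      subst this
      exact hxA c cY hw'
    · have : w = x := hw
      subst this
      exact hxA d dY hw'
    · have : w = x := hw
      subst this
      exact hxLN hw'
    · exact dA y yY c cY hyc w hw hw'
    · exact dA y yY d dY hyd w hw hw'
    · exact d2 y yY hyc hyd w hw hw'
  · rw [Set.disjoint_left]
    rintro w ((hw | hw) | hw) ((hw' | hw') | hw')
    · exact dA a aY c cY hac w hw hw'
    · exact dA a aY d dY had w hw hw'
    · exact d2 a aY hac had w hw hw'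
    · exact dA b bY c cY hbc w hw hw'
    · exact dA b bY d dY hbd w hw hw'
    · exact d2 b bY hbc hbd w hw hw'
    · exact d1 c cY (Ne.symm hac) (Ne.symm hbc) w hw' hw
    · exact d1 d dY (Ne.symm had) (Ne.symm hbd) w hw' hw
    · exact d3 w hw hw'

/-- **R8d**: assembly -/
theorem linked3_of_sys (D : Star G x) (hL : D.Link) {y a b c d : V} (hn : [x, y, a, b, c, d].Nodup)
    (hsys : ∀ Y : Finset V, (∀ v, v ∈ Y ↔ v = y ∨ v = a ∨ v = b ∨ v = c ∨ v = d) → D.Sys Y) :
    Linked3 G Set.univ x y a b c d := by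
  classical
  set Y : Finset V := {y, a, b, c, d} with hYdef
  have hY : ∀ v, v ∈ Y ↔ v = y ∨ v = a ∨ v = b ∨ v = c ∨ v = d := fun v => by simp [hYdef]
  obtain ⟨L, n, z, A, E, hLY, hS, hL2⟩ := hsys Y hY
  have hS' := hS
  obtain ⟨hJ, hxA, hex, hEA, hAS, hzt, hdisj⟩ := hS'
  have hn' := hn
  simp only [List.nodup_cons, List.mem_cons, List.not_mem_nil, or_false, not_or, List.nodup_nil,
    not_false_eq_true, and_true] at hn'
  obtain ⟨⟨hxy, hxa, hxb, hxc, hxd⟩, ⟨hya, hyb, hyc, hyd⟩, ⟨hab, hac, had⟩, ⟨hbc, hbd⟩, hcd⟩ := hn'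
  have yY : y ∈ Y := (hY y).2 (Or.inl rfl)
  have aY : a ∈ Y := (hY a).2 (Or.inr (Or.inl rfl))
  have bY : b ∈ Y := (hY b).2 (Or.inr (Or.inr (Or.inl rfl)))
  have cY : c ∈ Y := (hY c).2 (Or.inr (Or.inr (Or.inr (Or.inl rfl))))
  have dY : d ∈ Y := (hY d).2 (Or.inr (Or.inr (Or.inr (Or.inr rfl))))
  have hinj : ∀ t ∈ Y, ∀ t' ∈ Y, n t = n t' → t = t' := by
    intro t ht t' ht' he
    by_contra hne
    have h1 := (hJ t' ht').mem_right
    rw [← he] at h1
    exact Set.disjoint_left.1 (hdisj t ht t' ht' hne) (hJ t ht).mem_right h1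
  by_cases hbad : ∀ w ∈ L, D.QA (n c) (n d) → w ∉ D.arc (n c) (n d)
  · exact linked3_core D hL hn hY hLY hS hL2 hbad
  by_cases hbad' : ∀ w ∈ L, D.QA (n a) (n b) → w ∉ D.arc (n a) (n b)
  · have hn2 : [x, y, c, d, a, b].Nodup := by
      simp only [List.nodup_cons, List.mem_cons, List.not_mem_nil, or_false, not_or, List.nodup_nil,
        not_false_eq_true, and_true]
      exact ⟨⟨hxy, hxc, hxd, hxa, hxb⟩, ⟨hyc, hyd, hya, hyb⟩, ⟨hcd, Ne.symm hac, Ne.symm hbc⟩,
        ⟨Ne.symm had, Ne.symm hbd⟩, hab⟩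
    have hY2 : ∀ v, v ∈ Y ↔ v = y ∨ v = c ∨ v = d ∨ v = a ∨ v = b := by
      intro v
      rw [hY v]
      tauto
    obtain ⟨p, q, r, h1, h2, h3, -, -, -, h4, h5, h6⟩ :=
      linked3_core D hL hn2 hY2 hLY hS hL2 hbad'
    exact ⟨p, r, q, h1, h3, h2, fun _ _ => Set.mem_univ _, fun _ _ => Set.mem_univ _,
      fun _ _ => Set.mem_univ _, h5, h4, h6.symm⟩
  exfalso
  push Not at hbad hbad'
  obtain ⟨w, hwL, hQ, hw⟩ := hbad
  obtain ⟨w', hwL', hQ', hw'⟩ := hbad'
  have key : ∀ e f : V, e ∈ Y → f ∈ Y → ∀ w ∈ L, D.QA (n e) (n f) → w ∈ D.arc (n e) (n f) →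
      e ∉ L ∧ f ∉ L := by
    intro e f he hf w hwL hQ hw
    obtain ⟨h3, p', q', hpq', hw', ⟨s, hs, hsL, hsp⟩, ⟨s', hs', hsL', hsq⟩⟩ := hL2 w hwL
    rcases D.unique _ _ p' q' w hQ hpq' hw hw' h3 with ⟨e1, e2⟩ | ⟨e1, e2⟩
    · have h4 : s = e := hinj s hs e he (hsp.trans e1)
      have h5 : s' = f := hinj s' hs' f hf (hsq.trans e2)
      exact ⟨h4 ▸ hsL, h5 ▸ hsL'⟩
    · have h4 : s = f := hinj s hs f hf (hsp.trans e1)
      have h5 : s' = e := hinj s' hs' e he (hsq.trans e2)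
      exact ⟨h5 ▸ hsL', h4 ▸ hsL⟩
  have k1 := key c d cY dY w hwL hQ hw
  have k2 := key a b aY bY w' hwL' hQ' hw'
  have hLy : ∀ v ∈ L, v = y := by
    intro v hv
    rcases (hY v).1 (hLY hv) with rfl | rfl | rfl | rfl | rfl
    · rfl
    · exact absurd hv k2.1
    · exact absurd hv k2.2
    · exact absurd hv k1.1
    · exact absurd hv k1.2
  have e1 := hLy w hwL
  have e2 := hLy w' hwL'
  subst e1
  subst e2
  have h3 := (hL2 w' hwL').1
  rcases D.unique _ _ _ _ w' hQ hQ' hw hw' h3 with ⟨e1, e2⟩ | ⟨e1, e2⟩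
  · exact hac (hinj a aY c cY e1)
  · exact had (hinj a aY d dY e1)

end Asm

end Pool.Agent.P6
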