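import Pool.Agent.P6.Defs

set_option autoImplicit false

/-!
Basic facts on polytope graphs: improving neighbours, half-spaces induce connected subgraphs,
graphs of faces.
-/

open Set

namespace Pool.Agent.P6

section Joined

variable {V : Type} {G : SimpleGraph V} {U U' : Set V} {a b c : V}

theorem Joined.refl (h : a ∈ U) : Joined G U a a :=
  ⟨SimpleGraph.Walk.nil, fun z hz => by
    rw [SimpleGraph.Walk.support_nil, List.mem_singleton] at hz
    rwa [hz]⟩

theorem Joined.symm (h : Joined G U a b) : Joined G U b a := by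
  obtain ⟨p, hp⟩ := h
  exact ⟨p.reverse, fun z hz => hp z (by simpa using hz)⟩

theorem Joined.trans (h : Joined G U a b) (h' : Joined G U b c) : Joined G U a c := by
  obtain ⟨p, hp⟩ := h
  obtain ⟨q, hq⟩ := h'
  refine ⟨p.append q, fun z hz => ?_⟩
  rw [SimpleGraph.Walk.mem_support_append_iff] at hz
  rcases hz with hz | hz
  · exact hp z hz
  · exact hq z hz

theorem Joined.mono (h : Joined G U a b) (hU : U ⊆ U') : Joined G U' a b := by
  obtain ⟨p, hp⟩ := h
  exact ⟨p, fun z hz => hU (hp z hz)⟩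

theorem Joined.mem_left (h : Joined G U a b) : a ∈ U := by
  obtain ⟨p, hp⟩ := h
  exact hp a p.start_mem_support

theorem Joined.mem_right (h : Joined G U a b) : b ∈ U := by
  obtain ⟨p, hp⟩ := h
  exact hp b p.end_mem_support

theorem Joined.adj (h : G.Adj a b) (ha : a ∈ U) (hb : b ∈ U) : Joined G U a b := by
  refine ⟨SimpleGraph.Walk.cons h SimpleGraph.Walk.nil, fun z hz => ?_⟩
  simp only [SimpleGraph.Walk.support_cons, SimpleGraph.Walk.support_nil, List.mem_cons,
    List.not_mem_nil, or_false] at hz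
  rcases hz with rfl | rfl
  · exact ha
  · exact hb

theorem Joined.step (h : G.Adj a b) (ha : a ∈ U) (h' : Joined G U b c) : Joined G U a c :=
  (Joined.adj h ha h'.mem_left).trans h'

theorem Joined.exists_path (h : Joined G U a b) :
    ∃ p : G.Walk a b, p.IsPath ∧ ∀ z ∈ p.support, z ∈ U := by
  classical
  obtain ⟨p, hp⟩ := h
  exact ⟨p.bypass, p.bypass_isPath, fun z hz => hp z (p.support_bypass_subset_support hz)⟩

end Joined

section Perturb

variable {E : Type} [AddCommGroup E] [Module ℝ E]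

/-- Small perturbations keep strict inequalities on a finite set. -/
theorem exists_eps (S : Finset E) (ℓ g : E →ₗ[ℝ] ℝ) :
    ∃ ε : ℝ, 0 < ε ∧ ∀ x ∈ S, ∀ y ∈ S, ℓ x < ℓ y → (ℓ + ε • g) x < (ℓ + ε • g) y := by
  have h1 : ∀ x ∈ S, ∀ᶠ ε in nhdsWithin (0 : ℝ) (Ioi 0), ∀ y ∈ S,
      ℓ x < ℓ y → (ℓ + ε • g) x < (ℓ + ε • g) y := by
    intro x _
    rw [Filter.eventually_all_finset]
    intro y _
    by_cases hxy : ℓ x < ℓ y
    · have h2 : Filter.Tendsto (fun ε : ℝ => (ℓ y + ε * g y) - (ℓ x + ε * g x)) (nhds 0)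
          (nhds ((ℓ y + 0 * g y) - (ℓ x + 0 * g x))) := by
        have : Continuous (fun ε : ℝ => (ℓ y + ε * g y) - (ℓ x + ε * g x)) := by fun_prop
        exact this.tendsto 0
      have h3 : (0 : ℝ) < (ℓ y + 0 * g y) - (ℓ x + 0 * g x) := by
        simp only [zero_mul, add_zero]; linarith
      have h4 := (h2.eventually (lt_mem_nhds h3)).filter_mono
        (nhdsWithin_le_nhds (s := Ioi (0 : ℝ)))
      refine h4.mono fun ε hε _ => ?_
      simp only [LinearMap.add_apply, LinearMap.smul_apply, smul_eq_mul]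
      linarith
    · exact Filter.Eventually.of_forall fun ε h => absurd h hxy
  have h5 : ∀ᶠ ε in nhdsWithin (0 : ℝ) (Ioi 0), ∀ x ∈ S, ∀ y ∈ S,
      ℓ x < ℓ y → (ℓ + ε • g) x < (ℓ + ε • g) y := by
    rw [Filter.eventually_all_finset]
    exact h1
  have h6 : ∀ᶠ ε in nhdsWithin (0 : ℝ) (Ioi 0), 0 < ε := eventually_mem_nhdsWithin
  obtain ⟨ε, h7, h8⟩ := (h6.and h5).exists
  exact ⟨ε, h7, h8⟩

/-- A linear functional separating the points of a finite set. -/
theorem exists_inj (S : Finset E) : ∃ g : E →ₗ[ℝ] ℝ, ∀ x ∈ S, ∀ y ∈ S, g x = g y → x = y := by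
  classical
  let I := {p : E × E // p ∈ S ×ˢ S ∧ p.1 ≠ p.2}
  have hI : Finite I := by
    refine Set.Finite.to_subtype (s := {p : E × E | p ∈ S ×ˢ S ∧ p.1 ≠ p.2}) ?_
    exact (S ×ˢ S).finite_toSet.subset fun p hp => by
      have := hp.1
      exact_mod_cast this
  obtain ⟨g, hg⟩ := Module.exists_dual_forall_apply_ne_zero (K := ℝ) (ι := I)
    (fun p => p.1.1 - p.1.2) (fun p => sub_ne_zero.2 p.2.2)
  refine ⟨g, fun x hx y hy hxy => ?_⟩
  by_contra hne
  have := hg ⟨(x, y), by simp [hx, hy], hne⟩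
  rw [map_sub, hxy, sub_self] at this
  exact this rfl

/-- A generic functional refining a given one on a finite set. -/
theorem exists_refine (S : Finset E) (ℓ : E →ₗ[ℝ] ℝ) :
    ∃ m : E →ₗ[ℝ] ℝ, (∀ x ∈ S, ∀ y ∈ S, ℓ x < ℓ y → m x < m y) ∧
      ∀ x ∈ S, ∀ y ∈ S, m x = m y → x = y := by
  obtain ⟨g, hg⟩ := exists_inj S
  obtain ⟨ε, hε, h⟩ := exists_eps S ℓ g
  refine ⟨ℓ + ε • g, h, fun x hx y hy hxy => ?_⟩
  rcases lt_trichotomy (ℓ x) (ℓ y) with h1 | h1 | h1
  · exact absurd hxy (h x hx y hy h1).ne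
  · refine hg x hx y hy ?_
    simp only [LinearMap.add_apply, LinearMap.smul_apply, smul_eq_mul, h1] at hxy
    have h2 : ε * g x = ε * g y := by linarith
    exact mul_left_cancel₀ hε.ne' h2
  · exact absurd hxy (h y hy x hx h1).ne'

end Perturb

section Poly

variable {E : Type} [NormedAddCommGroup E] [NormedSpace ℝ E]

theorem CP.subset {S F : Finset E} (h : CP S) (hF : F ⊆ S) : CP F := by
  intro x hx hc
  refine h x (hF hx) (convexHull_mono ?_ hc)
  intro y hy
  exact ⟨hF hy.1, hy.2⟩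

theorem CP.sep {S : Finset E} (h : CP S) {v : E} (hv : v ∈ S) :
    ∃ c : E →ₗ[ℝ] ℝ, ∀ y ∈ S, y ≠ v → c y < c v := by
  have h1 : IsClosed (convexHull ℝ ((S : Set E) \ {v})) :=
    Set.Finite.isClosed_convexHull ℝ (S.finite_toSet.subset sdiff_subset)
  obtain ⟨f, u, h2, h3⟩ := geometric_hahn_banach_closed_point (convex_convexHull ℝ _) h1 (h v hv)
  refine ⟨f.toLinearMap, fun y hy hne => ?_⟩
  have h4 := h2 y (subset_convexHull ℝ _ ⟨hy, hne⟩)
  exact h4.trans h3

/-- No vertex lies between two others. -/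
theorem CP.not_between {S : Finset E} (h : CP S) {u v w : E} (hu : u ∈ S) (hv : v ∈ S)
    (hw : w ∈ S) (huv : v ≠ u) (huw : w ≠ u) (t : ℝ) (ht0 : 0 ≤ t) (ht1 : t ≤ 1)
    (he : u = v + t • (w - v)) : False := by
  obtain ⟨c, hc⟩ := h.sep hu
  have h1 := hc v hv huv
  have h2 := hc w hw huw
  have h3 : c u = c v + t * (c w - c v) := by
    rw [he]; simp
  nlinarith [mul_nonneg ht0 (sub_nonneg.2 h2.le), mul_nonneg (sub_nonneg.2 ht1)
    (sub_nonneg.2 h1.le)]

/-- **Improving neighbours.** A vertex which does not maximise `ℓ` has a neighbour with a larger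
value of `ℓ`. -/
theorem exists_adj_gt {S : Finset E} (h : CP S) {v x : E} (hv : v ∈ S) (hx : x ∈ S)
    (ℓ : E →ₗ[ℝ] ℝ) (hlt : ℓ v < ℓ x) : ∃ w, (PG S).Adj v w ∧ ℓ v < ℓ w := by
  classical
  obtain ⟨c, hc⟩ := h.sep hv
  set ρ : E → ℝ := fun y => c v - c y with hρ
  have hρpos : ∀ y ∈ S, y ≠ v → 0 < ρ y := fun y hy hne => sub_pos.2 (hc y hy hne)
  set pt : E → E := fun y => (ρ y)⁻¹ • (y - v) with hpt
  have hxv : x ≠ v := by rintro rfl; exact lt_irrefl _ hlt
  -- the normalised points are distinct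
  have key : ∀ y₁ ∈ S, ∀ y₂ ∈ S, y₁ ≠ v → y₂ ≠ v → ρ y₁ ≤ ρ y₂ → pt y₁ = pt y₂ → y₁ = y₂ := by
    intro y₁ h₁ y₂ h₂ hn₁ hn₂ hle he
    by_contra hne
    have p1 := hρpos y₁ h₁ hn₁
    have p2 := hρpos y₂ h₂ hn₂
    refine h.not_between h₁ hv h₂ (Ne.symm hn₁) (Ne.symm hne) (ρ y₁ / ρ y₂)
      (div_nonneg p1.le p2.le) ((div_le_one p2).2 hle) ?_
    have h3 : y₁ - v = (ρ y₁ / ρ y₂) • (y₂ - v) := by
      have h4 : ρ y₁ • pt y₁ = ρ y₁ • pt y₂ := by rw [he]
      simp only [hpt, smul_smul] at h4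
      rw [mul_inv_cancel₀ p1.ne', one_smul] at h4
      rw [h4, div_eq_mul_inv]
    rw [← h3]; abel
  have hinj : ∀ y₁ ∈ S, ∀ y₂ ∈ S, y₁ ≠ v → y₂ ≠ v → pt y₁ = pt y₂ → y₁ = y₂ := by
    intro y₁ h₁ y₂ h₂ hn₁ hn₂ he
    rcases le_total (ρ y₁) (ρ y₂) with hle | hle
    · exact key y₁ h₁ y₂ h₂ hn₁ hn₂ hle he
    · exact (key y₂ h₂ y₁ h₁ hn₂ hn₁ hle he.symm).symm
  obtain ⟨m, hm1, hm2⟩ := exists_refine ((S.erase v).image pt) ℓ
  obtain ⟨w, hw, hmax⟩ := Finset.exists_max_image (S.erase v) (fun y => m (pt y))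
    ⟨x, Finset.mem_erase.2 ⟨hxv, hx⟩⟩
  have hwv : w ≠ v := (Finset.mem_erase.1 hw).1
  have hwS : w ∈ S := (Finset.mem_erase.1 hw).2
  have hpos : 0 < ℓ (pt w) := by
    by_contra hle
    have h5 : 0 < ℓ (pt x) := by
      simp only [hpt, map_smul, map_sub, smul_eq_mul]
      exact mul_pos (inv_pos.2 (hρpos x hx hxv)) (sub_pos.2 hlt)
    have h6 := hm1 _ (Finset.mem_image_of_mem pt hw) _
      (Finset.mem_image_of_mem pt (Finset.mem_erase.2 ⟨hxv, hx⟩))
      (lt_of_le_of_lt (not_lt.1 hle) h5)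
    exact absurd (hmax x (Finset.mem_erase.2 ⟨hxv, hx⟩)) (not_le.2 h6)
  refine ⟨w, ⟨hv, hwS, hwv.symm, m + m (pt w) • c, ?_, ?_⟩, ?_⟩
  · have h7 : m w - m v = ρ w * m (pt w) := by
      simp only [hpt, map_smul, map_sub, smul_eq_mul]
      rw [← mul_assoc, mul_inv_cancel₀ (hρpos w hwS hwv).ne', one_mul]
    simp only [LinearMap.add_apply, LinearMap.smul_apply, smul_eq_mul]
    simp only [hρ] at h7
    linarith
  · intro y hy
    by_cases hyv : y = v
    · subst hyv
      exact ⟨le_rfl, fun _ => Or.inl rfl⟩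
    · have h7 : m y - m v = ρ y * m (pt y) := by
        simp only [hpt, map_smul, map_sub, smul_eq_mul]
        rw [← mul_assoc, mul_inv_cancel₀ (hρpos y hy hyv).ne', one_mul]
      have h8 : m (pt y) ≤ m (pt w) := hmax y (Finset.mem_erase.2 ⟨hyv, hy⟩)
      have h9 : (m + m (pt w) • c) y - (m + m (pt w) • c) v = ρ y * (m (pt y) - m (pt w)) := by
        simp only [LinearMap.add_apply, LinearMap.smul_apply, smul_eq_mul]
        simp only [hρ] at h7 ⊢
        linarith
      constructor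
      · have := mul_nonpos_of_nonneg_of_nonpos (hρpos y hy hyv).le (sub_nonpos.2 h8)
        linarith
      · intro he
        right
        rw [he, sub_self] at h9
        have h10 : m (pt y) - m (pt w) = 0 := by
          rcases mul_eq_zero.1 h9.symm with h | h
          · exact absurd h (hρpos y hy hyv).ne'
          · exact h
        refine hinj y hy w hwS hyv hwv (hm2 _ ?_ _ ?_ (sub_eq_zero.1 h10))
        · exact Finset.mem_image_of_mem pt (Finset.mem_erase.2 ⟨hyv, hy⟩)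
        · exact Finset.mem_image_of_mem pt hw
  · simp only [hpt, map_smul, map_sub, smul_eq_mul] at hpos
    have h11 := (mul_pos_iff_of_pos_left (inv_pos.2 (hρpos w hwS hwv))).1 hpos
    linarith

/-- A vertex which does not minimise `ℓ` has a neighbour with a smaller value of `ℓ`. -/
theorem exists_adj_lt {S : Finset E} (h : CP S) {v x : E} (hv : v ∈ S) (hx : x ∈ S)
    (ℓ : E →ₗ[ℝ] ℝ) (hlt : ℓ x < ℓ v) : ∃ w, (PG S).Adj v w ∧ ℓ w < ℓ v := by
  obtain ⟨w, h1, h2⟩ := exists_adj_gt h hv hx (-ℓ) (by simpa using hlt)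
  exact ⟨w, h1, by simpa using h2⟩

/-- Every vertex is joined to one fixed top vertex without going down. -/
theorem exists_top {S : Finset E} (h : CP S) (hne : S.Nonempty) (ℓ : E →ₗ[ℝ] ℝ) :
    ∃ z ∈ S, (∀ x ∈ S, ℓ x ≤ ℓ z) ∧
      ∀ v ∈ S, Joined (PG S) {x | x ∈ S ∧ ℓ v ≤ ℓ x} v z := by
  classical
  obtain ⟨m, hm1, hm2⟩ := exists_refine S ℓ
  obtain ⟨z, hz, hmax⟩ := Finset.exists_max_image S m hne
  refine ⟨z, hz, fun x hx => ?_, ?_⟩
  · by_contra hlt
    exact absurd (hmax x hx) (not_le.2 (hm1 z hz x hx (not_le.1 hlt)))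
  · have main : ∀ n : ℕ, ∀ v ∈ S, (S.filter fun y => m v < m y).card ≤ n →
        Joined (PG S) {x | x ∈ S ∧ ℓ v ≤ ℓ x} v z := by
      intro n
      induction n with
      | zero =>
        intro v hv hcard
        have h1 : S.filter (fun y => m v < m y) = ∅ := Finset.card_eq_zero.1 (Nat.le_zero.1 hcard)
        have h2 : ¬ m v < m z := fun hlt => by
          have : z ∈ S.filter (fun y => m v < m y) := Finset.mem_filter.2 ⟨hz, hlt⟩
          rw [h1] at this
          exact absurd this (Finset.notMem_empty z)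
        have h3 : m v = m z := le_antisymm (hmax v hv) (not_lt.1 h2)
        have h4 : v = z := hm2 v hv z hz h3
        subst h4
        exact Joined.refl ⟨hv, le_rfl⟩
      | succ n ih =>
        intro v hv hcard
        by_cases hvz : m v < m z
        · obtain ⟨w, h1, h2⟩ := exists_adj_gt h hv hz m hvz
          have hw : w ∈ S := h1.2.1
          have h3 : ℓ v ≤ ℓ w := by
            by_contra hlt
            exact absurd h2 (not_lt.2 (hm1 w hw v hv (not_le.1 hlt)).le)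
          have h4 : (S.filter fun y => m w < m y) ⊂ (S.filter fun y => m v < m y) := by
            refine Finset.ssubset_iff_subset_ne.2 ⟨fun y hy => ?_, fun he => ?_⟩
            · rw [Finset.mem_filter] at hy ⊢
              exact ⟨hy.1, h2.trans hy.2⟩
            · have : w ∈ S.filter (fun y => m v < m y) := Finset.mem_filter.2 ⟨hw, h2⟩
              rw [← he, Finset.mem_filter] at this
              exact lt_irrefl _ this.2
          have h5 := Finset.card_lt_card h4
          have h6 := ih w hw (by omega)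
          exact Joined.step h1 ⟨hv, le_rfl⟩ (h6.mono fun y hy => ⟨hy.1, h3.trans hy.2⟩)
        · have h3 : m v = m z := le_antisymm (hmax v hv) (not_lt.1 hvz)
          have h4 : v = z := hm2 v hv z hz h3
          subst h4
          exact Joined.refl ⟨hv, le_rfl⟩
    intro v hv
    exact main _ v hv le_rfl

theorem connIn_gt {S : Finset E} (h : CP S) (ℓ : E →ₗ[ℝ] ℝ) (c : ℝ) :
    ConnIn (PG S) {x | x ∈ S ∧ c < ℓ x} := by
  intro a ha b hb
  obtain ⟨z, -, -, h2⟩ := exists_top h ⟨a, ha.1⟩ ℓ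
  have e1 : Joined (PG S) {x | x ∈ S ∧ c < ℓ x} a z :=
    (h2 a ha.1).mono fun y hy => ⟨hy.1, ha.2.trans_le hy.2⟩
  have e2 : Joined (PG S) {x | x ∈ S ∧ c < ℓ x} b z :=
    (h2 b hb.1).mono fun y hy => ⟨hy.1, hb.2.trans_le hy.2⟩
  exact e1.trans e2.symm

theorem connIn_ge {S : Finset E} (h : CP S) (ℓ : E →ₗ[ℝ] ℝ) (c : ℝ) :
    ConnIn (PG S) {x | x ∈ S ∧ c ≤ ℓ x} := by
  intro a ha b hb
  obtain ⟨z, -, -, h2⟩ := exists_top h ⟨a, ha.1⟩ ℓ
  have e1 : Joined (PG S) {x | x ∈ S ∧ c ≤ ℓ x} a z :=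
    (h2 a ha.1).mono fun y hy => ⟨hy.1, ha.2.trans hy.2⟩
  have e2 : Joined (PG S) {x | x ∈ S ∧ c ≤ ℓ x} b z :=
    (h2 b hb.1).mono fun y hy => ⟨hy.1, hb.2.trans hy.2⟩
  exact e1.trans e2.symm

theorem connIn_lt {S : Finset E} (h : CP S) (ℓ : E →ₗ[ℝ] ℝ) (c : ℝ) :
    ConnIn (PG S) {x | x ∈ S ∧ ℓ x < c} := by
  have := connIn_gt h (-ℓ) (-c)
  simpa using this

theorem connIn_le {S : Finset E} (h : CP S) (ℓ : E →ₗ[ℝ] ℝ) (c : ℝ) :
    ConnIn (PG S) {x | x ∈ S ∧ ℓ x ≤ c} := by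
  have := connIn_ge h (-ℓ) (-c)
  simpa using this

theorem connIn_univ {S : Finset E} (h : CP S) : ConnIn (PG S) (S : Set E) := by
  have := connIn_ge h 0 0
  simpa using this

/-! ### Faces -/

theorem IsFace.refl (S : Finset E) : IsFace S S :=
  ⟨Finset.Subset.refl S, 0, 0, fun x _ => by simp, fun x hx => by simp [hx]⟩

theorem IsFace.subset {S F : Finset E} (h : IsFace S F) : F ⊆ S := h.1

theorem IsFace.trans {S F F' : Finset E} (h : IsFace S F) (h' : IsFace F F') : IsFace S F' := by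
  obtain ⟨hs, ℓ, c, h1, h2⟩ := h
  obtain ⟨hs', m, c', h1', h2'⟩ := h'
  rcases F.eq_empty_or_nonempty with rfl | ⟨a, ha⟩
  · have : F' = ∅ := Finset.subset_empty.1 hs'
    subst this
    exact ⟨hs, ℓ, c, h1, h2⟩
  -- the pair of values `(ℓ x, m x)`; perturb `ℓ` by `m`
  obtain ⟨ε, hε, h3⟩ := exists_eps S ℓ m
  have hac : ℓ a = c := (h2 a (hs ha)).1 ha
  -- a point of `S` outside `F` lies strictly below every point of `F`
  have h4 : ∀ x ∈ S, x ∉ F → ∀ y ∈ F, (ℓ + ε • m) x < (ℓ + ε • m) y := by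
    intro x hx hxF y hy
    refine h3 x hx y (hs hy) ?_
    have hyc : ℓ y = c := (h2 y (hs hy)).1 hy
    rw [hyc]
    exact lt_of_le_of_ne (h1 x hx) fun he => hxF ((h2 x hx).2 he)
  have h5 : ∀ y ∈ F, (ℓ + ε • m) y = c + ε * m y := by
    intro y hy
    have hyc : ℓ y = c := (h2 y (hs hy)).1 hy
    simp only [LinearMap.add_apply, LinearMap.smul_apply, smul_eq_mul, hyc]
  refine ⟨hs'.trans hs, ℓ + ε • m, c + ε * c', fun x hx => ?_, fun x hx => ?_⟩
  · by_cases hxF : x ∈ F
    · rw [h5 x hxF]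
      have := mul_le_mul_of_nonneg_left (h1' x hxF) hε.le
      linarith
    · have h6 := h4 x hx hxF a ha
      rw [h5 a ha] at h6
      have := mul_le_mul_of_nonneg_left (h1' a ha) hε.le
      linarith
  · by_cases hxF : x ∈ F
    · rw [h2' x hxF, h5 x hxF]
      constructor
      · intro he; rw [he]
      · intro he
        have : ε * m x = ε * c' := by linarith
        exact mul_left_cancel₀ hε.ne' this
    · constructor
      · intro hx'; exact absurd (hs' hx') hxF
      · intro he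
        exfalso
        have h6 := h4 x hx hxF a ha
        rw [h5 a ha] at h6
        have := mul_le_mul_of_nonneg_left (h1' a ha) hε.le
        linarith

theorem IsFace.inter [DecidableEq E] {S F F' : Finset E} (h : IsFace S F) (h' : IsFace S F') :
    IsFace S (F ∩ F') := by
  obtain ⟨hs, ℓ, c, h1, h2⟩ := h
  obtain ⟨hs', m, c', h1', h2'⟩ := h'
  refine ⟨Finset.inter_subset_left.trans hs, ℓ + m, c + c', fun x hx => ?_, fun x hx => ?_⟩
  · have := h1 x hx
    have := h1' x hx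
    simp only [LinearMap.add_apply]
    linarith
  · have q1 := h1 x hx
    have q2 := h1' x hx
    rw [Finset.mem_inter, h2 x hx, h2' x hx]
    simp only [LinearMap.add_apply]
    constructor
    · rintro ⟨e1, e2⟩; rw [e1, e2]
    · intro e; constructor <;> linarith

theorem IsFace.restrict {S F T : Finset E} (h : IsFace S F) (hFT : F ⊆ T) (hTS : T ⊆ S) :
    IsFace T F := by
  obtain ⟨hs, ℓ, c, h1, h2⟩ := h
  exact ⟨hFT, ℓ, c, fun x hx => h1 x (hTS hx), fun x hx => h2 x (hTS hx)⟩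

/-- The graph of a face is the induced subgraph. -/
theorem IsFace.adj_iff {S F : Finset E} (h : IsFace S F) {a b : E} (ha : a ∈ F) (hb : b ∈ F) :
    (PG F).Adj a b ↔ (PG S).Adj a b := by
  obtain ⟨hs, ℓ, c, h1, h2⟩ := h
  constructor
  · rintro ⟨-, -, hab, m, h3, h4⟩
    obtain ⟨ε, hε, h5⟩ := exists_eps S ℓ m
    have hac : ℓ a = c := (h2 a (hs ha)).1 ha
    have hbc : ℓ b = c := (h2 b (hs hb)).1 hb
    refine ⟨hs ha, hs hb, hab, ℓ + ε • m, ?_, fun x hx => ?_⟩
    · simp only [LinearMap.add_apply, LinearMap.smul_apply, smul_eq_mul, hac, hbc, h3]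
    · by_cases hxF : x ∈ F
      · have hxc : ℓ x = c := (h2 x hx).1 hxF
        have e : (ℓ + ε • m) x - (ℓ + ε • m) a = ε * (m x - m a) := by
          simp only [LinearMap.add_apply, LinearMap.smul_apply, smul_eq_mul, hac, hxc]
          ring
        constructor
        · have := mul_nonpos_of_nonneg_of_nonpos hε.le (sub_nonpos.2 (h4 x hxF).1)
          linarith
        · intro he
          rw [he, sub_self] at e
          refine (h4 x hxF).2 ?_
          rcases mul_eq_zero.1 e.symm with h | h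
          · exact absurd h hε.ne'
          · exact sub_eq_zero.1 h
      · have h6 : ℓ x < ℓ a := by
          rw [hac]
          exact lt_of_le_of_ne (h1 x hx) fun he => hxF ((h2 x hx).2 he)
        have h7 := h5 x hx a (hs ha) h6
        exact ⟨h7.le, fun he => absurd he h7.ne⟩
  · rintro ⟨-, -, hab, m, h3, h4⟩
    exact ⟨ha, hb, hab, m, h3, fun x hx => h4 x (hs hx)⟩

/-- A walk in the graph of a face is a walk in the graph of the polytope. -/
theorem IsFace.le {S F : Finset E} (h : IsFace S F) : PG F ≤ PG S := by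
  intro a b hab
  exact (h.adj_iff hab.1 hab.2.1).1 hab

/-- The vertices outside a face induce a connected subgraph. -/
theorem IsFace.connIn_compl {S F : Finset E} (hS : CP S) (h : IsFace S F) :
    ConnIn (PG S) {x | x ∈ S ∧ x ∉ F} := by
  obtain ⟨hs, ℓ, c, h1, h2⟩ := h
  have h3 : {x | x ∈ S ∧ x ∉ F} = {x | x ∈ S ∧ ℓ x < c} := by
    ext x
    simp only [Set.mem_ofPred_eq]
    constructor
    · rintro ⟨hx, hxF⟩
      exact ⟨hx, lt_of_le_of_ne (h1 x hx) fun he => hxF ((h2 x hx).2 he)⟩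
    · rintro ⟨hx, hlt⟩
      exact ⟨hx, fun hxF => hlt.ne ((h2 x hx).1 hxF)⟩
  rw [h3]
  exact connIn_lt hS ℓ c

/-- A vertex of a proper face has a neighbour outside the face. -/
theorem IsFace.exists_adj_compl {S F : Finset E} (hS : CP S) (h : IsFace S F) {v x : E}
    (hv : v ∈ F) (hx : x ∈ S) (hxF : x ∉ F) : ∃ w, (PG S).Adj v w ∧ w ∉ F := by
  obtain ⟨hs, ℓ, c, h1, h2⟩ := h
  have hvc : ℓ v = c := (h2 v (hs hv)).1 hv
  have h3 : ℓ x < ℓ v := by
    rw [hvc]
    exact lt_of_le_of_ne (h1 x hx) fun he => hxF ((h2 x hx).2 he)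
  obtain ⟨w, h4, h5⟩ := exists_adj_lt hS (hs hv) hx ℓ h3
  refine ⟨w, h4, fun hw => ?_⟩
  have : ℓ w = c := (h2 w h4.2.1).1 hw
  rw [this, hvc] at h5
  exact lt_irrefl _ h5

end Poly

end Pool.Agent.P6
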