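import Pool.Agent.P6.Defs

set_option autoImplicit false

/-!
Menger's theorem for directed graphs (relations with finitely many pairs), vertex version.
-/

namespace Pool.Agent.P6

section DW

variable {V : Type}

/-- `l` is the list of the vertices of a directed walk from `a` to `b`. -/
inductive DW (r : V → V → Prop) : V → V → List V → Prop
  | nil (a : V) : DW r a a [a]
  | cons {a b c : V} {l : List V} (h : r a c) (h' : DW r c b l) : DW r a b (a :: l)

/-- `b` can be reached from `a` inside `U`. -/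
def DJ (r : V → V → Prop) (U : Set V) (a b : V) : Prop :=
  ∃ l, DW r a b l ∧ ∀ z ∈ l, z ∈ U

variable {r r' : V → V → Prop} {a b c : V} {l l' : List V} {U W : Set V}

theorem DW.start_mem (h : DW r a b l) : a ∈ l := by
  cases h <;> simp

theorem DW.end_mem (h : DW r a b l) : b ∈ l := by
  induction h with
  | nil => simp
  | cons _ _ ih => exact List.mem_cons_of_mem _ ih

theorem DW.mono (h : DW r a b l) (hr : ∀ x y, r x y → r' x y) : DW r' a b l := by
  induction h with
  | nil a => exact DW.nil a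
  | cons h _ ih => exact DW.cons (hr _ _ h) ih

/-- concatenation -/
theorem DW.trans (h : DW r a b l) (h' : DW r b c l') :
    ∃ m, DW r a c m ∧ ∀ z ∈ m, z ∈ l ∨ z ∈ l' := by
  induction h with
  | nil a => exact ⟨l', h', fun z hz => Or.inr hz⟩
  | @cons a b d l h _ ih =>
    obtain ⟨m, hm, hz⟩ := ih h'
    refine ⟨a :: m, DW.cons h hm, fun z hzm => ?_⟩
    rcases List.mem_cons.1 hzm with rfl | hzm
    · exact Or.inl (List.mem_cons_self)
    · rcases hz z hzm with h | h
      · exact Or.inl (List.mem_cons_of_mem _ h)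
      · exact Or.inr h

/-- reversed walks -/
theorem DW.reverse (h : DW r a b l) : DW (fun x y => r y x) b a l.reverse := by
  induction h with
  | nil a => exact DW.nil a
  | @cons a b c l h _ ih =>
    rw [List.reverse_cons]
    clear * - h ih
    generalize l.reverse = m at ih
    induction ih with
    | nil c => exact DW.cons h (DW.nil a)
    | @cons b c d m h' _ ih' => exact DW.cons h' (ih' h)

/-- the part of a walk up to the first visit of `z` -/
theorem DW.takeUntil (h : DW r a b l) {z : V} (hz : z ∈ l) :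
    ∃ m, DW r a z m ∧ (∃ m', l = m ++ m') ∧ ∀ w ∈ m.dropLast, w ≠ z := by
  classical
  induction h with
  | nil a =>
    rw [List.mem_singleton] at hz
    subst hz
    exact ⟨[z], DW.nil z, ⟨[], by simp⟩, by simp⟩
  | @cons a b c l h h' ih =>
    by_cases hza : z = a
    · subst hza
      exact ⟨[z], DW.nil z, ⟨l, rfl⟩, by simp⟩
    · obtain ⟨m, hm, ⟨m', hm'⟩, hw⟩ := ih ((List.mem_cons.1 hz).resolve_left hza)
      refine ⟨a :: m, DW.cons h hm, ⟨m', by rw [hm', List.cons_append]⟩, fun w hwm => ?_⟩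
      have hmne : m ≠ [] := by
        rintro rfl
        exact absurd hm.start_mem (by simp)
      rw [List.dropLast_cons_of_ne_nil hmne] at hwm
      rcases List.mem_cons.1 hwm with rfl | hwm
      · exact Ne.symm hza
      · exact hw w hwm

/-- the part of a walk after a visit of `z` -/
theorem DW.dropUntil (h : DW r a b l) {z : V} (hz : z ∈ l) :
    ∃ m, DW r z b m ∧ ∃ m', l = m' ++ m := by
  induction h with
  | nil a =>
    rw [List.mem_singleton] at hz
    subst hz
    exact ⟨[z], DW.nil z, [], rfl⟩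
  | @cons a b c l h h' ih =>
    rcases List.mem_cons.1 hz with rfl | hz
    · exact ⟨z :: l, DW.cons h h', [], rfl⟩
    · obtain ⟨m, hm, m', hm'⟩ := ih hz
      exact ⟨m, hm, a :: m', by rw [hm', List.cons_append]⟩

/-- the end of a path does not lie on its proper initial parts -/
theorem DW.take_notMem (h : DW r a b l) (hnd : l.Nodup) {z : V} (hz : z ∈ l) (hzb : z ≠ b) :
    ∃ m, DW r a z m ∧ (∀ w ∈ m, w ∈ l) ∧ b ∉ m := by
  classical
  induction h with
  | nil a =>
    rw [List.mem_singleton] at hz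
    exact absurd hz hzb
  | @cons a b c l h h' ih =>
    rw [List.nodup_cons] at hnd
    have hba : b ≠ a := by
      rintro rfl
      exact hnd.1 h'.end_mem
    by_cases hza : z = a
    · subst hza
      exact ⟨[z], DW.nil z, by simp, by simpa using hba⟩
    · obtain ⟨m, hm, hml, hbm⟩ := ih hnd.2 ((List.mem_cons.1 hz).resolve_left hza) hzb
      refine ⟨a :: m, DW.cons h hm, fun w hw => ?_, ?_⟩
      · rcases List.mem_cons.1 hw with rfl | hw
        · exact List.mem_cons_self
        · exact List.mem_cons_of_mem _ (hml w hw)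
      · rw [List.mem_cons, not_or]
        exact ⟨hba, hbm⟩

/-- the start of a path does not lie on its proper final parts -/
theorem DW.drop_notMem (h : DW r a b l) (hnd : l.Nodup) {z : V} (hz : z ∈ l) (hza : z ≠ a) :
    ∃ m, DW r z b m ∧ (∀ w ∈ m, w ∈ l) ∧ a ∉ m := by
  cases h with
  | nil =>
    rw [List.mem_singleton] at hz
    exact absurd hz hza
  | @cons _ _ c l h h' =>
    rw [List.nodup_cons] at hnd
    obtain ⟨m, hm, m', rfl⟩ := h'.dropUntil ((List.mem_cons.1 hz).resolve_left hza)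
    exact ⟨m, hm, fun w hw => List.mem_cons_of_mem _ (List.mem_append_right _ hw), fun ham =>
      hnd.1 (List.mem_append_right _ ham)⟩

/-- a walk contains a path -/
theorem DW.bypass (h : DW r a b l) : ∃ m, DW r a b m ∧ m.Nodup ∧ ∀ z ∈ m, z ∈ l := by
  classical
  induction h with
  | nil a => exact ⟨[a], DW.nil a, by simp, by simp⟩
  | @cons a b c l h h' ih =>
    obtain ⟨m, hm, hnd, hml⟩ := ih
    by_cases ham : a ∈ m
    · obtain ⟨m1, hm1, m', rfl⟩ := hm.dropUntil ham
      refine ⟨m1, hm1, (List.nodup_append.1 hnd).2.1, fun z hz =>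
        List.mem_cons_of_mem _ (hml z (List.mem_append_right _ hz))⟩
    · exact ⟨a :: m, DW.cons h hm, List.nodup_cons.2 ⟨ham, hnd⟩, fun z hz => by
        rcases List.mem_cons.1 hz with rfl | hz
        · exact List.mem_cons_self
        · exact List.mem_cons_of_mem _ (hml z hz)⟩

theorem DJ.refl (ha : a ∈ U) : DJ r U a a := ⟨[a], DW.nil a, by simpa using ha⟩

theorem DJ.trans (h : DJ r U a b) (h' : DJ r U b c) : DJ r U a c := by
  obtain ⟨l, hl, hU⟩ := h
  obtain ⟨l', hl', hU'⟩ := h'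
  obtain ⟨m, hm, hz⟩ := hl.trans hl'
  exact ⟨m, hm, fun z hzm => (hz z hzm).elim (hU z) (hU' z)⟩

theorem DJ.mono (h : DJ r U a b) (hU : U ⊆ W) : DJ r W a b := by
  obtain ⟨l, hl, hz⟩ := h
  exact ⟨l, hl, fun z hzl => hU (hz z hzl)⟩

theorem DJ.mono_rel (h : DJ r U a b) (hr : ∀ x y, r x y → r' x y) : DJ r' U a b := by
  obtain ⟨l, hl, hz⟩ := h
  exact ⟨l, hl.mono hr, hz⟩

theorem DJ.cons (h : r a c) (ha : a ∈ U) (h' : DJ r U c b) : DJ r U a b := by
  obtain ⟨l, hl, hz⟩ := h'
  refine ⟨a :: l, DW.cons h hl, fun z hzl => ?_⟩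
  rcases List.mem_cons.1 hzl with rfl | hzl
  · exact ha
  · exact hz z hzl

theorem DJ.left_mem (h : DJ r U a b) : a ∈ U := by
  obtain ⟨l, hl, hz⟩ := h
  exact hz a hl.start_mem

theorem DJ.right_mem (h : DJ r U a b) : b ∈ U := by
  obtain ⟨l, hl, hz⟩ := h
  exact hz b hl.end_mem

theorem DJ.reverse (h : DJ r U a b) : DJ (fun x y => r y x) U b a := by
  obtain ⟨l, hl, hz⟩ := h
  exact ⟨l.reverse, hl.reverse, fun z hzl => hz z (List.mem_reverse.1 hzl)⟩

/-- A walk inside `U` avoids `S` or reaches a point of `S`. -/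
theorem DJ.exit (h : DJ r U a b) (S : Set V) : DJ r (U ∩ Sᶜ) a b ∨ ∃ z ∈ S, DJ r U a z := by
  classical
  obtain ⟨l, hl, hU⟩ := h
  by_cases hS : ∃ z ∈ l, z ∈ S
  · obtain ⟨z, hz, hzS⟩ := hS
    obtain ⟨m, hm, ⟨m', rfl⟩, -⟩ := hl.takeUntil hz
    exact Or.inr ⟨z, hzS, m, hm, fun w hw => hU w (List.mem_append_left _ hw)⟩
  · push Not at hS
    exact Or.inl ⟨l, hl, fun z hz => ⟨hU z hz, hS z hz⟩⟩

/-- Walks and one edge. -/
theorem DJ.edge (x y : V) (h : DJ r U a b) :
    DJ (fun u v => r u v ∧ (u, v) ≠ (x, y)) U a b ∨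
      (DJ (fun u v => r u v ∧ (u, v) ≠ (x, y)) U a x ∧
        DJ (fun u v => r u v ∧ (u, v) ≠ (x, y)) U y b) := by
  classical
  obtain ⟨l, hl, hU⟩ := h
  induction hl with
  | nil a => exact Or.inl (DJ.refl (hU _ (by simp)))
  | @cons a b c l hac h' ih =>
    have ha : a ∈ U := hU a (by simp)
    have ih' := ih fun z hz => hU z (List.mem_cons_of_mem _ hz)
    by_cases he : (a, c) = (x, y)
    · obtain ⟨rfl, rfl⟩ := Prod.mk.inj he
      rcases ih' with h1 | ⟨h1, h2⟩
      · exact Or.inr ⟨DJ.refl ha, h1⟩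
      · exact Or.inr ⟨DJ.refl ha, h2⟩
    · rcases ih' with h1 | ⟨h1, h2⟩
      · exact Or.inl (DJ.cons ⟨hac, he⟩ ha h1)
      · exact Or.inr ⟨DJ.cons ⟨hac, he⟩ ha h1, h2⟩

end DW

section Menger

variable {V : Type}

/-- There are `k` disjoint directed paths from `A` to `B`. -/
def DLk (r : V → V → Prop) (A B : Set V) (k : ℕ) : Prop :=
  ∃ (a b : Fin k → V) (p : Fin k → List V),
    (∀ i, a i ∈ A ∧ b i ∈ B ∧ DW r (a i) (b i) (p i) ∧ (p i).Nodup) ∧
    ∀ i j, i ≠ j → (p i).Disjoint (p j)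

/-- No set of fewer than `k` vertices separates `A` from `B`. -/
def DNoSep (r : V → V → Prop) (A B : Set V) (k : ℕ) : Prop :=
  ∀ T : Finset V, T.card < k → ∃ a ∈ A, ∃ b ∈ B, DJ r (T : Set V)ᶜ a b

theorem DNoSep.reverse {r : V → V → Prop} {A B : Set V} {k : ℕ} (h : DNoSep r A B k) :
    DNoSep (fun x y => r y x) B A k := by
  intro T hT
  obtain ⟨a, ha, b, hb, hab⟩ := h T hT
  exact ⟨b, hb, a, ha, hab.reverse⟩

/-- Disjoint paths that end in a set of the same cardinality. -/
theorem DLk.reindex {r : V → V → Prop} {A : Set V} {T : Finset V} {k : ℕ} (hk : T.card = k)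
    (h : DLk r A (T : Set V) k) :
    ∃ (a : V → V) (p : V → List V), (∀ t ∈ T, a t ∈ A ∧ DW r (a t) t (p t) ∧ (p t).Nodup) ∧
      ∀ t ∈ T, ∀ t' ∈ T, t ≠ t' → (p t).Disjoint (p t') := by
  classical
  subst hk
  obtain ⟨a, b, p, h1, h2⟩ := h
  have hinj : Function.Injective b := by
    intro i j hij
    by_contra hne
    refine h2 i j hne (h1 i).2.2.1.end_mem ?_
    rw [hij]
    exact (h1 j).2.2.1.end_mem
  have hsurj : ∀ t ∈ T, ∃ i, b i = t := by
    intro t ht
    have h3 : Finset.univ.image b = T := by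
      apply Finset.eq_of_subset_of_card_le
      · intro t ht
        obtain ⟨i, -, rfl⟩ := Finset.mem_image.1 ht
        exact (h1 i).2.1
      · rw [Finset.card_image_of_injective _ hinj, Finset.card_univ, Fintype.card_fin]
    rw [← h3] at ht
    obtain ⟨i, -, hi⟩ := Finset.mem_image.1 ht
    exact ⟨i, hi⟩
  have hex : ∀ t : V, ∃ (a' : V) (q : List V), t ∈ T →
      a' ∈ A ∧ DW r a' t q ∧ q.Nodup ∧ ∃ i, b i = t ∧ q = p i := by
    intro t
    by_cases ht : t ∈ T
    · obtain ⟨i, rfl⟩ := hsurj t ht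
      exact ⟨a i, p i, fun _ => ⟨(h1 i).1, (h1 i).2.2.1, (h1 i).2.2.2, i, rfl, rfl⟩⟩
    · exact ⟨t, [], fun h => absurd h ht⟩
  choose a' q hq using hex
  refine ⟨a', q, fun t ht => ⟨(hq t ht).1, (hq t ht).2.1, (hq t ht).2.2.1⟩, fun t ht t' ht' hne => ?_⟩
  obtain ⟨-, -, -, i, hi, hqi⟩ := hq t ht
  obtain ⟨-, -, -, j, hj, hqj⟩ := hq t' ht'
  rw [hqi, hqj]
  refine h2 i j ?_
  rintro rfl
  exact hne (hi.symm.trans hj)

theorem DLk.reverse {r : V → V → Prop} {A B : Set V} {k : ℕ} (h : DLk r A B k) :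
    DLk (fun x y => r y x) B A k := by
  obtain ⟨a, b, p, h1, h2⟩ := h
  exact ⟨b, a, fun i => (p i).reverse, fun i => ⟨(h1 i).2.1, (h1 i).1, (h1 i).2.2.1.reverse,
    List.nodup_reverse.2 (h1 i).2.2.2⟩, fun i j hij z hz hz' =>
      h2 i j hij (List.mem_reverse.1 hz) (List.mem_reverse.1 hz')⟩

/-- One half of the graph. -/
theorem dsep_aux {r : V → V → Prop} {A B : Set V} {k : ℕ} {x y : V} {S : Finset V}
    (h : DNoSep r A B k)
    (hS : ∀ a ∈ A, ∀ b ∈ B, ¬ DJ (fun u v => r u v ∧ (u, v) ≠ (x, y)) (S : Set V)ᶜ a b) :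
    DNoSep (fun u v => r u v ∧ (u, v) ≠ (x, y)) A (insert x (S : Set V)) k := by
  intro T hT
  obtain ⟨a, ha, b, hb, hab⟩ := h T hT
  rcases hab.edge x y with h1 | ⟨h1, -⟩
  · rcases h1.exit (S : Set V) with h2 | ⟨z, hz, h2⟩
    · exact absurd (h2.mono Set.inter_subset_right) (hS a ha b hb)
    · exact ⟨a, ha, z, Set.mem_insert_of_mem _ hz, h2⟩
  · exact ⟨a, ha, x, Set.mem_insert _ _, h1⟩

theorem card_insert_of_dnoSep [DecidableEq V] {r : V → V → Prop} {A : Set V} {k : ℕ} {x : V}
    {S : Finset V} (hS : S.card < k) (h : DNoSep r A (insert x (S : Set V)) k) :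
    (insert x S).card = k ∧ x ∉ S := by
  have h1 : k ≤ (insert x S).card := by
    by_contra hlt
    push Not at hlt
    obtain ⟨a, -, b, hb, hab⟩ := h _ hlt
    have := hab.right_mem
    apply this
    rw [Finset.coe_insert]
    exact hb
  have h2 : x ∉ S := by
    intro hx
    rw [Finset.insert_eq_of_mem hx] at h1
    omega
  rw [Finset.card_insert_of_notMem h2] at h1 ⊢
  exact ⟨by omega, h2⟩

/-- Combination of the paths of the two halves. -/
theorem dcombine [DecidableEq V] {r r' : V → V → Prop} (hle : ∀ u v, r' u v → r u v) {A B : Set V}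
    {x y : V} (hxy : r x y) {S : Finset V} (hyS : y ∉ S) {k : ℕ}
    (hk1 : (insert x S).card = k) (hk2 : (insert y S).card = k)
    (hS : ∀ a ∈ A, ∀ b ∈ B, ¬ DJ r' (S : Set V)ᶜ a b)
    (h1 : DLk r' A ((insert x S : Finset V) : Set V) k)
    (h2 : DLk (fun u v => r' v u) B ((insert y S : Finset V) : Set V) k) : DLk r A B k := by
  obtain ⟨a, p, hp, hpd⟩ := h1.reindex hk1
  obtain ⟨b, q, hq, hqd⟩ := h2.reindex hk2
  -- the part of a path before its end avoids `S`
  have key : ∀ (C : Set V) (w : V) (ρ : V → V → Prop) (c : V → V) (m : V → List V),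
      (∀ t ∈ insert w S, c t ∈ C ∧ DW ρ (c t) t (m t) ∧ (m t).Nodup) →
      (∀ t ∈ insert w S, ∀ t' ∈ insert w S, t ≠ t' → (m t).Disjoint (m t')) →
      ∀ t ∈ insert w S, ∀ z ∈ m t, z ∉ S → DJ ρ (S : Set V)ᶜ (c t) z := by
    intro C w ρ c m hm hmd t ht z hz hzS
    by_cases hzt : z = t
    · -- the whole path
      subst hzt
      refine ⟨m z, (hm z ht).2.1, fun u hu => ?_⟩
      intro huS
      have huS' : u ∈ S := huS
      have hut : u = z := by
        by_contra hne
        exact hmd u (Finset.mem_insert_of_mem huS') z ht hne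
          (hm u (Finset.mem_insert_of_mem huS')).2.1.end_mem hu
      rw [hut] at huS'
      exact hzS huS'
    · obtain ⟨m1, hm1, hml, htm⟩ := (hm t ht).2.1.take_notMem (hm t ht).2.2 hz hzt
      refine ⟨m1, hm1, fun u hu => ?_⟩
      intro huS
      have huS' : u ∈ S := huS
      have hut : u = t := by
        by_contra hne
        exact hmd u (Finset.mem_insert_of_mem huS') t ht hne
          (hm u (Finset.mem_insert_of_mem huS')).2.1.end_mem (hml u hu)
      rw [hut] at hu
      exact htm hu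
  have cross : ∀ t ∈ insert x S, ∀ t' ∈ insert y S, ∀ z, z ∈ p t → z ∈ q t' →
      z ∈ S ∧ z = t ∧ z = t' := by
    intro t ht t' ht' z hz hz'
    have hzS : z ∈ S := by
      by_contra hzS
      have e1 := key A x r' a p hp hpd t ht z hz hzS
      have e2 := (key B y (fun u v => r' v u) b q hq hqd t' ht' z hz' hzS).reverse
      exact hS _ (hp t ht).1 _ (hq t' ht').1 (e1.trans e2)
    refine ⟨hzS, ?_, ?_⟩
    · by_contra hne
      exact hpd z (Finset.mem_insert_of_mem hzS) t ht hne
        (hp z (Finset.mem_insert_of_mem hzS)).2.1.end_mem hz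
    · by_contra hne
      exact hqd z (Finset.mem_insert_of_mem hzS) t' ht' hne
        (hq z (Finset.mem_insert_of_mem hzS)).2.1.end_mem hz'
  let σ : V → V := fun t => if t = x then y else t
  have hσ : ∀ t ∈ insert x S, σ t ∈ insert y S := by
    intro t ht
    simp only [σ]
    split_ifs with h
    · exact Finset.mem_insert_self _ _
    · exact Finset.mem_insert_of_mem ((Finset.mem_insert.1 ht).resolve_left h)
  have hσinj : ∀ t ∈ insert x S, ∀ t' ∈ insert x S, σ t = σ t' → t = t' := by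
    intro t ht t' ht' h
    simp only [σ] at h
    split_ifs at h with h3 h4 h4
    · rw [h3, h4]
    · exfalso
      apply hyS
      rw [h]
      exact (Finset.mem_insert.1 ht').resolve_left h4
    · exfalso
      apply hyS
      rw [← h]
      exact (Finset.mem_insert.1 ht).resolve_left h3
    · exact h
  have hσS : ∀ t ∈ insert x S, σ t ∈ S → σ t = t := by
    intro t _ h
    simp only [σ] at h ⊢
    split_ifs at h ⊢ with h3
    · exact absurd h hyS
    · rfl
  have hex : ∀ t : V, ∃ m : List V, t ∈ insert x S →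
      DW r (a t) (b (σ t)) m ∧ m.Nodup ∧ ∀ z ∈ m, z ∈ p t ∨ z ∈ q (σ t) := by
    intro t
    by_cases ht : t ∈ insert x S
    · have h3 := (hp t ht).2.1.mono hle
      have h4 := ((hq (σ t) (hσ t ht)).2.1.reverse).mono (r' := r) (fun u v h => hle _ _ h)
      by_cases h : t = x
      · have e : σ t = y := by simp [σ, h]
        rw [e] at h4 ⊢
        rw [h] at h3 ⊢
        obtain ⟨m, hm, hz⟩ := h3.trans (DW.cons hxy h4)
        obtain ⟨m', hm', hnd, hz'⟩ := hm.bypass
        refine ⟨m', fun _ => ⟨hm', hnd, fun z hzm => ?_⟩⟩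
        rcases hz z (hz' z hzm) with h5 | h5
        · exact Or.inl h5
        · rcases List.mem_cons.1 h5 with rfl | h5
          · exact Or.inl h3.end_mem
          · exact Or.inr (List.mem_reverse.1 h5)
      · have e : σ t = t := by simp [σ, h]
        rw [e] at h4 ⊢
        obtain ⟨m, hm, hz⟩ := h3.trans h4
        obtain ⟨m', hm', hnd, hz'⟩ := hm.bypass
        refine ⟨m', fun _ => ⟨hm', hnd, fun z hzm => ?_⟩⟩
        rcases hz z (hz' z hzm) with h5 | h5
        · exact Or.inl h5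
        · exact Or.inr (List.mem_reverse.1 h5)
    · exact ⟨[], fun h => absurd h ht⟩
  choose m hm using hex
  have e := (insert x S).equivFinOfCardEq hk1
  refine ⟨fun i => a (e.symm i), fun i => b (σ (e.symm i)), fun i => m (e.symm i),
    fun i => ⟨(hp _ (e.symm i).2).1, (hq _ (hσ _ (e.symm i).2)).1, (hm _ (e.symm i).2).1,
      (hm _ (e.symm i).2).2.1⟩, fun i j hij => ?_⟩
  have hne : (e.symm i : V) ≠ e.symm j := fun h => hij (e.symm.injective (Subtype.ext h))
  intro z hz hz'
  have hz1 := (hm _ (e.symm i).2).2.2 z hz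
  have hz2 := (hm _ (e.symm j).2).2.2 z hz'
  rcases hz1 with hz1 | hz1 <;> rcases hz2 with hz2 | hz2
  · exact hpd _ (e.symm i).2 _ (e.symm j).2 hne hz1 hz2
  · obtain ⟨k1, k2, k3⟩ := cross _ (e.symm i).2 _ (hσ _ (e.symm j).2) z hz1 hz2
    rw [k3] at k1
    have := hσS _ (e.symm j).2 k1
    exact hne (k2.symm.trans (k3.trans this))
  · obtain ⟨k1, k2, k3⟩ := cross _ (e.symm j).2 _ (hσ _ (e.symm i).2) z hz2 hz1
    rw [k3] at k1
    have := hσS _ (e.symm i).2 k1
    exact hne (this.symm.trans (k3.symm.trans k2))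
  · refine hqd _ (hσ _ (e.symm i).2) _ (hσ _ (e.symm j).2) ?_ hz1 hz2
    intro h
    exact hne (hσinj _ (e.symm i).2 _ (e.symm j).2 h)

theorem dmenger_aux (n : ℕ) : ∀ (r : V → V → Prop), {e : V × V | r e.1 e.2}.Finite →
    {e : V × V | r e.1 e.2}.ncard = n →
    ∀ (A B : Set V) (k : ℕ), DNoSep r A B k → DLk r A B k := by
  classical
  induction n with
  | zero =>
    intro r hfin hn A B k h
    have hr : ∀ x y, ¬ r x y := by
      intro x y hxy
      have h1 := (Set.ncard_eq_zero hfin).1 hn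
      have : (x, y) ∈ {e : V × V | r e.1 e.2} := hxy
      rw [h1] at this
      exact this
    have hbot : ∀ (U : Set V) (a b : V), DJ r U a b → a = b := by
      rintro U a b ⟨l, hl, -⟩
      cases hl with
      | nil => rfl
      | cons h _ => exact absurd h (hr _ _)
    have hex : ∃ T : Finset V, (T : Set V) ⊆ A ∩ B ∧ T.card = k := by
      by_cases hAB : (A ∩ B).Finite
      · have h1 : k ≤ hAB.toFinset.card := by
          by_contra hlt
          push Not at hlt
          obtain ⟨a, ha, b, hb, hab⟩ := h _ hlt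
          have := hbot _ _ _ hab
          subst this
          apply hab.left_mem
          simpa using ⟨ha, hb⟩
        obtain ⟨T, hT, hTk⟩ := Finset.exists_subset_card_eq h1
        exact ⟨T, fun z hz => hAB.mem_toFinset.1 (hT hz), hTk⟩
      · obtain ⟨T, hT, hTk⟩ := Set.Infinite.exists_subset_card_eq hAB k
        exact ⟨T, hT, hTk⟩
    obtain ⟨T, hT, rfl⟩ := hex
    refine ⟨fun i => (T.equivFin.symm i : V), fun i => (T.equivFin.symm i : V),
      fun i => [(T.equivFin.symm i : V)], fun i => ⟨(hT (T.equivFin.symm i).2).1,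
        (hT (T.equivFin.symm i).2).2, DW.nil _, by simp⟩, fun i j hij => ?_⟩
    intro z hz hz'
    rw [List.mem_singleton] at hz hz'
    apply hij
    apply T.equivFin.symm.injective
    exact Subtype.ext (hz.symm.trans hz')
  | succ n ih =>
    intro r hfin hn A B k h
    obtain ⟨e, he⟩ : ∃ e : V × V, r e.1 e.2 := by
      by_contra hno
      push Not at hno
      have : {e : V × V | r e.1 e.2} = ∅ := Set.eq_empty_of_forall_notMem fun e he => hno e he
      rw [this, Set.ncard_empty] at hn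
      omega
    obtain ⟨x, y⟩ := e
    have hxy : r x y := he
    set r' : V → V → Prop := fun u v => r u v ∧ (u, v) ≠ (x, y) with hr'
    have hE : {e : V × V | r' e.1 e.2} = {e : V × V | r e.1 e.2} \ {(x, y)} := by
      ext e
      simp only [hr', Set.mem_sdiff, Set.mem_ofPred_eq, Set.mem_singleton_iff]
    have hfin' : {e : V × V | r' e.1 e.2}.Finite := by
      rw [hE]
      exact hfin.subset Set.sdiff_subset
    have hn' : {e : V × V | r' e.1 e.2}.ncard = n := by
      have hmem : (x, y) ∈ {e : V × V | r e.1 e.2} := hxy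
      rw [hE, Set.ncard_sdiff_singleton_of_mem hmem, hn]
      omega
    have hrev : ∀ s : V → V → Prop, {e : V × V | s e.2 e.1} = Prod.swap '' {e : V × V | s e.1 e.2} := by
      intro s
      ext e
      constructor
      · intro h
        exact ⟨(e.2, e.1), h, rfl⟩
      · rintro ⟨f, hf, rfl⟩
        exact hf
    by_cases hsep : DNoSep r' A B k
    · obtain ⟨a, b, p, h1, h2⟩ := ih r' hfin' hn' A B k hsep
      exact ⟨a, b, p, fun i => ⟨(h1 i).1, (h1 i).2.1, (h1 i).2.2.1.mono fun _ _ h => h.1,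
        (h1 i).2.2.2⟩, h2⟩
    · unfold DNoSep at hsep
      push Not at hsep
      obtain ⟨S, hSk, hS⟩ := hsep
      have n1 : DNoSep r' A (insert x (S : Set V)) k := dsep_aux h hS
      have n2 : DNoSep (fun u v => r' v u) B (insert y (S : Set V)) k := by
        have h3 := dsep_aux (x := y) (y := x) (S := S) h.reverse (by
          intro b hb a ha hab
          refine hS a ha b hb (hab.reverse.mono_rel ?_)
          intro u v huv
          refine ⟨huv.1, fun h => huv.2 ?_⟩
          rw [Prod.mk.injEq] at h ⊢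
          exact ⟨h.2, h.1⟩)
        intro T hT
        obtain ⟨b, hb, z, hz, hbz⟩ := h3 T hT
        refine ⟨b, hb, z, hz, hbz.mono_rel ?_⟩
        intro u v huv
        refine ⟨huv.1, fun h => huv.2 ?_⟩
        rw [Prod.mk.injEq] at h ⊢
        exact ⟨h.2, h.1⟩
      obtain ⟨c1, -⟩ := card_insert_of_dnoSep hSk n1
      obtain ⟨c2, hyS⟩ := card_insert_of_dnoSep hSk n2
      refine dcombine (r' := r') (fun _ _ h => h.1) hxy hyS c1 c2 hS ?_ ?_
      · rw [Finset.coe_insert]
        exact ih r' hfin' hn' _ _ _ n1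
      · rw [Finset.coe_insert]
        refine ih (fun u v => r' v u) ?_ ?_ _ _ _ n2
        · rw [hrev r']
          exact hfin'.image _
        · rw [hrev r', Set.ncard_image_of_injective _ Prod.swap_injective, hn']

/-- A path from `A` to `B` contains a path that meets `A` only at the start and `B` only at the end. -/
theorem dshorten {r : V → V → Prop} {A B : Set V} (n : ℕ) : ∀ (a b : V) (l : List V),
    l.length = n → DW r a b l → l.Nodup → a ∈ A → b ∈ B → ∃ (a' b' : V) (m : List V),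
      DW r a' b' m ∧ m.Nodup ∧ a' ∈ A ∧ b' ∈ B ∧ (∀ z ∈ m, z ∈ l) ∧
      ∀ z ∈ m, (z ∈ A → z = a') ∧ (z ∈ B → z = b') := by
  classical
  induction n using Nat.strong_induction_on with
  | _ n ih =>
  intro a b l hn hl hnd ha hb
  by_cases h : ∀ z ∈ l, (z ∈ A → z = a) ∧ (z ∈ B → z = b)
  · exact ⟨a, b, l, hl, hnd, ha, hb, fun z hz => hz, h⟩
  · push Not at h
    obtain ⟨z, hz, h⟩ := h
    -- a shorter path
    have step : ∀ (a1 b1 : V) (m : List V) (c : V), DW r a1 b1 m → (∀ w ∈ m, w ∈ l) → c ∈ l → c ∉ m →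
        a1 ∈ A → b1 ∈ B → ∃ (a' b' : V) (m : List V),
      DW r a' b' m ∧ m.Nodup ∧ a' ∈ A ∧ b' ∈ B ∧ (∀ z ∈ m, z ∈ l) ∧
      ∀ z ∈ m, (z ∈ A → z = a') ∧ (z ∈ B → z = b') := by
      intro a1 b1 m c hm hml hcl hcm ha1 hb1
      obtain ⟨m1, hm1, hnd1, hmm⟩ := hm.bypass
      have hlt : m1.length < n := by
        rw [← hn, ← List.toFinset_card_of_nodup hnd1, ← List.toFinset_card_of_nodup hnd]
        refine Finset.card_lt_card ⟨fun w hw => ?_, fun h5 => ?_⟩
        · exact List.mem_toFinset.2 (hml w (hmm w (List.mem_toFinset.1 hw)))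
        · exact hcm (hmm c (List.mem_toFinset.1 (h5 (List.mem_toFinset.2 hcl))))
      obtain ⟨a', b', m2, h1, h2, h3, h4, h5, h6⟩ := ih _ hlt a1 b1 m1 rfl hm1 hnd1 ha1 hb1
      exact ⟨a', b', m2, h1, h2, h3, h4, fun w hw => hml w (hmm w (h5 w hw)), h6⟩
    by_cases h1 : z ∈ A → z = a
    · obtain ⟨h2, h3⟩ := h h1
      obtain ⟨m, hm, hml, hbm⟩ := hl.take_notMem hnd hz h3
      exact step a z m b hm hml hl.end_mem hbm ha h2
    · push Not at h1
      obtain ⟨m, hm, hml, ham⟩ := hl.drop_notMem hnd hz h1.2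
      exact step z b m a hm hml hl.start_mem ham h1.1 hb

/-- Menger's theorem for a directed graph with finitely many edges. -/
theorem dmenger_fin {r : V → V → Prop} (hr : {e : V × V | r e.1 e.2}.Finite) {A B : Set V} {k : ℕ}
    (h : ∀ T : Finset V, T.card < k → ∃ a ∈ A, ∃ b ∈ B, DJ r (T : Set V)ᶜ a b) :
    ∃ (a b : Fin k → V) (l : Fin k → List V),
      (∀ i, a i ∈ A ∧ b i ∈ B ∧ DW r (a i) (b i) (l i) ∧ (l i).Nodup) ∧
      (∀ i, ∀ z ∈ l i, (z ∈ A → z = a i) ∧ (z ∈ B → z = b i)) ∧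
      ∀ i j, i ≠ j → (l i).Disjoint (l j) := by
  obtain ⟨a, b, p, h1, h2⟩ := dmenger_aux _ r hr rfl A B k h
  choose a' b' q h3 h4 h5 h6 h7 h8 using fun i =>
    dshorten _ (a i) (b i) (p i) rfl (h1 i).2.2.1 (h1 i).2.2.2 (h1 i).1 (h1 i).2.1
  exact ⟨a', b', q, fun i => ⟨h5 i, h6 i, h3 i, h4 i⟩, h8, fun i j hij z hz hz' =>
    h2 i j hij (h7 i z hz) (h7 j z hz')⟩

/-- Directed paths from all elements of a finite set `Y` to a set `B`. -/
theorem dmenger_from {r : V → V → Prop} (hr : {e : V × V | r e.1 e.2}.Finite) {Y : Finset V}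
    {B : Set V}
    (h : ∀ T : Finset V, T.card < Y.card → ∃ a ∈ Y, ∃ b ∈ B, DJ r (T : Set V)ᶜ a b) :
    ∃ (n : V → V) (l : V → List V),
      (∀ t ∈ Y, n t ∈ B ∧ DW r t (n t) (l t) ∧ (l t).Nodup) ∧
      (∀ t ∈ Y, ∀ z ∈ l t, (z ∈ Y → z = t) ∧ (z ∈ B → z = n t)) ∧
      ∀ t ∈ Y, ∀ t' ∈ Y, t ≠ t' → (l t).Disjoint (l t') := by
  classical
  obtain ⟨a, b, l, h1, h2, h3⟩ := dmenger_fin hr (A := (Y : Set V)) h
  have hinj : Function.Injective a := by
    intro i j hij
    by_contra hne
    refine h3 i j hne (h1 i).2.2.1.start_mem ?_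
    rw [hij]
    exact (h1 j).2.2.1.start_mem
  have hsurj : ∀ t ∈ Y, ∃ i, a i = t := by
    intro t ht
    have h4 : Finset.univ.image a = Y := by
      apply Finset.eq_of_subset_of_card_le
      · intro t ht
        obtain ⟨i, -, rfl⟩ := Finset.mem_image.1 ht
        exact (h1 i).1
      · rw [Finset.card_image_of_injective _ hinj, Finset.card_univ, Fintype.card_fin]
    rw [← h4] at ht
    obtain ⟨i, -, hi⟩ := Finset.mem_image.1 ht
    exact ⟨i, hi⟩
  have hex : ∀ t : V, ∃ (n : V) (m : List V), t ∈ Y → ∃ i, a i = t ∧ b i = n ∧ l i = m := by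
    intro t
    by_cases ht : t ∈ Y
    · obtain ⟨i, hi⟩ := hsurj t ht
      exact ⟨b i, l i, fun _ => ⟨i, hi, rfl, rfl⟩⟩
    · exact ⟨t, [], fun h => absurd h ht⟩
  choose n m hm using hex
  refine ⟨n, m, fun t ht => ?_, fun t ht => ?_, fun t ht t' ht' hne => ?_⟩
  · obtain ⟨i, rfl, hn, hl⟩ := hm t ht
    rw [← hn, ← hl]
    exact (h1 i).2
  · obtain ⟨i, hi, hn, hl⟩ := hm t ht
    rw [← hn, ← hl]
    intro z hz
    have := h2 i z hz
    exact ⟨fun hzY => (this.1 hzY).trans hi, this.2⟩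
  · obtain ⟨i, hi, -, hl⟩ := hm t ht
    obtain ⟨j, hj, -, hl'⟩ := hm t' ht'
    rw [← hl, ← hl']
    refine h3 i j ?_
    rintro rfl
    exact hne (hi.symm.trans hj)

/-- A directed walk in a graph as a walk. -/
theorem DW.walk {G : SimpleGraph V} {a b : V} {l : List V} (h : DW G.Adj a b l) :
    ∃ p : G.Walk a b, p.support = l := by
  induction h with
  | nil a => exact ⟨SimpleGraph.Walk.nil, rfl⟩
  | cons h _ ih =>
    obtain ⟨p, hp⟩ := ih
    exact ⟨SimpleGraph.Walk.cons h p, by rw [SimpleGraph.Walk.support_cons, hp]⟩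

theorem DW.of_walk {G : SimpleGraph V} {a b : V} (p : G.Walk a b) : DW G.Adj a b p.support := by
  induction p with
  | nil => exact DW.nil _
  | cons h p ih =>
    rw [SimpleGraph.Walk.support_cons]
    exact DW.cons h ih

theorem DJ.joined {G : SimpleGraph V} {r : V → V → Prop} (hr : ∀ x y, r x y → G.Adj x y) {U : Set V}
    {a b : V} (h : DJ r U a b) : Joined G U a b := by
  obtain ⟨l, hl, hU⟩ := h
  obtain ⟨p, rfl⟩ := (hl.mono hr).walk
  exact ⟨p, hU⟩

end Menger

end Pool.Agent.P6
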