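import Pool.Agent.P6.StarDefs
import Pool.Agent.P6.DMengerFrom

set_option autoImplicit false

/-!
The cut argument (Claim 1 of the proof that 6-polytopes are 3-linked): at most four vertices
never meet all directed paths from the five terminals to the corners.
-/

namespace Pool.Agent.P6

section Cut

variable {V : Type} {G : SimpleGraph V} {x : V}

theorem DW.end_of {r : V → V → Prop} {P : V → Prop} (hr : ∀ u v, r u v → P v) {a b : V}
    {l : List V} (h : DW r a b l) (ha : P a) : P b := by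
  induction h with
  | nil a => exact ha
  | cons h1 _ ih => exact ih (hr _ _ h1)

theorem DJ.snoc {r : V → V → Prop} {U : Set V} {a b c : V} (h : DJ r U a b) (hbc : r b c)
    (hc : c ∈ U) : DJ r U a c := by
  refine h.trans ⟨[b, c], DW.cons hbc (DW.nil c), ?_⟩
  intro z hz
  rcases List.mem_cons.1 hz with rfl | hz
  · exact h.right_mem
  · rcases List.mem_cons.1 hz with rfl | hz
    · exact hc
    · simp at hz

theorem Star.right_mem (D : Star G x) {p q : V} (h : D.QA p q) : q ∈ D.arc p q := by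
  rw [← D.arc_symm p q h]
  exact D.left_mem q p (D.qsymm p q h)

/-- walking along an arc -/
theorem Star.walk_arc (D : Star G x) {p q v : V} (h : D.QA p q) (hv : v ∈ D.arc p q)
    (R : V → Prop) (hRv : R v) (hRc : ∀ u, R u → ¬ G.Adj x u) (C : Set V)
    (hstep : ∀ u w, R u → D.Nx u w → w ≠ x → w ∉ C → R w) :
    ∃ c ∈ C, c ∈ D.arc p q ∧ D.th p q v < D.th p q c := by
  by_contra hcon
  push Not at hcon
  have hall : ∀ w ∈ D.arc p q, D.th p q v ≤ D.th p q w → R w := by
    by_contra hne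
    push Not at hne
    obtain ⟨w0, hw0, hw0v, hw0R⟩ := hne
    obtain ⟨w, ⟨⟨hw, hwv⟩, hwR⟩, hmin⟩ := Set.exists_min_image
      {w | (w ∈ D.arc p q ∧ D.th p q v ≤ D.th p q w) ∧ ¬ R w} (D.th p q)
      ((D.arc_finite p q h).subset (fun z hz => hz.1.1)) ⟨w0, ⟨hw0, hw0v⟩, hw0R⟩
    have hvw : D.th p q v < D.th p q w := by
      rcases hwv.lt_or_eq with h1 | h1
      · exact h1
      · have := D.th_inj p q v w h hv hw h1
        subst this
        exact absurd hRv hwR
    obtain ⟨u, ⟨⟨hu, huv⟩, huw⟩, hmax⟩ := Set.exists_max_image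
      {u | (u ∈ D.arc p q ∧ D.th p q v ≤ D.th p q u) ∧ D.th p q u < D.th p q w} (D.th p q)
      ((D.arc_finite p q h).subset (fun z hz => hz.1.1)) ⟨v, ⟨hv, le_refl _⟩, hvw⟩
    have huR : R u := by
      by_contra huR
      exact absurd (hmin u ⟨⟨hu, huv⟩, huR⟩) (not_le.2 huw)
    apply hwR
    apply hstep u w huR
    · refine ⟨p, q, h, hu, hw, huw, ?_⟩
      rintro z hz ⟨h1, h2⟩
      exact absurd (hmax z ⟨⟨hz, huv.trans h1.le⟩, h2⟩) (not_le.2 h1)
    · rintro rfl
      exact D.x_notMem p q h hw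
    · intro hwC
      exact absurd hvw (not_lt.2 (hcon w hwC hw))
  have hq : q ∈ D.arc p q := D.right_mem h
  have hne : v ≠ q := by
    rintro rfl
    exact hRc _ hRv (D.qadj _ _ (D.qsymm _ _ h))
  have h1 : D.th q p q < D.th q p v := by
    refine D.th_left q p v (D.qsymm _ _ h) ?_ hne
    rw [D.arc_symm p q h]
    exact hv
  have h2 : D.th p q v < D.th p q q := (D.th_symm p q q v h hq hv).1 h1
  exact hRc q (hall q hq h2.le) (D.qadj _ _ (D.qsymm _ _ h))

/-- **R8a**: the cut argument (Claim 1). -/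
theorem star_cut (D : Star G x) {S : Finset V} (hS : ∀ a b, G.Adj a b → a ∈ S ∧ b ∈ S)
    (hAS : ∀ p q, D.QA p q → D.arc p q ⊆ S) (hE : D.Esc S 4) {Y T : Finset V} (hY : Y ⊆ S)
    (hxY : x ∉ Y) (hcard : Y.card = 5) (hT : D.Exitable Y T) {L : Finset V}
    (hL : ∀ v, v ∈ L ↔ v ∈ Y ∧ v ∈ D.Sig ∧ v ∉ T)
    (hLc : ∀ v ∈ L, ¬ G.Adj x v) (C : Finset V) (hC : C.card < Y.card) :
    ∃ a ∈ Y, ∃ b, G.Adj x b ∧ DJ (D.dr L) (↑C)ᶜ a b := by
  classical
  by_contra hcon
  push Not at hcon
  -- reachable vertices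
  let R : V → Prop := fun v => ∃ a ∈ Y, DJ (D.dr L) (↑C)ᶜ a v
  have R0 : ∀ v, R v → v ∉ C := fun v ⟨a, _, h⟩ => h.right_mem
  have R1 : ∀ v w, R v → D.dr L v w → w ∉ C → R w := fun v w ⟨a, ha, h⟩ hvw hw =>
    ⟨a, ha, h.snoc hvw hw⟩
  have R2 : ∀ a ∈ Y, a ∉ C → R a := fun a ha hac => ⟨a, ha, DJ.refl hac⟩
  have R3 : ∀ v, R v → ¬ G.Adj x v := fun v ⟨a, ha, h⟩ hv => hcon a ha v hv h
  have hgood : ∀ u v, D.dr L u v → v ∈ S ∧ v ≠ x := by
    rintro u v ⟨-, h2, h3⟩
    refine ⟨?_, h2⟩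
    rcases h3 with ⟨p, q, hpq, -, hv, -⟩ | ⟨-, h4⟩
    · exact hAS p q hpq hv
    · exact (hS u v h4).2
  have R4 : ∀ v, R v → v ∈ S ∧ v ≠ x := by
    rintro v ⟨a, ha, l, hl, -⟩
    refine hl.end_of hgood ⟨hY ha, ?_⟩
    rintro rfl
    exact hxY ha
  -- the part of `C` in `S`
  set C' : Finset V := C.filter (fun v => v ∈ S) with hC'
  have hC'S : C' ⊆ S := fun v hv => (Finset.mem_filter.1 hv).2
  have hC'C : C' ⊆ C := Finset.filter_subset _ _
  have hC'card : C'.card ≤ 4 := by
    have := Finset.card_le_card hC'C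
    omega
  have hmem : ∀ v ∈ C, v ∈ S → v ∈ C' := fun v h1 h2 => Finset.mem_filter.2 ⟨h1, h2⟩
  -- walking along arcs
  have W : ∀ p q v, D.QA p q → v ∈ D.arc p q → R v →
      ∃ c ∈ C, c ∈ D.arc p q ∧ D.th p q v < D.th p q c := by
    intro p q v hpq hv hRv
    refine D.walk_arc hpq hv R hRv R3 (↑C) ?_
    intro u w hu hN hw hwC
    exact R1 u w hu ⟨R3 u hu, hw, Or.inl hN⟩ hwC
  -- (1)
  have c1 : ∀ v, R v → v ∈ D.Sig → v ∈ D.Cl C' := by
    intro v hv hs
    rcases hs with h | ⟨p, q, hpq, hvpq⟩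
    · exact absurd h (R3 v hv)
    · obtain ⟨a, ha, ha1, ha2⟩ := W p q v hpq hvpq hv
      have hvqp : v ∈ D.arc q p := by
        rw [D.arc_symm p q hpq]
        exact hvpq
      obtain ⟨b, hb, hb1, hb2⟩ := W q p v (D.qsymm _ _ hpq) hvqp hv
      rw [D.arc_symm p q hpq] at hb1
      have hb3 : D.th p q b < D.th p q v := (D.th_symm p q v b hpq hvpq hb1).1 hb2
      refine Or.inr (Or.inr ⟨p, q, hpq, hvpq, a, hmem a ha (hAS p q hpq ha1), b,
        hmem b hb (hAS p q hpq hb1), ?_, ha1, hb1⟩)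
      rintro rfl
      exact absurd ha2 (not_lt.2 hb3.le)
  -- escaping
  have c2 : ∀ (w n : V) (p : G.Walk w n), (∀ z ∈ p.support, z ∉ D.Cl C') → R w → G.Adj x n →
      False := by
    intro w n p
    induction p with
    | nil =>
      intro _ hw hn
      exact R3 _ hw hn
    | @cons a b c hab p ih =>
      intro hp hw hn
      refine ih (fun z hz => hp z (by simp [hz])) ?_ hn
      have hb : b ∉ D.Cl C' := hp b (by simp)
      have ha : a ∉ D.Cl C' := hp a (by simp)
      refine R1 a b hw ⟨R3 a hw, ?_, Or.inr ⟨Or.inl fun hs => ha (c1 a hw hs), hab⟩⟩ ?_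
      · rintro rfl
        exact hb (Or.inl rfl)
      · intro hbC
        exact hb (Or.inr (Or.inl (hmem b hbC (hS a b hab).2)))
  -- (2), (3)
  have c3 : ∀ u, R u → (u ∉ D.Sig ∨ u ∈ L) → False := by
    intro u hu hor
    obtain ⟨w, n, huw, hn, p, hp⟩ := hE C' hC'card hC'S u (R4 u hu).1 (R4 u hu).2
      (fun h => R0 u hu (hC'C h)) (R3 u hu)
    have hw : w ∉ D.Cl C' := hp w (by simp)
    refine c2 w n p hp ?_ hn
    refine R1 u w hu ⟨R3 u hu, ?_, Or.inr ⟨hor, huw⟩⟩ ?_
    · rintro rfl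
      exact hw (Or.inl rfl)
    · intro hwC
      exact hw (Or.inr (Or.inl (hmem w hwC (hS u w huw).2)))
  -- (5)
  obtain ⟨hTY, n, E, hexit, hEY, hdisj⟩ := hT
  have c5 : ∀ t ∈ T, ∃ c ∈ C, c ∈ E t := by
    intro t ht
    by_contra hno
    push Not at hno
    rcases hexit t ht with ⟨h1, h2, h3⟩ | ⟨h1, q, h2, h3, h4⟩
    · have htC : t ∉ C := by
        intro htC
        apply hno t htC
        rw [h3]
        exact h1
      have := R3 t (R2 t (hTY ht) htC)
      rw [h1] at this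
      exact this h2
    · have htC : t ∉ C := by
        intro htC
        apply hno t htC
        rw [h4]
        exact ⟨h3, le_refl _⟩
      have h3' : t ∈ D.arc q (n t) := by
        rw [D.arc_symm _ _ h2]
        exact h3
      obtain ⟨c, hc, hc1, hc2⟩ := W q (n t) t (D.qsymm _ _ h2) h3' (R2 t (hTY ht) htC)
      rw [D.arc_symm _ _ h2] at hc1
      have hc3 : D.th (n t) q c < D.th (n t) q t := (D.th_symm _ _ t c h2 h3 hc1).1 hc2
      apply hno c hc
      rw [h4]
      exact ⟨hc1, hc3.le⟩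
  have hTS : ∀ t ∈ T, t ∈ D.Sig := by
    intro t ht
    rcases hexit t ht with ⟨h1, h2, -⟩ | ⟨-, q, h2, h3, -⟩
    · left
      rw [h1]
      exact h2
    · exact Or.inr ⟨_, q, h2, h3⟩
  choose! f hf1 hf2 using c5
  have hle : Y.card ≤ C.card := by
    refine Finset.card_le_card_of_injOn (fun v => if v ∈ T then f v else v) ?_ ?_
    · intro v hv
      by_cases hvT : v ∈ T
      · simp only [hvT, if_true]
        exact hf1 v hvT
      · simp only [hvT, if_false]
        by_contra hvC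
        refine c3 v (R2 v hv hvC) ?_
        by_cases hs : v ∈ D.Sig
        · right
          exact (hL v).2 ⟨hv, hs, hvT⟩
        · exact Or.inl hs
    · intro v hv v' hv' heq
      by_cases hvT : v ∈ T <;> by_cases hvT' : v' ∈ T
      · simp only [hvT, hvT', if_true] at heq
        by_contra hne
        have h1 := Set.disjoint_left.1 (hdisj v hvT v' hvT' hne) (hf2 v hvT)
        rw [heq] at h1
        exact h1 (hf2 v' hvT')
      · simp only [hvT, hvT', if_true, if_false] at heq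
        have h1 := hf2 v hvT
        rw [heq] at h1
        exact (hEY v hvT v' h1 hv').symm
      · simp only [hvT, hvT', if_true, if_false] at heq
        have h1 := hf2 v' hvT'
        rw [← heq] at h1
        exact hEY v' hvT' v h1 hv
      · simpa only [hvT, hvT', if_false] using heq
  omega

end Cut

end Pool.Agent.P6
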