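import Mathlib

set_option autoImplicit false

/-!
Directed Menger theorem (vertex version, all elements of the source set are linked),
deduced from Hall's theorem.
-/

namespace Pool.Agent.P6

/-- **Directed Menger.** If no set of fewer than `A.card` vertices meets all `D`-paths from `A`
to `B`, there are pairwise disjoint `D`-paths, one from every element of `A`, to `B`.  The path of
`a` is `p a 0 = a, p a 1, ..., p a (n a) ∈ B`. -/
theorem dmenger {V : Type} [Finite V] (D : V → V → Prop) (A : Finset V) (B : Set V)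
    (h : ∀ C : Finset V, C.card < A.card → ∃ a ∈ A, a ∉ C ∧ ∃ b ∈ B,
      Relation.ReflTransGen (fun u v => D u v ∧ v ∉ C) a b) :
    ∃ (n : V → ℕ) (p : V → ℕ → V),
      (∀ a ∈ A, p a 0 = a ∧ p a (n a) ∈ B ∧
        ∀ i < n a, p a i ∉ B ∧ D (p a i) (p a (i + 1)) ∧ p a (i + 1) ∉ A) ∧
      ∀ a ∈ A, ∀ a' ∈ A, ∀ i ≤ n a, ∀ j ≤ n a', p a i = p a' j → a = a' ∧ i = j := by
  classical
  have := Fintype.ofFinite V
  -- the bipartite graph
  let t : {u : V // u ∉ B} → Finset V := fun u =>
    Finset.univ.filter (fun v => v ∉ A ∧ (v = u.1 ∨ D u.1 v))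
  have hall : ∀ s : Finset {u : V // u ∉ B}, s.card ≤ (s.biUnion t).card := by
    intro s
    by_contra hs
    push Not at hs
    set X : Finset V := s.image Subtype.val with hX
    set N : Finset V := s.biUnion t with hN
    have hXcard : X.card = s.card := Finset.card_image_of_injective _ Subtype.val_injective
    have hXB : ∀ v ∈ X, v ∉ B := by
      intro v hv
      obtain ⟨u, _, rfl⟩ := Finset.mem_image.1 hv
      exact u.2
    have hXN : X \ A ⊆ N ∩ X := by
      intro v hv
      obtain ⟨hv1, hv2⟩ := Finset.mem_sdiff.1 hv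
      refine Finset.mem_inter.2 ⟨?_, hv1⟩
      obtain ⟨u, hu, rfl⟩ := Finset.mem_image.1 hv1
      exact Finset.mem_biUnion.2 ⟨u, hu, by simp [t, hv2]⟩
    have hc1 : (N \ X).card + (N ∩ X).card = N.card := Finset.card_sdiff_add_card_inter N X
    have hc2 : (X \ A).card + (X ∩ A).card = X.card := Finset.card_sdiff_add_card_inter X A
    have hc3 : (A \ X).card + (A ∩ X).card = A.card := Finset.card_sdiff_add_card_inter A X
    have hc4 : (A ∩ X).card = (X ∩ A).card := by rw [Finset.inter_comm]
    have hc5 := Finset.card_le_card hXN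
    have hc6 : ((N \ X) ∪ (A \ X)).card ≤ (N \ X).card + (A \ X).card := Finset.card_union_le _ _
    obtain ⟨a, haA, haC, b, hb, hab⟩ := h ((N \ X) ∪ (A \ X)) (by omega)
    have haX : a ∈ X := by
      by_contra hax
      exact haC (Finset.mem_union_right _ (Finset.mem_sdiff.2 ⟨haA, hax⟩))
    have key : ∀ b, Relation.ReflTransGen
        (fun u v => D u v ∧ v ∉ (N \ X) ∪ (A \ X)) a b → b ∈ X := by
      intro b hab
      induction hab with
      | refl => exact haX
      | tail h1 h2 ih =>
        rename_i u v
        obtain ⟨hD, hC⟩ := h2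
        by_contra hvX
        by_cases hvA : v ∈ A
        · exact hC (Finset.mem_union_right _ (Finset.mem_sdiff.2 ⟨hvA, hvX⟩))
        · refine hC (Finset.mem_union_left _ (Finset.mem_sdiff.2 ⟨?_, hvX⟩))
          obtain ⟨u', hu', rfl⟩ := Finset.mem_image.1 ih
          exact Finset.mem_biUnion.2 ⟨u', hu', by simp [t, hvA, hD]⟩
    exact hXB b (key b hab) hb
  obtain ⟨f, hfinj, hft⟩ := (Finset.all_card_le_biUnion_card_iff_exists_injective t).1 hall
  have hfA : ∀ u, f u ∉ A := fun u => ((Finset.mem_filter.1 (hft u)).2).1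
  have hfD : ∀ u, f u = u.1 ∨ D u.1 (f u) := fun u => ((Finset.mem_filter.1 (hft u)).2).2
  let g : V → V := fun u => if h : u ∉ B then f ⟨u, h⟩ else u
  have hg : ∀ u (hu : u ∉ B), g u = f ⟨u, hu⟩ := fun u hu => dif_pos hu
  -- the injectivity claim
  have claim : ∀ i j : ℕ, ∀ a ∈ A, ∀ a' ∈ A, (∀ k < i, g^[k] a ∉ B) → (∀ k < j, g^[k] a' ∉ B) →
      g^[i] a = g^[j] a' → a = a' ∧ i = j := by
    intro i
    induction i with
    | zero =>
      intro j a ha a' ha' _ h2 h3
      cases j with
      | zero => exact ⟨h3, rfl⟩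
      | succ j =>
        exfalso
        rw [Function.iterate_succ_apply', hg _ (h2 j (Nat.lt_succ_self j))] at h3
        have h4 : g^[0] a = a := rfl
        rw [h4] at h3
        exact hfA _ (h3 ▸ ha)
    | succ i ih =>
      intro j a ha a' ha' h1 h2 h3
      cases j with
      | zero =>
        exfalso
        rw [Function.iterate_succ_apply', hg _ (h1 i (Nat.lt_succ_self i))] at h3
        have h4 : g^[0] a' = a' := rfl
        rw [h4] at h3
        exact hfA _ (h3.symm ▸ ha')
      | succ j =>
        rw [Function.iterate_succ_apply', Function.iterate_succ_apply',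
          hg _ (h1 i (Nat.lt_succ_self i)), hg _ (h2 j (Nat.lt_succ_self j))] at h3
        have h4 := congrArg Subtype.val (hfinj h3)
        obtain ⟨h5, h6⟩ := ih j a ha a' ha' (fun k hk => h1 k (by omega))
          (fun k hk => h2 k (by omega)) h4
        exact ⟨h5, by omega⟩
  have hex : ∀ a ∈ A, ∃ i, g^[i] a ∈ B := by
    intro a ha
    by_contra hne
    push Not at hne
    have : Function.Injective (fun i : ℕ => g^[i] a) := fun i j hij =>
      (claim i j a ha a ha (fun k _ => hne k) (fun k _ => hne k) hij).2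
    exact not_injective_infinite_finite _ this
  refine ⟨fun a => if h : ∃ i, g^[i] a ∈ B then Nat.find h else 0, fun a i => g^[i] a, ?_, ?_⟩
  · intro a ha
    have hx := hex a ha
    simp only [dif_pos hx]
    refine ⟨rfl, Nat.find_spec hx, fun i hi => ?_⟩
    have h1 : g^[i] a ∉ B := Nat.find_min hx hi
    have h2 : g^[i + 1] a = f ⟨g^[i] a, h1⟩ := by
      rw [Function.iterate_succ_apply', hg _ h1]
    refine ⟨h1, ?_, ?_⟩
    · rcases hfD ⟨g^[i] a, h1⟩ with h3 | h3
      · exfalso
        have h4 : g^[i + 1] a = g^[i] a := by rw [h2]; exact h3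
        have h5 := (claim (i + 1) i a ha a ha (fun k hk => Nat.find_min hx (by omega))
          (fun k hk => Nat.find_min hx (by omega)) h4).2
        omega
      · rw [h2]; exact h3
    · rw [h2]; exact hfA _
  · intro a ha a' ha' i hi j hj hij
    have hx := hex a ha
    have hx' := hex a' ha'
    simp only [dif_pos hx] at hi
    simp only [dif_pos hx'] at hj
    exact claim i j a ha a' ha' (fun k hk => Nat.find_min hx (by omega))
      (fun k hk => Nat.find_min hx' (by omega)) hij

end Pool.Agent.P6
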