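import Mathlib

set_option autoImplicit false

/-!
Basic definitions for the linkedness of polytope graphs (MP_035085_co).
A polytope is given by the finite set `S` of its vertices (convex position) in a real vector space `E`.
Its graph `PG S` is a graph on the whole space `E` (points outside `S` are isolated).
-/

namespace Pool.Agent.P6

section Graph

variable {V : Type}

/-- `a` and `b` are joined by a walk of `G` inside `U`. -/
def Joined (G : SimpleGraph V) (U : Set V) (a b : V) : Prop :=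
  ∃ p : G.Walk a b, ∀ z ∈ p.support, z ∈ U

/-- `U` induces a connected subgraph of `G` (the empty set counts as connected). -/
def ConnIn (G : SimpleGraph V) (U : Set V) : Prop :=
  ∀ a ∈ U, ∀ b ∈ U, Joined G U a b

/-- Two disjoint paths inside `U`, joining `a` to `c` and `b` to `d`. -/
def Linked2 (G : SimpleGraph V) (U : Set V) (a c b d : V) : Prop :=
  ∃ p : G.Walk a c, ∃ q : G.Walk b d, p.IsPath ∧ q.IsPath ∧
    (∀ z ∈ p.support, z ∈ U) ∧ (∀ z ∈ q.support, z ∈ U) ∧ p.support.Disjoint q.support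

/-- Three pairwise disjoint paths inside `U`, joining `x` to `y`, `a` to `c` and `b` to `d`. -/
def Linked3 (G : SimpleGraph V) (U : Set V) (x y a c b d : V) : Prop :=
  ∃ p : G.Walk x y, ∃ q : G.Walk a c, ∃ r : G.Walk b d, p.IsPath ∧ q.IsPath ∧ r.IsPath ∧
    (∀ z ∈ p.support, z ∈ U) ∧ (∀ z ∈ q.support, z ∈ U) ∧ (∀ z ∈ r.support, z ∈ U) ∧
    p.support.Disjoint q.support ∧ p.support.Disjoint r.support ∧ q.support.Disjoint r.support

end Graph

section Poly

variable {E : Type} [AddCommGroup E] [Module ℝ E]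

/-- The finite set `S` is in convex position. -/
def CP (S : Finset E) : Prop := ∀ x ∈ S, x ∉ convexHull ℝ ((S : Set E) \ {x})

/-- The graph of the polytope with vertex set `S`, as a graph on the whole space. -/
def PG (S : Finset E) : SimpleGraph E where
  Adj a b := a ∈ S ∧ b ∈ S ∧ a ≠ b ∧
    ∃ ℓ : E →ₗ[ℝ] ℝ, ℓ b = ℓ a ∧ ∀ x ∈ S, ℓ x ≤ ℓ a ∧ (ℓ x = ℓ a → x = a ∨ x = b)
  symm := ⟨fun a b h => by
    obtain ⟨ha, hb, hab, ℓ, h1, h2⟩ := h
    refine ⟨hb, ha, hab.symm, ℓ, h1.symm, fun x hx => ?_⟩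
    rw [h1]
    exact ⟨(h2 x hx).1, fun h => ((h2 x hx).2 h).symm⟩⟩
  loopless := ⟨fun a h => h.2.2.1 rfl⟩

/-- `F` is a face of the polytope with vertex set `S` (empty and improper faces allowed). -/
def IsFace (S F : Finset E) : Prop :=
  F ⊆ S ∧ ∃ ℓ : E →ₗ[ℝ] ℝ, ∃ c : ℝ, (∀ x ∈ S, ℓ x ≤ c) ∧ ∀ x ∈ S, (x ∈ F ↔ ℓ x = c)

/-- The dimension of the polytope with vertex set `S`. -/
noncomputable def dim (S : Finset E) : ℕ := Module.finrank ℝ (vectorSpan ℝ (S : Set E))

end Poly

end Pool.Agent.P6
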