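import Pool.Agent.P6.Base

set_option autoImplicit false

/-!
Dimension, hyperplanes through few points, facets, Balinski's theorem, and the 2-linkage of
polytopes (avoiding up to `dim - 4` further vertices).
-/

open Set

namespace Pool.Agent.P6

section Alg

variable {E : Type} [AddCommGroup E] [Module ℝ E]

instance finDim_vectorSpan (S : Finset E) :
    FiniteDimensional ℝ (vectorSpan ℝ (S : Set E)) :=
  finiteDimensional_vectorSpan_of_finite ℝ S.finite_toSet

theorem dim_mono {F S : Finset E} (h : F ⊆ S) : dim F ≤ dim S :=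
  Submodule.finrank_mono (vectorSpan_mono ℝ (Finset.coe_subset.2 h))

theorem dim_succ_le_card {W : Finset E} (h : W.Nonempty) : dim W + 1 ≤ W.card := by
  classical
  obtain ⟨n, hn⟩ : ∃ n, W.card = n + 1 :=
    Nat.exists_eq_succ_of_ne_zero (Finset.card_pos.2 h).ne'
  have := finrank_vectorSpan_image_finset_le ℝ (id : E → E) W hn
  rw [Finset.image_id] at this
  unfold dim
  omega

theorem dim_le_card (W : Finset E) : dim W ≤ W.card := by
  rcases W.eq_empty_or_nonempty with rfl | h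
  · simp [dim]
  · have := dim_succ_le_card h
    omega

/-- A subspace of small dimension does not contain all the differences `x - w`, `x ∈ S`. -/
theorem exists_sub_notMem (S : Finset E) (p : Submodule ℝ E) [FiniteDimensional ℝ p]
    (h : Module.finrank ℝ p < dim S) (w : E) : ∃ x ∈ S, x - w ∉ p := by
  by_contra hc
  push Not at hc
  have h1 : vectorSpan ℝ (S : Set E) ≤ p := by
    rw [vectorSpan, Submodule.span_le]
    rintro _ ⟨x, hx, y, hy, rfl⟩
    have h2 : x -ᵥ y = (x - w) - (y - w) := by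
      rw [vsub_eq_sub]
      abel
    simp only [SetLike.mem_coe]
    rw [h2]
    exact p.sub_mem (hc x hx) (hc y hy)
  exact absurd (Submodule.finrank_mono h1) (not_le.2 h)

theorem sub_mem_vectorSpan {W : Finset E} {u v : E} (hu : u ∈ W) (hv : v ∈ W) :
    u - v ∈ vectorSpan ℝ (W : Set E) :=
  vsub_mem_vectorSpan ℝ (Finset.mem_coe.2 hu) (Finset.mem_coe.2 hv)

/-- A hyperplane through `W` not containing `S`. -/
theorem exists_hyper {S W : Finset E} (h : dim W < dim S) :
    ∃ ℓ : E →ₗ[ℝ] ℝ, ∃ c : ℝ, (∀ w ∈ W, ℓ w = c) ∧ ∃ x ∈ S, ℓ x ≠ c := by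
  rcases W.eq_empty_or_nonempty with rfl | ⟨w, hw⟩
  · have : S.Nonempty := by
      rw [Finset.nonempty_iff_ne_empty]
      rintro rfl
      exact lt_irrefl _ h
    obtain ⟨x, hx⟩ := this
    exact ⟨0, 1, by simp, x, hx, by simp⟩
  · obtain ⟨x, hx, hxw⟩ := exists_sub_notMem S (vectorSpan ℝ (W : Set E)) h w
    obtain ⟨f, hf1, hf2⟩ := Submodule.exists_le_ker_of_notMem hxw
    refine ⟨f, f w, fun u hu => ?_, x, hx, fun he => hf1 ?_⟩
    · have := hf2 (sub_mem_vectorSpan hu hw)
      rw [LinearMap.mem_ker, map_sub, sub_eq_zero] at this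
      exact this
    · rw [map_sub, he, sub_self]

theorem exists_hyper_card {S W : Finset E} (hS : S.Nonempty) (h : W.card ≤ dim S) :
    ∃ ℓ : E →ₗ[ℝ] ℝ, ∃ c : ℝ, (∀ w ∈ W, ℓ w = c) ∧ ∃ x ∈ S, ℓ x ≠ c := by
  rcases W.eq_empty_or_nonempty with rfl | hW
  · obtain ⟨x, hx⟩ := hS
    exact ⟨0, 1, by simp, x, hx, by simp⟩
  · have := dim_succ_le_card hW
    exact exists_hyper (by omega)

/-- If `dim W ≤ dim S - 2` there is a hyperplane through `W` which cuts the interior of `S`. -/
theorem exists_cut {S W : Finset E} (h : dim W + 2 ≤ dim S) :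
    ∃ ℓ : E →ₗ[ℝ] ℝ, ∃ c : ℝ, (∀ w ∈ W, ℓ w = c) ∧ (∃ x ∈ S, ℓ x < c) ∧ ∃ x ∈ S, c < ℓ x := by
  classical
  -- reduce to nonempty `W`
  obtain ⟨W', w, hWW, hw, hd⟩ : ∃ W' : Finset E, ∃ w, W ⊆ W' ∧ w ∈ W' ∧ dim W' + 2 ≤ dim S := by
    rcases W.eq_empty_or_nonempty with rfl | ⟨w, hw⟩
    · refine ⟨{0}, 0, by simp, by simp, ?_⟩
      have := dim_succ_le_card (W := ({0} : Finset E)) (by simp)
      rw [Finset.card_singleton] at this
      omega
    · exact ⟨W, w, Finset.Subset.refl _, hw, h⟩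
  set p := vectorSpan ℝ (W' : Set E) with hp
  have hp' : Module.finrank ℝ p = dim W' := rfl
  obtain ⟨x, hx, hxw⟩ := exists_sub_notMem S p (by omega) w
  set q := p ⊔ Submodule.span ℝ {x - w} with hq
  have hq' : Module.finrank ℝ q < dim S := by
    have h1 := Submodule.finrank_add_le_finrank_add_finrank p (Submodule.span ℝ {x - w})
    have h2 : Module.finrank ℝ (Submodule.span ℝ ({x - w} : Set E)) ≤ 1 := by
      have := finrank_span_finset_le_card (R := ℝ) ({x - w} : Finset E)
      rw [Finset.coe_singleton, Finset.card_singleton] at this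
      exact this
    have h3 : Module.finrank ℝ (q : Submodule ℝ E) ≤
        Module.finrank ℝ p + Module.finrank ℝ (Submodule.span ℝ ({x - w} : Set E)) := h1
    omega
  obtain ⟨y, hy, hyw⟩ := exists_sub_notMem S q hq' w
  have hxq : x - w ∈ q := Submodule.mem_sup_right (Submodule.mem_span_singleton_self _)
  have hpq : p ≤ q := le_sup_left
  have hx2 : x - w ∉ p ⊔ Submodule.span ℝ {y - w} := by
    intro hc
    rw [Submodule.mem_sup] at hc
    obtain ⟨u, hu, v, hv, huv⟩ := hc
    rw [Submodule.mem_span_singleton] at hv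
    obtain ⟨t, rfl⟩ := hv
    rcases eq_or_ne t 0 with rfl | ht
    · rw [zero_smul, add_zero] at huv
      exact hxw (huv ▸ hu)
    · apply hyw
      have h1 : y - w = t⁻¹ • ((x - w) - u) := by
        rw [← huv, add_sub_cancel_left, smul_smul, inv_mul_cancel₀ ht, one_smul]
      rw [h1]
      exact q.smul_mem _ (q.sub_mem hxq (hpq hu))
  obtain ⟨f, hf1, hf2⟩ := Submodule.exists_le_ker_of_notMem hyw
  obtain ⟨g, hg1, hg2⟩ := Submodule.exists_le_ker_of_notMem hx2
  have hfx : f (x - w) = 0 := hf2 hxq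
  have hgy : g (y - w) = 0 :=
    hg2 (Submodule.mem_sup_right (Submodule.mem_span_singleton_self _))
  set m : E →ₗ[ℝ] ℝ := (g (x - w))⁻¹ • g - (f (y - w))⁻¹ • f with hm
  have hmx : m (x - w) = 1 := by
    simp only [hm, LinearMap.sub_apply, LinearMap.smul_apply, smul_eq_mul, hfx]
    rw [inv_mul_cancel₀ hg1]
    ring
  have hmy : m (y - w) = -1 := by
    simp only [hm, LinearMap.sub_apply, LinearMap.smul_apply, smul_eq_mul, hgy]
    rw [inv_mul_cancel₀ hf1]
    ring
  refine ⟨m, m w, fun u hu => ?_, ⟨y, hy, ?_⟩, ⟨x, hx, ?_⟩⟩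
  · have h1 : u - w ∈ p := sub_mem_vectorSpan (hWW hu) hw
    have h2 : f (u - w) = 0 := hf2 (hpq h1)
    have h3 : g (u - w) = 0 := hg2 (Submodule.mem_sup_left h1)
    have h4 : m (u - w) = 0 := by
      simp only [hm, LinearMap.sub_apply, LinearMap.smul_apply, smul_eq_mul, h2, h3]
      ring
    rw [map_sub, sub_eq_zero] at h4
    exact h4
  · rw [map_sub] at hmy
    linarith
  · rw [map_sub] at hmx
    linarith

/-- Either the hyperplane cuts, or it supports a proper face. -/
theorem cut_or_face {S : Finset E} (ℓ : E →ₗ[ℝ] ℝ) (c : ℝ) (h : ∃ x ∈ S, ℓ x ≠ c) :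
    ((∃ x ∈ S, ℓ x < c) ∧ ∃ x ∈ S, c < ℓ x) ∨
      ∃ m : E →ₗ[ℝ] ℝ, ∃ e : ℝ, (∀ x ∈ S, m x ≤ e) ∧ (∃ x ∈ S, m x < e) ∧
        ∀ x, ℓ x = c ↔ m x = e := by
  by_cases h1 : ∃ x ∈ S, ℓ x < c
  · by_cases h2 : ∃ x ∈ S, c < ℓ x
    · exact Or.inl ⟨h1, h2⟩
    · push Not at h2
      exact Or.inr ⟨ℓ, c, h2, h1, fun x => Iff.rfl⟩
  · push Not at h1
    obtain ⟨x, hx, hne⟩ := h
    refine Or.inr ⟨-ℓ, -c, fun y hy => ?_, ⟨x, hx, ?_⟩, fun y => ?_⟩
    · simpa using h1 y hy
    · have := lt_of_le_of_ne (h1 x hx) (Ne.symm hne)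
      simpa using this
    · simp

/-- The face of `S` in a supporting hyperplane. -/
theorem isFace_filter [DecidableEq E] {S : Finset E} (m : E →ₗ[ℝ] ℝ) (e : ℝ)
    (h : ∀ x ∈ S, m x ≤ e) [DecidablePred fun x => m x = e] :
    IsFace S (S.filter fun x => m x = e) :=
  ⟨Finset.filter_subset _ _, m, e, h, fun x hx => by simp [hx]⟩

theorem IsFace.dim_lt {S F : Finset E} (h : IsFace S F) (hF : F.Nonempty) (hne : F ≠ S) :
    dim F < dim S := by
  obtain ⟨hs, ℓ, c, h1, h2⟩ := h
  obtain ⟨w, hw⟩ := hF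
  obtain ⟨x, hx, hxF⟩ : ∃ x ∈ S, x ∉ F := by
    by_contra hc
    push Not at hc
    exact hne (Finset.Subset.antisymm hs hc)
  have hwc : ℓ w = c := (h2 w (hs hw)).1 hw
  have h3 : vectorSpan ℝ (F : Set E) < vectorSpan ℝ (S : Set E) := by
    refine lt_of_le_of_ne (vectorSpan_mono ℝ (Finset.coe_subset.2 hs)) fun he => ?_
    have h4 : x - w ∈ vectorSpan ℝ (F : Set E) := by
      rw [he]
      exact sub_mem_vectorSpan hx (hs hw)
    have h5 : vectorSpan ℝ (F : Set E) ≤ LinearMap.ker ℓ := by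
      rw [vectorSpan, Submodule.span_le]
      rintro _ ⟨u, hu, v, hv, rfl⟩
      simp only [SetLike.mem_coe, LinearMap.mem_ker, vsub_eq_sub, map_sub]
      rw [(h2 u (hs hu)).1 hu, (h2 v (hs hv)).1 hv, sub_self]
    have h6 := h5 h4
    rw [LinearMap.mem_ker, map_sub, sub_eq_zero, hwc] at h6
    exact hxF ((h2 x hx).2 h6)
  exact Submodule.finrank_lt_finrank_of_lt h3

/-- A proper face of codimension at least two lies in a larger proper face. -/
theorem IsFace.exists_larger [DecidableEq E] {S F : Finset E} (h : IsFace S F)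
    (hd : dim F + 2 ≤ dim S) (hF : F.Nonempty) :
    ∃ F', IsFace S F' ∧ F ⊆ F' ∧ F' ≠ S ∧ dim F < dim F' := by
  classical
  obtain ⟨hs, ℓ, c, h1, h2⟩ := h
  obtain ⟨m, e, hm, ⟨y, hy, hye⟩, ⟨x, hx, hxe⟩⟩ := exists_cut hd
  have hnF : ∀ z ∈ S, e < m z → ℓ z < c := fun z hz hze =>
    lt_of_le_of_ne (h1 z hz) fun he => by
      have := hm z ((h2 z hz).2 he)
      exact hze.ne' this
  set P := S.filter fun z => e < m z with hP
  have hPne : P.Nonempty := ⟨x, by simp [hP, hx, hxe]⟩
  obtain ⟨z, hz, hmin⟩ := Finset.exists_min_image P (fun z => (c - ℓ z) / (m z - e)) hPne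
  have hzS : z ∈ S := (Finset.mem_filter.1 hz).1
  have hze : e < m z := (Finset.mem_filter.1 hz).2
  set t := (c - ℓ z) / (m z - e) with ht
  have ht0 : 0 < t := div_pos (sub_pos.2 (hnF z hzS hze)) (sub_pos.2 hze)
  set g : E →ₗ[ℝ] ℝ := ℓ + t • m with hg
  have hgS : ∀ u ∈ S, g u ≤ c + t * e := by
    intro u hu
    simp only [hg, LinearMap.add_apply, LinearMap.smul_apply, smul_eq_mul]
    rcases le_or_gt (m u) e with hue | hue
    · have := h1 u hu
      have := mul_le_mul_of_nonneg_left hue ht0.le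
      linarith
    · have h3 := hmin u (by simp [hP, hu, hue])
      rw [le_div_iff₀ (sub_pos.2 hue)] at h3
      have h4 : t * (m u - e) ≤ c - ℓ u := h3
      linarith
  have hgz : g z = c + t * e := by
    simp only [hg, LinearMap.add_apply, LinearMap.smul_apply, smul_eq_mul]
    have h3 : t * (m z - e) = c - ℓ z := by
      rw [ht]
      exact div_mul_cancel₀ _ (sub_pos.2 hze).ne'
    linarith
  have hgF : ∀ u ∈ F, g u = c + t * e := by
    intro u hu
    simp only [hg, LinearMap.add_apply, LinearMap.smul_apply, smul_eq_mul]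
    rw [hm u hu, (h2 u (hs hu)).1 hu]
  have hgy : g y < c + t * e := by
    simp only [hg, LinearMap.add_apply, LinearMap.smul_apply, smul_eq_mul]
    have := h1 y hy
    have := mul_lt_mul_of_pos_left hye ht0
    linarith
  refine ⟨S.filter fun u => g u = c + t * e, isFace_filter g _ hgS, fun u hu => ?_, ?_, ?_⟩
  · simp [hs hu, hgF u hu]
  · intro he
    have : y ∈ S.filter fun u => g u = c + t * e := by rw [he]; exact hy
    exact hgy.ne (Finset.mem_filter.1 this).2
  · have hsub : IsFace (S.filter fun u => g u = c + t * e) F := by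
      refine ⟨fun u hu => by simp [hs hu, hgF u hu], ℓ, c, fun u hu => ?_, fun u hu => ?_⟩
      · exact h1 u (Finset.mem_filter.1 hu).1
      · exact h2 u (Finset.mem_filter.1 hu).1
    refine hsub.dim_lt hF fun he => ?_
    have h3 : z ∈ F := by
      rw [he]
      simp [hzS, hgz]
    exact (hnF z hzS hze).ne ((h2 z hzS).1 h3)

/-- Every proper face lies in a facet. -/
theorem IsFace.exists_facet [DecidableEq E] {S F : Finset E} (h : IsFace S F) (hF : F.Nonempty)
    (hne : F ≠ S) : ∃ F', IsFace S F' ∧ F ⊆ F' ∧ F' ≠ S ∧ dim F' + 1 = dim S := by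
  have key : ∀ n : ℕ, ∀ F : Finset E, IsFace S F → F.Nonempty → F ≠ S → dim S - dim F = n →
      ∃ F', IsFace S F' ∧ F ⊆ F' ∧ F' ≠ S ∧ dim F' + 1 = dim S := by
    intro n
    induction n using Nat.strong_induction_on with
    | _ n ih =>
      intro F h hF hne hn
      have h1 := h.dim_lt hF hne
      by_cases h2 : dim F + 2 ≤ dim S
      · obtain ⟨F', h3, h4, h5, h6⟩ := h.exists_larger h2 hF
        obtain ⟨F'', h7, h8, h9, h10⟩ := ih (dim S - dim F') (by omega) F' h3 (hF.mono h4) h5 rfl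
        exact ⟨F'', h7, h4.trans h8, h9, h10⟩
      · exact ⟨F, h, Finset.Subset.refl _, hne, by omega⟩
  exact key _ F h hF hne rfl

end Alg

section Conn

variable {E : Type} [NormedAddCommGroup E] [NormedSpace ℝ E]

theorem Joined.le {V : Type} {G G' : SimpleGraph V} (h : G ≤ G') {U : Set V} {a b : V}
    (hj : Joined G U a b) : Joined G' U a b := by
  obtain ⟨p, hp⟩ := hj
  exact ⟨p.mapLe h, fun z hz => hp z (by simpa using hz)⟩

/-- Two vertices on or above a hyperplane are joined strictly above it. -/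
theorem joined_up {S : Finset E} (h : CP S) (ℓ : E →ₗ[ℝ] ℝ) (c : ℝ) {a b : E} (ha : a ∈ S)
    (hb : b ∈ S) (hac : c ≤ ℓ a) (hbc : c ≤ ℓ b) (hx : ∃ x ∈ S, c < ℓ x) :
    Joined (PG S) ({z | z ∈ S ∧ c < ℓ z} ∪ {a, b}) a b := by
  obtain ⟨x, hx, hxc⟩ := hx
  have key : ∀ v, v ∈ S → c ≤ ℓ v → ∃ w, w ∈ S ∧ c < ℓ w ∧
      Joined (PG S) ({z | z ∈ S ∧ c < ℓ z} ∪ {v}) v w := by
    intro v hv hvc
    rcases hvc.lt_or_eq with hlt | heq
    · exact ⟨v, hv, hlt, Joined.refl (Or.inl ⟨hv, hlt⟩)⟩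
    · obtain ⟨w, h1, h2⟩ := exists_adj_gt h hv hx ℓ (by rw [← heq]; exact hxc)
      rw [← heq] at h2
      exact ⟨w, h1.2.1, h2, Joined.adj h1 (Or.inr rfl) (Or.inl ⟨h1.2.1, h2⟩)⟩
  obtain ⟨u, hu, huc, h1⟩ := key a ha hac
  obtain ⟨v, hv, hvc, h2⟩ := key b hb hbc
  have h3 := connIn_gt h ℓ c u ⟨hu, huc⟩ v ⟨hv, hvc⟩
  refine (h1.mono ?_).trans ((h3.mono ?_).trans (h2.symm.mono ?_))
  · rintro z (hz | hz)
    · exact Or.inl hz
    · exact Or.inr (Or.inl hz)
  · intro z hz
    exact Or.inl hz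
  · rintro z (hz | hz)
    · exact Or.inl hz
    · exact Or.inr (Or.inr hz)

theorem joined_down {S : Finset E} (h : CP S) (ℓ : E →ₗ[ℝ] ℝ) (c : ℝ) {a b : E} (ha : a ∈ S)
    (hb : b ∈ S) (hac : ℓ a ≤ c) (hbc : ℓ b ≤ c) (hx : ∃ x ∈ S, ℓ x < c) :
    Joined (PG S) ({z | z ∈ S ∧ ℓ z < c} ∪ {a, b}) a b := by
  have := joined_up h (-ℓ) (-c) ha hb (by simpa using hac) (by simpa using hbc)
    (by simpa using hx)
  simpa using this

/-- **Balinski's theorem**: removing fewer than `dim S` vertices leaves a connected graph. -/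
theorem balinski {S : Finset E} (h : CP S) (W : Finset E) (hW : W.card < dim S) :
    ConnIn (PG S) {x | x ∈ S ∧ x ∉ W} := by
  classical
  intro a ha b hb
  -- hyperplane through `W` and `a`
  have hcard : (insert a W).card ≤ dim S := by
    rw [Finset.card_insert_of_notMem ha.2]
    omega
  obtain ⟨ℓ, c, h1, h2⟩ := exists_hyper_card ⟨a, ha.1⟩ hcard
  have hac : ℓ a = c := h1 a (Finset.mem_insert_self _ _)
  have hWc : ∀ w ∈ W, ℓ w = c := fun w hw => h1 w (Finset.mem_insert_of_mem hw)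
  -- if the vertices strictly above are nonempty then everything on or above is joined to `a`
  rcases lt_trichotomy (ℓ b) c with hlt | heq | hgt
  · refine (joined_down h ℓ c ha.1 hb.1 hac.le hlt.le ⟨b, hb.1, hlt⟩).mono ?_
    rintro z (hz | rfl | rfl)
    · exact ⟨hz.1, fun hzW => hz.2.ne (hWc z hzW)⟩
    · exact ha
    · exact hb
  · obtain ⟨x, hx, hne⟩ := h2
    rcases lt_or_gt_of_ne hne with hlt | hgt
    · refine (joined_down h ℓ c ha.1 hb.1 hac.le heq.le ⟨x, hx, hlt⟩).mono ?_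
      rintro z (hz | rfl | rfl)
      · exact ⟨hz.1, fun hzW => hz.2.ne (hWc z hzW)⟩
      · exact ha
      · exact hb
    · refine (joined_up h ℓ c ha.1 hb.1 hac.ge heq.ge ⟨x, hx, hgt⟩).mono ?_
      rintro z (hz | rfl | rfl)
      · exact ⟨hz.1, fun hzW => hz.2.ne' (hWc z hzW)⟩
      · exact ha
      · exact hb
  · refine (joined_up h ℓ c ha.1 hb.1 hac.ge hgt.le ⟨b, hb.1, hgt⟩).mono ?_
    rintro z (hz | rfl | rfl)
    · exact ⟨hz.1, fun hzW => hz.2.ne' (hWc z hzW)⟩
    · exact ha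
    · exact hb

/-- Balinski's theorem inside a face. -/
theorem balinski_face {S R : Finset E} (h : CP S) (hR : IsFace S R) (W : Finset E)
    (hW : W.card < dim R) : ConnIn (PG S) {x | x ∈ R ∧ x ∉ W} := by
  intro a ha b hb
  exact (balinski (h.subset hR.subset) W hW a ha b hb).le hR.le

/-- Two joined pairs in disjoint sets are linked. -/
theorem linked2_of_joined {V : Type} {G : SimpleGraph V} {U A B : Set V} {a c b d : V}
    (h1 : Joined G A a c) (h2 : Joined G B b d) (hA : A ⊆ U) (hB : B ⊆ U) (hAB : Disjoint A B) :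
    Linked2 G U a c b d := by
  obtain ⟨p, hp, hp'⟩ := h1.exists_path
  obtain ⟨q, hq, hq'⟩ := h2.exists_path
  refine ⟨p, q, hp, hq, fun z hz => hA (hp' z hz), fun z hz => hB (hq' z hz), ?_⟩
  intro z hz hz'
  exact Set.disjoint_left.1 hAB (hp' z hz) (hq' z hz')

/-- Three joined pairs in pairwise disjoint sets are linked. -/
theorem linked3_of_joined {V : Type} {G : SimpleGraph V} {U A B C : Set V} {x y a c b d : V}
    (h0 : Joined G C x y) (h1 : Joined G A a c) (h2 : Joined G B b d) (hC : C ⊆ U) (hA : A ⊆ U)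
    (hB : B ⊆ U) (hCA : Disjoint C A) (hCB : Disjoint C B) (hAB : Disjoint A B) :
    Linked3 G U x y a c b d := by
  obtain ⟨r, hr, hr'⟩ := h0.exists_path
  obtain ⟨p, hp, hp'⟩ := h1.exists_path
  obtain ⟨q, hq, hq'⟩ := h2.exists_path
  refine ⟨r, p, q, hr, hp, hq, fun z hz => hC (hr' z hz), fun z hz => hA (hp' z hz),
    fun z hz => hB (hq' z hz), ?_, ?_, ?_⟩
  · intro z hz hz'
    exact Set.disjoint_left.1 hCA (hr' z hz) (hp' z hz')
  · intro z hz hz'
    exact Set.disjoint_left.1 hCB (hr' z hz) (hq' z hz')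
  · intro z hz hz'
    exact Set.disjoint_left.1 hAB (hp' z hz) (hq' z hz')

/-- **2-linkage avoiding few vertices**: in a polytope of dimension at least `|X| + 4` two pairs of
vertices outside `X` can be joined by disjoint paths avoiding `X`. -/
theorem linked2_avoid_aux {S : Finset E} (h : CP S) (X : Finset E) (hX : X.card + 4 ≤ dim S)
    (hXS : X ⊆ S) {a c b d : E} (ha : a ∈ S) (hc : c ∈ S) (hb : b ∈ S) (hd : d ∈ S)
    (haX : a ∉ X) (hcX : c ∉ X) (hbX : b ∉ X) (hdX : d ∉ X)
    (hab : a ≠ b) (had : a ≠ d) (hcb : c ≠ b) (hcd : c ≠ d) :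
    Linked2 (PG S) {z | z ∈ S ∧ z ∉ X} a c b d := by
  classical
  set T : Finset E := X ∪ {a, c, b, d} with hT
  have hTcard : T.card ≤ X.card + 4 := by
    refine (Finset.card_union_le _ _).trans (Nat.add_le_add_left ?_ _)
    exact (Finset.card_insert_le _ _).trans (Nat.succ_le_succ
      ((Finset.card_insert_le _ _).trans (Nat.succ_le_succ
        ((Finset.card_insert_le _ _).trans (Nat.succ_le_succ (by simp))))))
  have hTne : T.Nonempty := ⟨a, by simp [hT]⟩
  have hmX : ∀ z ∈ X, z ∈ T := fun z hz => by simp [hT, hz]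
  have hma : a ∈ T := by simp [hT]
  have hmc : c ∈ T := by simp [hT]
  have hmb : b ∈ T := by simp [hT]
  have hmd : d ∈ T := by simp [hT]
  -- the case of a cutting hyperplane
  have hcut : ∀ ℓ : E →ₗ[ℝ] ℝ, ∀ t : ℝ, (∀ w ∈ T, ℓ w = t) → (∃ x ∈ S, ℓ x < t) →
      (∃ x ∈ S, t < ℓ x) → Linked2 (PG S) {z | z ∈ S ∧ z ∉ X} a c b d := by
    intro ℓ t h1 h2 h3
    refine linked2_of_joined
      (joined_up h ℓ t ha hc (h1 a hma).ge (h1 c hmc).ge h3)
      (joined_down h ℓ t hb hd (h1 b hmb).le (h1 d hmd).le h2) ?_ ?_ ?_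
    · rintro z (hz | rfl | rfl)
      · exact ⟨hz.1, fun hzX => hz.2.ne' (h1 z (hmX z hzX))⟩
      · exact ⟨ha, haX⟩
      · exact ⟨hc, hcX⟩
    · rintro z (hz | rfl | rfl)
      · exact ⟨hz.1, fun hzX => hz.2.ne (h1 z (hmX z hzX))⟩
      · exact ⟨hb, hbX⟩
      · exact ⟨hd, hdX⟩
    · rw [Set.disjoint_left]
      rintro z (hz | hz) (hz' | hz')
      · exact absurd hz.2 (not_lt.2 hz'.2.le)
      · have : ℓ z = t := by
          rcases hz' with rfl | rfl
          · exact h1 z hmb
          · exact h1 z hmd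
        exact hz.2.ne' this
      · have : ℓ z = t := by
          rcases hz with rfl | rfl
          · exact h1 z hma
          · exact h1 z hmc
        exact hz'.2.ne this
      · rcases hz with rfl | rfl <;> rcases hz' with hz' | hz'
        · exact hab hz'
        · exact had hz'
        · exact hcb hz'
        · exact hcd hz'
  by_cases hdT : dim T + 2 ≤ dim S
  · obtain ⟨ℓ, t, h1, h2, h3⟩ := exists_cut hdT
    exact hcut ℓ t h1 h2 h3
  · have hdT' := dim_succ_le_card hTne
    obtain ⟨ℓ, t, h1, h2⟩ := exists_hyper_card ⟨a, ha⟩ (hTcard.trans hX)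
    rcases cut_or_face ℓ t h2 with ⟨h3, h4⟩ | ⟨m, e, h3, h4, h5⟩
    · exact hcut ℓ t h1 h3 h4
    · set R := S.filter fun x => m x = e with hR
      have hRf : IsFace S R := isFace_filter m e h3
      have hTm : ∀ w ∈ T, m w = e := fun w hw => (h5 w).1 (h1 w hw)
      have hRd : dim S ≤ dim R + 1 := by
        have h6 : dim T ≤ dim R := by
          refine dim_mono fun z hz => ?_
          rw [hR, Finset.mem_filter]
          refine ⟨?_, hTm z hz⟩
          rw [hT, Finset.mem_union] at hz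
          rcases hz with hz | hz
          · exact hXS hz
          · simp only [Finset.mem_insert, Finset.mem_singleton] at hz
            rcases hz with rfl | rfl | rfl | rfl <;> assumption
        omega
      -- `b - d` inside `R`, `a - c` outside
      have h6 : Joined (PG S) {x | x ∈ R ∧ x ∉ X ∪ {a, c}} b d := by
        refine balinski_face h hRf (X ∪ {a, c}) ?_ b ?_ d ?_
        · have : (X ∪ {a, c}).card ≤ X.card + 2 :=
            (Finset.card_union_le _ _).trans (Nat.add_le_add_left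
              ((Finset.card_insert_le _ _).trans (by simp)) _)
          omega
        · refine ⟨by simp [hR, hb, hTm b hmb], ?_⟩
          simp [hbX, hab.symm, hcb.symm]
        · refine ⟨by simp [hR, hd, hTm d hmd], ?_⟩
          simp [hdX, had.symm, hcd.symm]
      have h7 := joined_down h m e ha hc (hTm a hma).le (hTm c hmc).le h4
      refine linked2_of_joined h7 h6 ?_ ?_ ?_
      · rintro z (hz | rfl | rfl)
        · exact ⟨hz.1, fun hzX => hz.2.ne (hTm z (hmX z hzX))⟩
        · exact ⟨ha, haX⟩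
        · exact ⟨hc, hcX⟩
      · rintro z ⟨hz, hz'⟩
        refine ⟨hRf.subset hz, fun hzX => hz' ?_⟩
        rw [Finset.mem_union]
        exact Or.inl hzX
      · rw [Set.disjoint_left]
        rintro z (hz | hz) ⟨hz', hz''⟩
        · exact hz.2.ne (Finset.mem_filter.1 hz').2
        · apply hz''
          rw [Finset.mem_union]
          right
          simpa using hz

/-- **2-linkage avoiding few vertices**: in a polytope of dimension at least `|X| + 4` two pairs of
vertices outside `X` can be joined by disjoint paths avoiding `X`. -/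
theorem linked2_avoid {S : Finset E} (h : CP S) (X : Finset E) (hX : X.card + 4 ≤ dim S)
    {a c b d : E} (ha : a ∈ S) (hc : c ∈ S) (hb : b ∈ S) (hd : d ∈ S)
    (haX : a ∉ X) (hcX : c ∉ X) (hbX : b ∉ X) (hdX : d ∉ X)
    (hab : a ≠ b) (had : a ≠ d) (hcb : c ≠ b) (hcd : c ≠ d) :
    Linked2 (PG S) {z | z ∈ S ∧ z ∉ X} a c b d := by
  classical
  have h1 : (X ∩ S).card ≤ X.card := Finset.card_le_card Finset.inter_subset_left
  have h2 := linked2_avoid_aux h (X ∩ S) (by omega) Finset.inter_subset_right ha hc hb hd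
    (fun hz => haX (Finset.mem_inter.1 hz).1) (fun hz => hcX (Finset.mem_inter.1 hz).1)
    (fun hz => hbX (Finset.mem_inter.1 hz).1) (fun hz => hdX (Finset.mem_inter.1 hz).1)
    hab had hcb hcd
  have h3 : {z | z ∈ S ∧ z ∉ X ∩ S} = {z | z ∈ S ∧ z ∉ X} := by
    ext z
    simp only [Set.mem_ofPred_eq, Finset.mem_inter]
    tauto
  rwa [h3] at h2

end Conn

end Pool.Agent.P6
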