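import Pool.Agent.P6.Dim

set_option autoImplicit false

/-!
The vertices outside a flat: every vertex has a neighbour outside a proper flat, and the vertices
outside a flat of codimension at least two induce a connected graph.
-/

open Set

namespace Pool.Agent.P6

section Escape

variable {E : Type} [NormedAddCommGroup E] [NormedSpace ℝ E]

/-- Fact B, for a subspace `p` of directions and a base point `w`. -/
theorem exists_adj_notMem {S : Finset E} (h : CP S) (p : Submodule ℝ E) [FiniteDimensional ℝ p]
    (hp : Module.finrank ℝ p < dim S) {v w : E} (hv : v ∈ S) (hvw : v - w ∈ p) :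
    ∃ u, (PG S).Adj v u ∧ u - w ∉ p := by
  obtain ⟨x, hx, hxv⟩ := exists_sub_notMem S p hp v
  obtain ⟨f, hf1, hf2⟩ := Submodule.exists_le_ker_of_notMem hxv
  rw [map_sub, sub_ne_zero] at hf1
  have key : ∀ u, f u ≠ f v → u - w ∉ p := by
    intro u hu hc
    have h1 : f (u - v) = 0 := by
      have h2 : u - v = (u - w) - (v - w) := by abel
      have h3 : u - v ∈ p := by
        rw [h2]
        exact p.sub_mem hc hvw
      exact hf2 h3
    rw [map_sub, sub_eq_zero] at h1
    exact hu h1
  rcases lt_or_gt_of_ne hf1 with hlt | hlt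
  · obtain ⟨u, h1, h2⟩ := exists_adj_lt h hv hx f hlt
    exact ⟨u, h1, key u h2.ne⟩
  · obtain ⟨u, h1, h2⟩ := exists_adj_gt h hv hx f hlt
    exact ⟨u, h1, key u h2.ne'⟩

/-- Fact A, for a subspace `p` of directions and a base point `w`. -/
theorem connIn_notMem {S : Finset E} (h : CP S) (p : Submodule ℝ E) [FiniteDimensional ℝ p]
    (hp : Module.finrank ℝ p + 2 ≤ dim S) (w : E) :
    ConnIn (PG S) {v | v ∈ S ∧ v - w ∉ p} := by
  -- two vertices on the same side of a hyperplane through the flat are joined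
  have side : ∀ f : E →ₗ[ℝ] ℝ, (∀ u ∈ p, f u = 0) → ∀ a ∈ S, ∀ b ∈ S, 0 < f (a - w) →
      0 < f (b - w) → Joined (PG S) {v | v ∈ S ∧ v - w ∉ p} a b := by
    intro f hf a ha b hb ha' hb'
    have h1 := connIn_gt h f (f w) a ⟨ha, by rw [map_sub] at ha'; linarith⟩ b
      ⟨hb, by rw [map_sub] at hb'; linarith⟩
    refine h1.mono ?_
    rintro z ⟨hz, hz'⟩
    refine ⟨hz, fun hc => ?_⟩
    have := hf _ hc
    rw [map_sub] at this
    linarith
  -- two vertices whose directions are independent modulo `p` are joined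
  have indep : ∀ a ∈ S, ∀ b ∈ S, a - w ∉ p → b - w ∉ p ⊔ Submodule.span ℝ {a - w} →
      Joined (PG S) {v | v ∈ S ∧ v - w ∉ p} a b := by
    intro a ha b hb hap hbp
    have hap' : a - w ∉ p ⊔ Submodule.span ℝ {b - w} := by
      intro hc
      rw [Submodule.mem_sup] at hc
      obtain ⟨u, hu, v, hv, huv⟩ := hc
      rw [Submodule.mem_span_singleton] at hv
      obtain ⟨t, rfl⟩ := hv
      rcases eq_or_ne t 0 with rfl | ht
      · rw [zero_smul, add_zero] at huv
        exact hap (huv ▸ hu)
      · apply hbp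
        have h1 : b - w = t⁻¹ • ((a - w) - u) := by
          rw [← huv, add_sub_cancel_left, smul_smul, inv_mul_cancel₀ ht, one_smul]
        rw [h1]
        exact Submodule.smul_mem _ _ (Submodule.sub_mem _
          (Submodule.mem_sup_right (Submodule.mem_span_singleton_self _))
          (Submodule.mem_sup_left hu))
    obtain ⟨f, hf1, hf2⟩ := Submodule.exists_le_ker_of_notMem hbp
    obtain ⟨g, hg1, hg2⟩ := Submodule.exists_le_ker_of_notMem hap'
    have hfa : f (a - w) = 0 :=
      hf2 (Submodule.mem_sup_right (Submodule.mem_span_singleton_self _))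
    have hgb : g (b - w) = 0 :=
      hg2 (Submodule.mem_sup_right (Submodule.mem_span_singleton_self _))
    set m : E →ₗ[ℝ] ℝ := (g (a - w))⁻¹ • g + (f (b - w))⁻¹ • f with hm
    refine side m (fun u hu => ?_) a ha b hb ?_ ?_
    · have h2 : f u = 0 := hf2 (Submodule.mem_sup_left hu)
      have h3 : g u = 0 := hg2 (Submodule.mem_sup_left hu)
      simp [hm, h2, h3]
    · simp only [hm, LinearMap.add_apply, LinearMap.smul_apply, smul_eq_mul, hfa]
      rw [inv_mul_cancel₀ hg1]
      norm_num
    · simp only [hm, LinearMap.add_apply, LinearMap.smul_apply, smul_eq_mul, hgb]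
      rw [inv_mul_cancel₀ hf1]
      norm_num
  intro a ha b hb
  by_cases hb' : b - w ∉ p ⊔ Submodule.span ℝ {a - w}
  · exact indep a ha.1 b hb.1 ha.2 hb'
  · rw [not_not] at hb'
    -- a third vertex
    have hq : Module.finrank ℝ (p ⊔ Submodule.span ℝ {a - w} : Submodule ℝ E) < dim S := by
      have h1 := Submodule.finrank_add_le_finrank_add_finrank p (Submodule.span ℝ {a - w})
      have h2 : Module.finrank ℝ (Submodule.span ℝ ({a - w} : Set E)) ≤ 1 := by
        have := finrank_span_finset_le_card (R := ℝ) ({a - w} : Finset E)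
        rw [Finset.coe_singleton, Finset.card_singleton] at this
        exact this
      omega
    obtain ⟨z, hz, hzq⟩ := exists_sub_notMem S (p ⊔ Submodule.span ℝ {a - w}) hq w
    have h1 := indep a ha.1 z hz ha.2 hzq
    have h2 : z - w ∉ p ⊔ Submodule.span ℝ {b - w} := by
      intro hc
      apply hzq
      refine (sup_le le_sup_left ?_ : p ⊔ Submodule.span ℝ {b - w} ≤
        p ⊔ Submodule.span ℝ {a - w}) hc
      rw [Submodule.span_le, Set.singleton_subset_iff]
      exact hb'
    have h3 := indep b hb.1 z hz hb.2 h2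
    exact h1.trans h3.symm

/-- Fact B. -/
theorem factB {S : Finset E} (h : CP S) {W : Finset E} (hW : dim W < dim S) {v w : E}
    (hv : v ∈ S) (hvw : v - w ∈ vectorSpan ℝ (W : Set E)) :
    ∃ u, (PG S).Adj v u ∧ u - w ∉ vectorSpan ℝ (W : Set E) :=
  exists_adj_notMem h _ hW hv hvw

/-- Fact A. -/
theorem factA {S : Finset E} (h : CP S) {W : Finset E} (hW : dim W + 2 ≤ dim S) (w : E) :
    ConnIn (PG S) {v | v ∈ S ∧ v - w ∉ vectorSpan ℝ (W : Set E)} :=
  connIn_notMem h _ hW w

end Escape

end Pool.Agent.P6
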