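import Pool.Agent.P6.Dim

set_option autoImplicit false

/-!
The vertex figure of a polytope at a vertex `x`, and the two-dimensional faces through `x`.
-/

open Set

namespace Pool.Agent.P6

section Fig

variable {E : Type} [NormedAddCommGroup E] [NormedSpace ℝ E]

/-- Three vertices are not collinear. -/
theorem CP.pair_indep {S : Finset E} (h : CP S) {x u v : E} (hx : x ∈ S) (hu : u ∈ S) (hv : v ∈ S)
    (hxu : u ≠ x) (hxv : v ≠ x) (huv : u ≠ v) {a b : ℝ} (he : a • (u - x) + b • (v - x) = 0) :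
    a = 0 ∧ b = 0 := by
  by_cases ha : a = 0
  · subst ha
    rw [zero_smul, zero_add] at he
    rcases smul_eq_zero.1 he with hb | hb
    · exact ⟨rfl, hb⟩
    · exact absurd (sub_eq_zero.1 hb) hxv
  · exfalso
    -- `u - x = s • (v - x)`
    set s : ℝ := -(a⁻¹ * b) with hs
    have h1 : u - x = s • (v - x) := by
      have h2 : a⁻¹ • (a • (u - x) + b • (v - x)) = 0 := by rw [he, smul_zero]
      rw [smul_add, smul_smul, smul_smul, inv_mul_cancel₀ ha, one_smul] at h2
      rw [hs, neg_smul]
      exact eq_neg_of_add_eq_zero_left h2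
    rcases lt_trichotomy s 0 with h0 | h0 | h0
    · -- `x` between `u` and `v`
      have h3 : 0 < 1 - s := by linarith
      refine h.not_between hx hu hv hxu hxv (-s / (1 - s)) (div_nonneg (by linarith) h3.le)
        ((div_le_one h3).2 (by linarith)) ?_
      have h4 : v - u = (1 - s) • (v - x) := by
        rw [sub_smul, one_smul, ← h1]
        abel
      rw [h4, smul_smul, div_mul_cancel₀ _ h3.ne', neg_smul, ← h1]
      abel
    · rw [h0, zero_smul] at h1
      exact hxu (sub_eq_zero.1 h1)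
    · rcases le_or_gt s 1 with h3 | h3
      · -- `u` between `x` and `v`
        refine h.not_between hu hx hv hxu.symm huv.symm s h0.le h3 ?_
        rw [← h1]
        abel
      · -- `v` between `x` and `u`
        refine h.not_between hv hx hu hxv.symm huv s⁻¹ (inv_nonneg.2 h0.le)
          (inv_le_one_of_one_le₀ h3.le) ?_
        rw [h1, smul_smul, inv_mul_cancel₀ h0.ne', one_smul]
        abel

/-- The edge directions at `x` span the directions of the polytope. -/
theorem sub_mem_span_adj {S : Finset E} (h : CP S) {x v : E} (hx : x ∈ S) (hv : v ∈ S) :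
    v - x ∈ Submodule.span ℝ {u | ∃ w, (PG S).Adj x w ∧ u = w - x} := by
  by_contra hc
  obtain ⟨f, hf1, hf2⟩ := Submodule.exists_le_ker_of_notMem hc
  have hw : ∀ w, (PG S).Adj x w → f w = f x := by
    intro w hw
    have := hf2 (Submodule.subset_span ⟨w, hw, rfl⟩)
    rw [LinearMap.mem_ker, map_sub, sub_eq_zero] at this
    exact this
  rw [map_sub, sub_ne_zero] at hf1
  rcases lt_or_gt_of_ne hf1 with hlt | hlt
  · obtain ⟨w, h1, h2⟩ := exists_adj_lt h hx hv f hlt
    exact h2.ne (hw w h1)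
  · obtain ⟨w, h1, h2⟩ := exists_adj_gt h hx hv f hlt
    exact h2.ne' (hw w h1)

/-- `F` is a two-dimensional face of `S` containing `x`, and `p ≠ q` are the two neighbours of `x`
in `F`. -/
structure Corner2 (S : Finset E) (x p q : E) (F : Finset E) : Prop where
  face : IsFace S F
  hx : x ∈ F
  hp : p ∈ F
  hq : q ∈ F
  adj_p : (PG S).Adj x p
  adj_q : (PG S).Adj x q
  ne : p ≠ q
  only : ∀ w, (PG S).Adj x w → w ∈ F → w = p ∨ w = q

variable {S : Finset E} {x p q p' q' : E} {F F' : Finset E}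

theorem Corner2.symm (h : Corner2 S x p q F) : Corner2 S x q p F :=
  ⟨h.face, h.hx, h.hq, h.hp, h.adj_q, h.adj_p, h.ne.symm, fun w h1 h2 => (h.only w h1 h2).symm⟩

theorem Corner2.sub_mem (h : Corner2 S x p q F) (hS : CP S) {v : E} (hv : v ∈ F) :
    v - x ∈ Submodule.span ℝ {p - x, q - x} := by
  have h1 := sub_mem_span_adj (hS.subset h.face.subset) h.hx hv
  refine Submodule.span_mono ?_ h1
  rintro u ⟨w, hw, rfl⟩
  have h2 : (PG S).Adj x w := h.face.le hw
  rcases h.only w h2 hw.2.1 with rfl | rfl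
  · exact Or.inl rfl
  · exact Or.inr rfl

theorem Corner2.finrank_le : Module.finrank ℝ (Submodule.span ℝ {p - x, q - x}) ≤ 2 := by
  classical
  have := finrank_span_finset_le_card (R := ℝ) ({p - x, q - x} : Finset E)
  have h2 : ({p - x, q - x} : Finset E).card ≤ 2 := Finset.card_le_two
  rw [Finset.coe_pair] at this
  exact this.trans h2

theorem finrank_pair {S : Finset E} (h : CP S) {x u v : E} (hx : x ∈ S) (hu : u ∈ S) (hv : v ∈ S)
    (hxu : u ≠ x) (hxv : v ≠ x) (huv : u ≠ v) :
    Module.finrank ℝ (Submodule.span ℝ {u - x, v - x}) = 2 := by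
  have h1 : LinearIndependent ℝ ![u - x, v - x] := by
    rw [LinearIndependent.pair_iff]
    intro a b he
    exact h.pair_indep hx hu hv hxu hxv huv he
  have h2 := finrank_span_eq_card h1
  have h3 : Set.range ![u - x, v - x] = {u - x, v - x} := by
    rw [Matrix.range_cons, Matrix.range_cons, Matrix.range_empty, Set.union_empty]
    rfl
  rw [h3] at h2
  rw [h2]
  simp

/-- The face `F` lies in the plane through `x` and any two other vertices of `F`. -/
theorem Corner2.mem_span_pair (h : Corner2 S x p q F) (hS : CP S) {u v w : E} (hu : u ∈ F)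
    (hv : v ∈ F) (hux : u ≠ x) (hvx : v ≠ x) (huv : u ≠ v) (hw : w ∈ F) :
    w - x ∈ Submodule.span ℝ {u - x, v - x} := by
  have h1 : Submodule.span ℝ {u - x, v - x} ≤ Submodule.span ℝ {p - x, q - x} := by
    rw [Submodule.span_le]
    rintro z (rfl | rfl)
    · exact h.sub_mem hS hu
    · exact h.sub_mem hS hv
  have hs := h.face.subset
  have h2 := finrank_pair hS (hs h.hx) (hs hu) (hs hv) hux hvx huv
  have : FiniteDimensional ℝ (Submodule.span ℝ ({p - x, q - x} : Set E)) :=
    FiniteDimensional.span_of_finite ℝ (by simp)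
  have h3 := Submodule.eq_of_le_of_finrank_le h1 (by
    rw [h2]
    exact Corner2.finrank_le)
  rw [h3]
  exact h.sub_mem hS hw

theorem Corner2.one_lt_dim (h : Corner2 S x p q F) (hS : CP S) : 1 < dim F := by
  have hs := h.face.subset
  have h1 := finrank_pair hS (hs h.hx) (hs h.hp) (hs h.hq) h.adj_p.2.2.1.symm
    h.adj_q.2.2.1.symm h.ne
  have h2 : Submodule.span ℝ {p - x, q - x} ≤ vectorSpan ℝ (F : Set E) := by
    rw [Submodule.span_le]
    rintro z (rfl | rfl)
    · exact sub_mem_vectorSpan h.hp h.hx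
    · exact sub_mem_vectorSpan h.hq h.hx
  have h3 := Submodule.finrank_mono h2
  unfold dim
  omega

/-- The arc: a path from `p` to `q` in the two-dimensional face avoiding `x`. -/
theorem Corner2.exists_arc (h : Corner2 S x p q F) (hS : CP S) :
    ∃ w : (PG S).Walk p q, w.IsPath ∧ ∀ z ∈ w.support, z ∈ F ∧ z ≠ x := by
  have h1 := balinski_face hS h.face {x} (by
    rw [Finset.card_singleton]
    exact h.one_lt_dim hS) p ⟨h.hp, by simpa using h.adj_p.2.2.1.symm⟩ q
    ⟨h.hq, by simpa using h.adj_q.2.2.1.symm⟩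
  obtain ⟨w, hw, hw'⟩ := h1.exists_path
  exact ⟨w, hw, fun z hz => ⟨(hw' z hz).1, by simpa using (hw' z hz).2⟩⟩

/-- Two different two-dimensional faces through `x` meet, apart from `x`, at most in a common
corner. -/
theorem Corner2.inter (h : Corner2 S x p q F) (h' : Corner2 S x p' q' F') (hS : CP S)
    (hne : ¬ (p' = p ∧ q' = q) ∧ ¬ (p' = q ∧ q' = p)) {v : E} (hv : v ∈ F) (hv' : v ∈ F')
    (hvx : v ≠ x) : (v = p ∨ v = q) ∧ (v = p' ∨ v = q') := by
  classical
  have hK : IsFace S (F ∩ F') := h.face.inter h'.face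
  have hxK : x ∈ F ∩ F' := Finset.mem_inter.2 ⟨h.hx, h'.hx⟩
  have hvK : v ∈ F ∩ F' := Finset.mem_inter.2 ⟨hv, hv'⟩
  have h1 := sub_mem_span_adj (hS.subset hK.subset) hxK hvK
  -- the only possible neighbour
  obtain ⟨n, hn⟩ : ∃ n, ∀ w, (PG (F ∩ F')).Adj x w → w = n := by
    by_cases hex : ∃ w, (PG (F ∩ F')).Adj x w
    · obtain ⟨n, hn⟩ := hex
      refine ⟨n, fun w hw => ?_⟩
      by_contra hwn
      have a1 := h.only w (hK.le hw) (Finset.mem_inter.1 hw.2.1).1
      have a2 := h.only n (hK.le hn) (Finset.mem_inter.1 hn.2.1).1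
      have a3 := h'.only w (hK.le hw) (Finset.mem_inter.1 hw.2.1).2
      have a4 := h'.only n (hK.le hn) (Finset.mem_inter.1 hn.2.1).2
      obtain ⟨b1, b2⟩ := hne
      rcases a1 with c1 | c1 <;> rcases a2 with c2 | c2 <;> rcases a3 with c3 | c3 <;>
        rcases a4 with c4 | c4 <;> first
        | exact hwn (c1.trans c2.symm)
        | exact hwn (c3.trans c4.symm)
        | exact b1 ⟨c3.symm.trans c1, c4.symm.trans c2⟩
        | exact b1 ⟨c4.symm.trans c2, c3.symm.trans c1⟩
        | exact b2 ⟨c3.symm.trans c1, c4.symm.trans c2⟩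
        | exact b2 ⟨c4.symm.trans c2, c3.symm.trans c1⟩
    · push Not at hex
      exact ⟨x, fun w hw => absurd hw (hex w)⟩
  have h2 : v - x ∈ Submodule.span ℝ {n - x} := by
    refine Submodule.span_mono ?_ h1
    rintro u ⟨w, hw, rfl⟩
    rw [hn w hw]
    rfl
  by_cases hex : ∃ w, (PG (F ∩ F')).Adj x w
  · obtain ⟨w, hw⟩ := hex
    have hwn := hn w hw
    subst hwn
    have hnK := hw.2.1
    have hvn : v = w := by
      by_contra hvn
      rw [Submodule.mem_span_singleton] at h2
      obtain ⟨t, ht⟩ := h2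
      have h3 := (hS.subset hK.subset).pair_indep hxK hvK hnK hvx hw.2.2.1.symm hvn
        (a := 1) (b := -t) (by rw [one_smul, neg_smul, ht, add_neg_cancel])
      exact one_ne_zero h3.1
    rw [hvn]
    exact ⟨h.only w (hK.le hw) (Finset.mem_inter.1 hnK).1,
      h'.only w (hK.le hw) (Finset.mem_inter.1 hnK).2⟩
  · exfalso
    push Not at hex
    have h3 : v - x ∈ (⊥ : Submodule ℝ E) := by
      rw [← Submodule.span_empty]
      refine Submodule.span_mono ?_ h1
      rintro u ⟨w, hw, rfl⟩
      exact hex w hw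
    rw [Submodule.mem_bot, sub_eq_zero] at h3
    exact hvx h3

/-- **The vertex figure.** -/
theorem exists_figure {S : Finset E} (h : CP S) {x : E} (hx : x ∈ S) :
    ∃ pt : E → E, ∃ Q : Finset E, CP Q ∧ dim S ≤ dim Q + 1 ∧
      (∀ w, (PG S).Adj x w → pt w ∈ Q) ∧ (∀ u ∈ Q, ∃ w, (PG S).Adj x w ∧ pt w = u) ∧
      (∀ w w', (PG S).Adj x w → (PG S).Adj x w' → pt w = pt w' → w = w') ∧
      ∀ p q, (PG S).Adj x p → (PG S).Adj x q → (PG Q).Adj (pt p) (pt q) →
        ∃ F, Corner2 S x p q F := by
  classical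
  obtain ⟨c, hc⟩ := h.sep hx
  set ρ : E → ℝ := fun y => c x - c y with hρ
  have hρpos : ∀ y ∈ S, y ≠ x → 0 < ρ y := fun y hy hne => sub_pos.2 (hc y hy hne)
  set pt : E → E := fun y => (ρ y)⁻¹ • (y - x) with hpt
  have hsmul : ∀ y ∈ S, y ≠ x → y - x = ρ y • pt y := by
    intro y hy hne
    rw [hpt]
    simp only
    rw [smul_smul, mul_inv_cancel₀ (hρpos y hy hne).ne', one_smul]
  have hval : ∀ m : E →ₗ[ℝ] ℝ, ∀ y ∈ S, y ≠ x → m y - m x = ρ y * m (pt y) := by
    intro m y hy hne
    rw [← map_sub, hsmul y hy hne, map_smul, smul_eq_mul]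
  have hshift : ∀ m : E →ₗ[ℝ] ℝ, ∀ t : ℝ, ∀ y ∈ S, y ≠ x →
      (m + t • c) y - (m + t • c) x = ρ y * (m (pt y) - t) := by
    intro m t y hy hne
    have h1 := hval m y hy hne
    simp only [LinearMap.add_apply, LinearMap.smul_apply, smul_eq_mul]
    simp only [hρ] at h1 ⊢
    linarith
  -- exposing functionals for the neighbours
  have hexp : ∀ w, (PG S).Adj x w → ∃ m : E →ₗ[ℝ] ℝ, m (pt w) = 0 ∧
      ∀ y ∈ S, y ≠ x → y ≠ w → m (pt y) < 0 := by
    intro w hw
    obtain ⟨h1, h2, h3, m, h4, h5⟩ := hw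
    refine ⟨m, ?_, fun y hy hyx hyw => ?_⟩
    · have := hval m w h2 h3.symm
      rw [h4, sub_self] at this
      exact (mul_eq_zero.1 this.symm).resolve_left (hρpos w h2 h3.symm).ne'
    · have h6 := hval m y hy hyx
      have h7 : m y < m x := lt_of_le_of_ne (h5 y hy).1 fun he => by
        rcases (h5 y hy).2 he with h8 | h8
        · exact hyx h8
        · exact hyw h8
      have h8 : ρ y * m (pt y) < 0 := by linarith
      by_contra h9
      exact absurd h8 (not_lt.2 (mul_nonneg (hρpos y hy hyx).le (not_lt.1 h9)))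
  have hinj : ∀ w w', (PG S).Adj x w → (PG S).Adj x w' → pt w = pt w' → w = w' := by
    intro w w' hw hw' he
    by_contra hne
    obtain ⟨m, h1, h2⟩ := hexp w hw
    have h3 := h2 w' hw'.2.1 hw'.2.2.1.symm (Ne.symm hne)
    rw [← he, h1] at h3
    exact lt_irrefl _ h3
  set N : Finset E := S.filter fun w => (PG S).Adj x w with hN
  have hNmem : ∀ w, w ∈ N ↔ (PG S).Adj x w := by
    intro w
    rw [hN, Finset.mem_filter]
    exact ⟨fun hw => hw.2, fun hw => ⟨hw.2.1, hw⟩⟩
  set Q : Finset E := N.image pt with hQ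
  have hQmem : ∀ u, u ∈ Q ↔ ∃ w, (PG S).Adj x w ∧ pt w = u := by
    intro u
    rw [hQ, Finset.mem_image]
    constructor
    · rintro ⟨w, hw, rfl⟩
      exact ⟨w, (hNmem w).1 hw, rfl⟩
    · rintro ⟨w, hw, rfl⟩
      exact ⟨w, (hNmem w).2 hw, rfl⟩
  -- the maximum over all vertices is attained at a neighbour
  have hmax : ∀ m : E →ₗ[ℝ] ℝ, ∀ t : ℝ, (∀ w, (PG S).Adj x w → m (pt w) ≤ t) →
      ∀ y ∈ S, y ≠ x → m (pt y) ≤ t := by
    intro m t hm y hy hyx
    by_contra hlt
    rw [not_le] at hlt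
    have h1 := hshift m t y hy hyx
    have h2 : 0 < ρ y * (m (pt y) - t) := mul_pos (hρpos y hy hyx) (sub_pos.2 hlt)
    obtain ⟨w, hw, hw'⟩ := exists_adj_gt h hx hy (m + t • c) (by linarith)
    have h3 := hshift m t w hw.2.1 hw.2.2.1.symm
    have h4 : 0 < ρ w * (m (pt w) - t) := by linarith
    have h5 := (mul_pos_iff_of_pos_left (hρpos w hw.2.1 hw.2.2.1.symm)).1 h4
    linarith [hm w hw]
  refine ⟨pt, Q, ?_, ?_, fun w hw => (hQmem _).2 ⟨w, hw, rfl⟩, fun u hu => (hQmem u).1 hu,
    hinj, ?_⟩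
  · -- convex position
    intro u hu hcon
    obtain ⟨w, hw, rfl⟩ := (hQmem u).1 hu
    obtain ⟨m, h1, h2⟩ := hexp w hw
    have h3 : convexHull ℝ ((Q : Set E) \ {pt w}) ⊆ {z | m z < 0} := by
      refine convexHull_min ?_ (convex_halfSpace_lt m.isLinear 0)
      rintro z ⟨hz, hzw⟩
      obtain ⟨w', hw', rfl⟩ := (hQmem z).1 hz
      refine h2 w' hw'.2.1 hw'.2.2.1.symm ?_
      rintro rfl
      exact hzw rfl
    have h4 : m (pt w) < 0 := h3 hcon
    rw [h1] at h4
    exact lt_irrefl _ h4
  · -- dimension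
    rcases Q.eq_empty_or_nonempty with hQe | ⟨u0, hu0⟩
    · have h1 : ∀ w, ¬ (PG S).Adj x w := by
        intro w hw
        have : pt w ∈ Q := (hQmem _).2 ⟨w, hw, rfl⟩
        rw [hQe] at this
        simp at this
      have h2 : vectorSpan ℝ (S : Set E) ≤ ⊥ := by
        rw [vectorSpan, Submodule.span_le]
        have h3 : ∀ v ∈ S, v = x := by
          intro v hv
          have h4 := sub_mem_span_adj h hx hv
          have h5 : {u | ∃ w, (PG S).Adj x w ∧ u = w - x} = (∅ : Set E) := by
            ext u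
            simp only [Set.mem_ofPred_eq, Set.mem_empty_iff_false, iff_false]
            rintro ⟨w, hw, -⟩
            exact h1 w hw
          rw [h5, Submodule.span_empty, Submodule.mem_bot, sub_eq_zero] at h4
          exact h4
        rintro _ ⟨u, hu, v, hv, rfl⟩
        simp [h3 u hu, h3 v hv]
      have h3 : dim S ≤ Module.finrank ℝ (⊥ : Submodule ℝ E) := Submodule.finrank_mono h2
      rw [finrank_bot] at h3
      omega
    · have h1 : vectorSpan ℝ (S : Set E) ≤
          vectorSpan ℝ (Q : Set E) ⊔ Submodule.span ℝ {u0} := by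
        have h2 : ∀ u ∈ Q, u ∈ vectorSpan ℝ (Q : Set E) ⊔ Submodule.span ℝ {u0} := by
          intro u hu
          have h3 : u = (u - u0) + u0 := by abel
          rw [h3]
          exact Submodule.add_mem _ (Submodule.mem_sup_left (sub_mem_vectorSpan hu hu0))
            (Submodule.mem_sup_right (Submodule.mem_span_singleton_self _))
        have h3 : ∀ v ∈ S, v - x ∈ vectorSpan ℝ (Q : Set E) ⊔ Submodule.span ℝ {u0} := by
          intro v hv
          have h4 := sub_mem_span_adj h hx hv
          refine Submodule.span_le.2 ?_ h4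
          rintro u ⟨w, hw, rfl⟩
          simp only [SetLike.mem_coe]
          rw [hsmul w hw.2.1 hw.2.2.1.symm]
          exact Submodule.smul_mem _ _ (h2 _ ((hQmem _).2 ⟨w, hw, rfl⟩))
        rw [vectorSpan, Submodule.span_le]
        rintro _ ⟨u, hu, v, hv, rfl⟩
        have h5 : u -ᵥ v = (u - x) - (v - x) := by
          rw [vsub_eq_sub]
          abel
        simp only [SetLike.mem_coe]
        rw [h5]
        exact Submodule.sub_mem _ (h3 u hu) (h3 v hv)
      have h2 : Module.finrank ℝ (Submodule.span ℝ ({u0} : Set E)) ≤ 1 := by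
        have := finrank_span_finset_le_card (R := ℝ) ({u0} : Finset E)
        rw [Finset.coe_singleton, Finset.card_singleton] at this
        exact this
      have h3 := Submodule.finrank_add_le_finrank_add_finrank (vectorSpan ℝ (Q : Set E))
        (Submodule.span ℝ {u0})
      have h4 := Submodule.finrank_mono h1
      unfold dim
      omega
  · -- edges of the figure
    intro p q hp hq hadj
    obtain ⟨h1, h2, h3, m, h4, h5⟩ := hadj
    set t := m (pt p) with ht
    have hle : ∀ w, (PG S).Adj x w → m (pt w) ≤ t := fun w hw =>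
      (h5 _ ((hQmem _).2 ⟨w, hw, rfl⟩)).1
    have hleS := hmax m t hle
    set g : E →ₗ[ℝ] ℝ := m + t • c with hg
    have hgS : ∀ y ∈ S, g y ≤ g x := by
      intro y hy
      by_cases hyx : y = x
      · rw [hyx]
      · have h6 := hshift m t y hy hyx
        have h7 := mul_nonpos_of_nonneg_of_nonpos (hρpos y hy hyx).le
          (sub_nonpos.2 (hleS y hy hyx))
        linarith
    have hgE : ∀ y ∈ S, y ≠ x → (g y = g x ↔ m (pt y) = t) := by
      intro y hy hyx
      have h6 := hshift m t y hy hyx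
      have h7 := (hρpos y hy hyx).ne'
      constructor
      · intro he
        have h8 : ρ y * (m (pt y) - t) = 0 := by
          rw [← h6]
          linarith
        exact sub_eq_zero.1 ((mul_eq_zero.1 h8).resolve_left h7)
      · intro he
        rw [he, sub_self, mul_zero] at h6
        linarith
    have hpx : p ≠ x := hp.2.2.1.symm
    have hqx : q ≠ x := hq.2.2.1.symm
    refine ⟨S.filter fun y => g y = g x, isFace_filter g _ hgS, by simp [hx], ?_, ?_, hp, hq,
      ?_, ?_⟩
    · rw [Finset.mem_filter]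
      exact ⟨hp.2.1, (hgE p hp.2.1 hpx).2 rfl⟩
    · rw [Finset.mem_filter]
      exact ⟨hq.2.1, (hgE q hq.2.1 hqx).2 h4⟩
    · rintro rfl
      exact h3 rfl
    · intro w hw hwF
      have h6 := (hgE w hw.2.1 hw.2.2.1.symm).1 (Finset.mem_filter.1 hwF).2
      rcases (h5 _ ((hQmem _).2 ⟨w, hw, rfl⟩)).2 h6 with h7 | h7
      · exact Or.inl (hinj w p hw hp h7)
      · exact Or.inr (hinj w q hw hq h7)

end Fig

end Pool.Agent.P6
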