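import Pool.Agent.P6.StarDefs
import Pool.Agent.P6.Fig
import Pool.Agent.P6.Escape

set_option autoImplicit false

/-!
G2: the escape property of the local picture of a six-dimensional polytope at a vertex.
-/

open Set

namespace Pool.Agent.P6

section Esc

variable {E : Type} [NormedAddCommGroup E] [NormedSpace ℝ E]

theorem Joined.first_step {V : Type} {G : SimpleGraph V} {U : Set V} {a b : V}
    (h : Joined G U a b) (hab : a ≠ b) : ∃ w, G.Adj a w ∧ Joined G U w b := by
  obtain ⟨p, hp⟩ := h
  cases p with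
  | nil => exact absurd rfl hab
  | cons hadj q =>
    exact ⟨_, hadj, q, fun z hz => hp z (by
      rw [SimpleGraph.Walk.support_cons]
      exact List.mem_cons_of_mem _ hz)⟩

theorem InCone.mem_span {x p q v : E} (h : InCone x p q v) :
    v - x ∈ Submodule.span ℝ {p - x, q - x} := by
  obtain ⟨α, β, -, -, he⟩ := h
  rw [he]
  exact Submodule.add_mem _ (Submodule.smul_mem _ _ (Submodule.subset_span (by simp)))
    (Submodule.smul_mem _ _ (Submodule.subset_span (by simp)))

/-- The plane of a cone is spanned by any two of its vertices. -/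
theorem InCone.mem_span_pair {S : Finset E} (h : CP S) {x p q u v w : E} (hx : x ∈ S) (hu : u ∈ S)
    (hv : v ∈ S) (hux : u ≠ x) (hvx : v ≠ x) (huv : u ≠ v) (h1 : InCone x p q u)
    (h2 : InCone x p q v) (h3 : InCone x p q w) :
    w - x ∈ Submodule.span ℝ {u - x, v - x} := by
  have h4 : Submodule.span ℝ {u - x, v - x} ≤ Submodule.span ℝ {p - x, q - x} := by
    rw [Submodule.span_le]
    rintro z (rfl | rfl)
    · exact h1.mem_span
    · exact h2.mem_span
  have h5 := finrank_pair h hx hu hv hux hvx huv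
  have : FiniteDimensional ℝ (Submodule.span ℝ ({p - x, q - x} : Set E)) :=
    FiniteDimensional.span_of_finite ℝ (by simp)
  have h6 := Submodule.eq_of_le_of_finrank_le h4 (by
    rw [h5]
    exact Corner2.finrank_le)
  rw [h6]
  exact h3.mem_span

/-- **G2** -/
theorem star_esc [FiniteDimensional ℝ E] {S : Finset E} (h : CP S) (hd : dim S = 6) {x : E}
    (hx : x ∈ S) (D : Star (PG S) x) (hQ : D.QA = cQA S x) (hA : D.arc = cArc S x) :
    D.Esc S 4 := by
  classical
  intro C hC hCS u hu hux huC huc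
  set W : Finset E := insert x C with hW
  have hxW : x ∈ W := Finset.mem_insert_self _ _
  have hWc : W.card ≤ 5 := (Finset.card_insert_le _ _).trans (by omega)
  have hWd : dim W + 2 ≤ dim S := by
    have := dim_succ_le_card (W := W) ⟨x, hxW⟩
    omega
  -- the closure lies in the flat
  have hcl : {v | v ∈ S ∧ v - x ∉ vectorSpan ℝ (W : Set E)} ⊆ (D.Cl C)ᶜ := by
    rintro v ⟨-, hv2⟩ hcl
    apply hv2
    rcases hcl with rfl | hvC | ⟨p, q, -, hv, c₁, hc₁, c₂, hc₂, hne, h1, h2⟩
    · rw [sub_self]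
      exact Submodule.zero_mem _
    · exact sub_mem_vectorSpan (Finset.mem_insert_of_mem hvC) hxW
    · rw [hA] at hv h1 h2
      obtain ⟨hvS, hvx, hv'⟩ := hv
      obtain ⟨h1S, h1x, h1'⟩ := h1
      obtain ⟨h2S, h2x, h2'⟩ := h2
      have h3 := InCone.mem_span_pair h hx h1S h2S h1x h2x hne h1' h2' hv'
      refine (Submodule.span_le.2 ?_) h3
      rintro z (rfl | rfl)
      · exact sub_mem_vectorSpan (Finset.mem_insert_of_mem hc₁) hxW
      · exact sub_mem_vectorSpan (Finset.mem_insert_of_mem hc₂) hxW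
  -- a corner outside of the flat
  obtain ⟨n, hn, hn'⟩ := factB h (W := W) (by omega) (v := x) (w := x) hx (by
    rw [sub_self]
    exact Submodule.zero_mem _)
  have hconn := factA h hWd x
  by_cases huF : u - x ∈ vectorSpan ℝ (W : Set E)
  · obtain ⟨w, hw, hw'⟩ := factB h (W := W) (by omega) hu huF
    exact ⟨w, n, hw, hn, (hconn w ⟨hw.2.1, hw'⟩ n ⟨hn.2.1, hn'⟩).mono hcl⟩
  · have hun : u ≠ n := by
      rintro rfl
      exact huc hn
    obtain ⟨w, hw, hw'⟩ := (hconn u ⟨hu, huF⟩ n ⟨hn.2.1, hn'⟩).first_step hun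
    exact ⟨w, n, hw, hn, hw'.mono hcl⟩

end Esc

end Pool.Agent.P6
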