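import Pool.Agent.P6.Transfer

set_option autoImplicit false

/-! Row R10: the frozen statement from the linkedness of the graphs `PG S` (paths in the whole space). -/

namespace Pool.Agent.P6

variable {E : Type} [NormedAddCommGroup E] [NormedSpace ℝ E]

theorem support_sub {S : Finset E} {a b : E} (p : (PG S).Walk a b) (hb : b ∈ S) :
    ∀ z ∈ p.support, z ∈ S := by
  induction p with
  | nil =>
    intro z hz
    simp only [SimpleGraph.Walk.support_nil, List.mem_singleton] at hz
    exact hz ▸ hb
  | @cons u v w h p ih =>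
    intro z hz
    rw [SimpleGraph.Walk.support_cons, List.mem_cons] at hz
    rcases hz with rfl | hz
    · exact h.1
    · exact ih hb z hz

/-- The frozen statement S06931 from the linkedness of `PG S`, with the paths in the whole space. -/
theorem frozen_of_univ
    (h : ∀ S : Finset (EuclideanSpace ℝ (Fin 6)), CP S → dim S = 6 →
      ∀ x y a b c d : EuclideanSpace ℝ (Fin 6), x ∈ S → y ∈ S → a ∈ S → b ∈ S → c ∈ S → d ∈ S →
        [x, y, a, b, c, d].Nodup → Linked3 (PG S) Set.univ x y a b c d) :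
    ∀ S : Finset (EuclideanSpace ℝ (Fin 6)),
      (interior (convexHull ℝ (S : Set (EuclideanSpace ℝ (Fin 6))))).Nonempty →
      (∀ x ∈ S, x ∈ Set.extremePoints ℝ (convexHull ℝ (S : Set (EuclideanSpace ℝ (Fin 6))))) →
      ∀ s t : Fin 3 → S, Function.Injective (Sum.elim s t) →
        ∃ p : ∀ i, (SimpleGraph.fromRel (fun a b : S =>
              ∃ ℓ : EuclideanSpace ℝ (Fin 6) →ₗ[ℝ] ℝ,
                ℓ b.1 = ℓ a.1 ∧
                ∀ x ∈ S, ℓ x ≤ ℓ a.1 ∧ (ℓ x = ℓ a.1 → x ∈ segment ℝ a.1 b.1))).Walk (s i) (t i),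
          (∀ i, (p i).IsPath) ∧
          ∀ i j, i ≠ j → List.Disjoint (p i).support (p j).support := by
  refine frozen_of fun S hS hd x y a c b d hn hz => ?_
  have hx : x ∈ S := hz x (by simp)
  have hy : y ∈ S := hz y (by simp)
  have ha : a ∈ S := hz a (by simp)
  have hc : c ∈ S := hz c (by simp)
  have hb : b ∈ S := hz b (by simp)
  have hdd : d ∈ S := hz d (by simp)
  obtain ⟨p, q, r, h1, h2, h3, -, -, -, h4⟩ := h S hS hd x y a c b d hx hy ha hc hb hdd hn
  exact ⟨p, q, r, h1, h2, h3, support_sub p hy, support_sub q hc, support_sub r hdd, h4⟩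

end Pool.Agent.P6
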