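import Pool.Agent.P6.StarDefs

set_option autoImplicit false

/-!
Lemma E in the local picture at a vertex `x` of a polytope of dimension 6: given five neighbours `n, a, b, c, d` of `x`,
there are disjoint paths from `a` to `b` and from `c` to `d` in the local graph, which avoid `n`, and such that the
first one does not use the edge `a b`.
-/

open Set

namespace Pool.Agent.P6

section Alg

variable {E : Type} [AddCommGroup E] [Module ℝ E]

/-- The functional of Lemma E. -/
theorem exists_lemE {S : Finset E} (hd : 6 ≤ dim S) {x n a b c d : E} (hc : c ∈ S) :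
    ∃ ℓ : E →ₗ[ℝ] ℝ, ℓ n = ℓ x ∧ ℓ a = ℓ x ∧ ℓ b = ℓ x ∧ ℓ c ≤ ℓ x ∧ ℓ d ≤ ℓ x ∧
      (∃ v ∈ S, ℓ x < ℓ v) ∧ ∃ v ∈ S, ℓ v < ℓ x := by
  classical
  set q : Submodule ℝ E := Submodule.span ℝ ({n - x, a - x, b - x, d - x} : Set E) with hq
  have hnq : n - x ∈ q := Submodule.subset_span (by simp)
  have haq : a - x ∈ q := Submodule.subset_span (by simp)
  have hbq : b - x ∈ q := Submodule.subset_span (by simp)
  have hdq : d - x ∈ q := Submodule.subset_span (by simp)
  have hq4 : Module.finrank ℝ q ≤ 4 := by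
    have h1 := finrank_span_finset_le_card (R := ℝ) ({n - x, a - x, b - x, d - x} : Finset E)
    have h2 : ({n - x, a - x, b - x, d - x} : Finset E).card ≤ 4 := Finset.card_le_four
    simp only [Finset.coe_insert, Finset.coe_singleton] at h1
    exact h1.trans h2
  have : FiniteDimensional ℝ q := by
    rw [hq]
    exact FiniteDimensional.span_of_finite ℝ (by simp)
  by_cases hcq : c - x ∈ q
  · -- dependent case
    have hW : dim ({x, n, a, b, c, d} : Finset E) + 2 ≤ dim S := by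
      have h1 : vectorSpan ℝ ((({x, n, a, b, c, d} : Finset E)) : Set E) ≤ q := by
        rw [vectorSpan_eq_span_vsub_set_right ℝ (p := x) (by simp)]
        rw [Submodule.span_le]
        rintro _ ⟨z, hz, rfl⟩
        simp only [Finset.coe_insert, Finset.coe_singleton, Set.mem_insert_iff,
          Set.mem_singleton_iff] at hz
        simp only [vsub_eq_sub, SetLike.mem_coe]
        rcases hz with rfl | rfl | rfl | rfl | rfl | rfl
        · simp
        · exact hnq
        · exact haq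
        · exact hbq
        · exact hcq
        · exact hdq
      have h2 := Submodule.finrank_mono h1
      unfold dim at *
      omega
    obtain ⟨ℓ, e, h1, h2, h3⟩ := exists_cut hW
    have h0 : ℓ x = e := h1 x (by simp)
    subst h0
    exact ⟨ℓ, h1 n (by simp), h1 a (by simp), h1 b (by simp), (h1 c (by simp)).le,
      (h1 d (by simp)).le, h3, h2⟩
  · -- independent case
    obtain ⟨m, hm1, hm2⟩ := Submodule.exists_le_ker_of_notMem hcq
    have hmn : m (n - x) = 0 := hm2 hnq
    have hma : m (a - x) = 0 := hm2 haq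
    have hmb : m (b - x) = 0 := hm2 hbq
    have hmd : m (d - x) = 0 := hm2 hdq
    -- a hyperplane through all six points
    have hW : dim ({x, n, a, b, c, d} : Finset E) < dim S := by
      have h0 : (({x, n, a, b, c, d} : Finset E)).card ≤ 6 := Finset.card_le_six
      have := dim_succ_le_card (W := ({x, n, a, b, c, d} : Finset E)) (by simp)
      omega
    obtain ⟨ℓ, e, h1, hne⟩ := exists_hyper hW
    have h0 : ℓ x = e := h1 x (by simp)
    subst h0
    rcases cut_or_face ℓ (ℓ x) hne with ⟨h3, h4⟩ | ⟨g, f, hg1, ⟨v, hv, hvf⟩, hg3⟩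
    · exact ⟨ℓ, h1 n (by simp), h1 a (by simp), h1 b (by simp), (h1 c (by simp)).le,
        (h1 d (by simp)).le, h4, h3⟩
    · -- supporting: all values of `g` are at most `f`
      have hgx : g x = f := (hg3 x).1 rfl
      have hgn : g n = f := (hg3 n).1 (h1 n (by simp))
      have hga : g a = f := (hg3 a).1 (h1 a (by simp))
      have hgb : g b = f := (hg3 b).1 (h1 b (by simp))
      have hgc : g c = f := (hg3 c).1 (h1 c (by simp))
      have hgd : g d = f := (hg3 d).1 (h1 d (by simp))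
      have hx0 : 0 < f - g v := by linarith
      obtain ⟨t, ht, htx⟩ : ∃ t : ℝ, 0 < t ∧ t * (|m (v - x)| + 1) < (f - g v) := by
        refine ⟨(f - g v) / (2 * (|m (v - x)| + 1)), by positivity, ?_⟩
        have hpos : (0:ℝ) < |m (v - x)| + 1 := by positivity
        rw [div_mul_eq_mul_div, div_lt_iff₀ (by positivity)]
        nlinarith
      have hsgn : ∃ s : ℝ, |s| ≤ 1 ∧ 0 < s * m (c - x) := by
        rcases lt_or_gt_of_ne hm1 with hneg | hpos
        · exact ⟨-1, by simp, by linarith⟩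
        · exact ⟨1, by simp, by linarith⟩
      obtain ⟨s, hs1, hs2⟩ := hsgn
      set L : E →ₗ[ℝ] ℝ := -g - (t * s) • m with hL
      have hLz : ∀ z, L z = -g z - t * s * m z := fun z => by
        simp [hL]
      have e0 : m n = m x := by rw [map_sub, sub_eq_zero] at hmn; exact hmn
      have e1 : m a = m x := by rw [map_sub, sub_eq_zero] at hma; exact hma
      have e2 : m b = m x := by rw [map_sub, sub_eq_zero] at hmb; exact hmb
      have e3 : m d = m x := by rw [map_sub, sub_eq_zero] at hmd; exact hmd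
      have e4 : m (c - x) = m c - m x := map_sub _ _ _
      have e5 : m (v - x) = m v - m x := map_sub _ _ _
      have hcs : 0 < t * (s * (m c - m x)) := mul_pos ht (by rw [← e4]; exact hs2)
      refine ⟨L, ?_, ?_, ?_, ?_, ?_, ⟨v, hv, ?_⟩, ⟨c, hc, ?_⟩⟩
      · rw [hLz, hLz, hgn, hgx, e0]
      · rw [hLz, hLz, hga, hgx, e1]
      · rw [hLz, hLz, hgb, hgx, e2]
      · rw [hLz, hLz, hgc, hgx]
        nlinarith
      · rw [hLz, hLz, hgd, hgx, e3]
      · rw [hLz, hLz, hgx]
        have h5 : |t * s * m (v - x)| ≤ t * |m (v - x)| := by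
          rw [abs_mul, abs_mul, abs_of_pos ht]
          have : |s| * |m (v - x)| ≤ 1 * |m (v - x)| := mul_le_mul_of_nonneg_right hs1 (abs_nonneg _)
          nlinarith
        have h6 := le_abs_self (t * s * m (v - x))
        rw [e5] at h5 h6 htx
        nlinarith
      · rw [hLz, hLz, hgc, hgx]
        nlinarith

/-- **G4** from the local pivot (`hup`) and the local half-space connectivity (`hconn`). -/
theorem star_link_of {S : Finset E} (hd : 6 ≤ dim S) {x : E}
    (hup : ∀ (p v : E), (PG S).Adj x p → v ∈ S → ∀ ℓ : E →ₗ[ℝ] ℝ, ℓ p = ℓ x → ℓ x < ℓ v →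
      ∃ q, cQA S x p q ∧ ℓ x < ℓ q)
    (hconn : ∀ (p q : E), (PG S).Adj x p → (PG S).Adj x q → ∀ ℓ : E →ₗ[ℝ] ℝ, ℓ x < ℓ p → ℓ x < ℓ q →
      Relation.ReflTransGen (fun a b => cQA S x a b ∧ ℓ x < ℓ b) p q)
    (D : Star (PG S) x) (hQ : D.QA = cQA S x) : D.Link := by
  classical
  intro n a b c d hn ha hb hc hdd hnod
  obtain ⟨ℓ, e1, e2, e3, e4, e5, ⟨v, hv, hvx⟩, ⟨w, hw, hwx⟩⟩ :=
    exists_lemE (x := x) (n := n) (a := a) (b := b) (c := c) (d := d) hd hc.2.1
  simp only [List.nodup_cons, List.mem_cons, List.not_mem_nil, or_false, not_or, List.nodup_nil,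
    and_true, not_false_eq_true] at hnod
  obtain ⟨⟨hna, hnb, hnc, hnd⟩, ⟨hab, hac, had⟩, ⟨hbc, hbd⟩, hcd⟩ := hnod
  have hdown : ∀ p : E, (PG S).Adj x p → ℓ p ≤ ℓ x → ∃ q, (PG S).Adj x q ∧ ℓ q < ℓ x ∧
      (q = p ∨ cQA S x p q) := by
    intro p hp hpx
    rcases hpx.lt_or_eq with hlt | heq
    · exact ⟨p, hp, hlt, Or.inl rfl⟩
    · obtain ⟨q, h1, h2⟩ := hup p w hp hw (-ℓ) (by simp [heq]) (by simpa using hwx)
      exact ⟨q, h1.2.1, by simpa using h2, Or.inr h1⟩
  refine ⟨{m | (PG S).Adj x m ∧ ℓ x < ℓ m}, {m | ((PG S).Adj x m ∧ ℓ m < ℓ x) ∨ m = c ∨ m = d},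
    fun m hm => hm.1, ?_, ?_, ?_, ?_, ?_, ?_, ?_, ?_, ?_, ?_, ?_, Or.inr (Or.inl rfl), Or.inr (Or.inr rfl), ?_⟩
  · rintro m (hm | rfl | rfl)
    · exact hm.1
    · exact hc
    · exact hdd
  · rw [Set.disjoint_left]
    rintro m hm (hm' | rfl | rfl)
    · exact lt_irrefl _ (hm.2.trans hm'.2)
    · exact absurd hm.2 (not_lt.2 e4)
    · exact absurd hm.2 (not_lt.2 e5)
  · intro hm; exact absurd hm.2 (by rw [e1]; exact lt_irrefl _)
  · intro hm; exact absurd hm.2 (by rw [e2]; exact lt_irrefl _)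
  · intro hm; exact absurd hm.2 (by rw [e3]; exact lt_irrefl _)
  · intro hm; exact absurd hm.2 (not_lt.2 e4)
  · intro hm; exact absurd hm.2 (not_lt.2 e5)
  · rintro (hm | hm | hm)
    · exact absurd hm.2 (by rw [e1]; exact lt_irrefl _)
    · exact hnc hm
    · exact hnd hm
  · rintro (hm | hm | hm)
    · exact absurd hm.2 (by rw [e2]; exact lt_irrefl _)
    · exact hac hm
    · exact had hm
  · rintro (hm | hm | hm)
    · exact absurd hm.2 (by rw [e3]; exact lt_irrefl _)
    · exact hbc hm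
    · exact hbd hm
  · obtain ⟨u, hu1, hu2⟩ := hup a v ha hv ℓ e2 hvx
    obtain ⟨z, hz1, hz2⟩ := hup b v hb hv ℓ e3 hvx
    refine ⟨u, ⟨hu1.2.1, hu2⟩, z, ⟨hz1.2.1, hz2⟩, by rw [hQ]; exact hu1,
      D.qsymm _ _ (by rw [hQ]; exact hz1), ?_⟩
    refine Relation.ReflTransGen.mono ?_ _ _ (hconn u z hu1.2.1 hz1.2.1 ℓ hu2 hz2)
    rintro r s ⟨h1, h2⟩
    exact ⟨by rw [hQ]; exact h1, h1.2.1, h2⟩
  · obtain ⟨u, hu1, hu2, hu3⟩ := hdown c hc e4
    obtain ⟨z, hz1, hz2, hz3⟩ := hdown d hdd e5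
    have hmid : Relation.ReflTransGen (fun r s => D.QA r s ∧
        s ∈ ({m | ((PG S).Adj x m ∧ ℓ m < ℓ x) ∨ m = c ∨ m = d} : Set E)) u z := by
      refine Relation.ReflTransGen.mono ?_ _ _ (hconn u z hu1 hz1 (-ℓ) (by simpa using hu2)
        (by simpa using hz2))
      rintro r s ⟨h1, h2⟩
      exact ⟨by rw [hQ]; exact h1, Or.inl ⟨h1.2.1, by simpa using h2⟩⟩
    have hleft : Relation.ReflTransGen (fun r s => D.QA r s ∧
        s ∈ ({m | ((PG S).Adj x m ∧ ℓ m < ℓ x) ∨ m = c ∨ m = d} : Set E)) c u := by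
      rcases hu3 with rfl | hu3
      · exact Relation.ReflTransGen.refl
      · exact Relation.ReflTransGen.single ⟨by rw [hQ]; exact hu3, Or.inl ⟨hu1, hu2⟩⟩
    have hright : Relation.ReflTransGen (fun r s => D.QA r s ∧
        s ∈ ({m | ((PG S).Adj x m ∧ ℓ m < ℓ x) ∨ m = c ∨ m = d} : Set E)) z d := by
      rcases hz3 with rfl | hz3
      · exact Relation.ReflTransGen.refl
      · exact Relation.ReflTransGen.single ⟨D.qsymm _ _ (by rw [hQ]; exact hz3), Or.inr (Or.inr rfl)⟩
    exact hleft.trans (hmid.trans hright)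

end Alg

end Pool.Agent.P6
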