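import Pool.Agent.P6.StarDefs
import Pool.Agent.P6.Fig

set_option autoImplicit false

/-!
The corner graph at a vertex `x` (rows G3a, G3b of the skeleton): improving neighbours and
connectivity of half-spaces, transferred from the vertex figure.
-/

open Set

namespace Pool.Agent.P6

section Local

variable {E : Type} [NormedAddCommGroup E] [NormedSpace ℝ E]

/-- A vertex of a face in which `x` has only the neighbours `p` and `q` lies in the cone of `p`
and `q`. -/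
theorem Corner2.inCone {S F : Finset E} {x p q : E} (h : Corner2 S x p q F) (hS : CP S) {v : E}
    (hv : v ∈ F) : InCone x p q v := by
  by_cases hvx : v = x
  · subst hvx
    exact ⟨0, 0, le_rfl, le_rfl, by simp⟩
  have hF : CP F := hS.subset h.face.subset
  obtain ⟨c, hc⟩ := hF.sep h.hx
  set ρ : E → ℝ := fun y => c x - c y with hρ
  have hρpos : ∀ y ∈ F, y ≠ x → 0 < ρ y := fun y hy hne => sub_pos.2 (hc y hy hne)
  set pt : E → E := fun y => (ρ y)⁻¹ • (y - x) with hpt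
  have hsmul : ∀ y ∈ F, y ≠ x → y - x = ρ y • pt y := by
    intro y hy hne
    rw [hpt]
    simp only
    rw [smul_smul, mul_inv_cancel₀ (hρpos y hy hne).ne', one_smul]
  have hshift : ∀ m : E →ₗ[ℝ] ℝ, ∀ t : ℝ, ∀ y ∈ F, y ≠ x →
      (m + t • c) y - (m + t • c) x = ρ y * (m (pt y) - t) := by
    intro m t y hy hne
    have h1 : m y - m x = ρ y * m (pt y) := by
      rw [← map_sub, hsmul y hy hne, map_smul, smul_eq_mul]
    simp only [LinearMap.add_apply, LinearMap.smul_apply, smul_eq_mul]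
    simp only [hρ] at h1 ⊢
    linarith
  have hpx : p ≠ x := h.adj_p.2.2.1.symm
  have hqx : q ≠ x := h.adj_q.2.2.1.symm
  have hmem : pt v ∈ segment ℝ (pt p) (pt q) := by
    by_contra hn
    have hcl : IsClosed (segment ℝ (pt p) (pt q)) := by
      rw [← convexHull_pair]
      exact Set.Finite.isClosed_convexHull ℝ (Set.toFinite _)
    obtain ⟨f, u, h1, h2⟩ := geometric_hahn_banach_closed_point (convex_segment _ _) hcl hn
    have hm := hshift f.toLinearMap u v hv hvx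
    have h3 : 0 < ρ v * (f.toLinearMap (pt v) - u) := mul_pos (hρpos v hv hvx) (sub_pos.2 h2)
    obtain ⟨w, hw, hw'⟩ := exists_adj_gt hF h.hx hv (f.toLinearMap + u • c) (by linarith)
    have h4 := hshift f.toLinearMap u w hw.2.1 hw.2.2.1.symm
    have h5 : 0 < ρ w * (f.toLinearMap (pt w) - u) := by linarith
    have h6 := (mul_pos_iff_of_pos_left (hρpos w hw.2.1 hw.2.2.1.symm)).1 h5
    have h7 : w = p ∨ w = q := h.only w (h.face.le hw) hw.2.1
    rcases h7 with rfl | rfl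
    · have := h1 _ (left_mem_segment ℝ (pt w) (pt q))
      exact absurd (sub_pos.1 h6) (not_lt.2 this.le)
    · have := h1 _ (right_mem_segment ℝ (pt p) (pt w))
      exact absurd (sub_pos.1 h6) (not_lt.2 this.le)
  obtain ⟨a, b, ha, hb, -, hab⟩ := hmem
  refine ⟨ρ v * a * (ρ p)⁻¹, ρ v * b * (ρ q)⁻¹, ?_, ?_, ?_⟩
  · exact mul_nonneg (mul_nonneg (hρpos v hv hvx).le ha) (inv_nonneg.2 (hρpos p h.hp hpx).le)
  · exact mul_nonneg (mul_nonneg (hρpos v hv hvx).le hb) (inv_nonneg.2 (hρpos q h.hq hqx).le)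
  · rw [hsmul v hv hvx, ← hab, smul_add, smul_smul, smul_smul]
    simp only [hpt, smul_smul, mul_assoc]

/-- The two neighbours of `x` in a 2-face are adjacent corners. -/
theorem Corner2.cQA {S F : Finset E} {x p q : E} (h : Corner2 S x p q F) (hS : CP S) :
    cQA S x p q := by
  refine ⟨h.adj_p, h.adj_q, h.ne, ?_⟩
  obtain ⟨hs, ℓ, c, h1, h2⟩ := h.face
  have hxc : ℓ x = c := (h2 x (hs h.hx)).1 h.hx
  have hpc : ℓ p = c := (h2 p (hs h.hp)).1 h.hp
  have hqc : ℓ q = c := (h2 q (hs h.hq)).1 h.hq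
  refine ⟨ℓ, by rw [hpc, hxc], by rw [hqc, hxc], fun v hv => ⟨by rw [hxc]; exact h1 v hv, fun he => ?_⟩⟩
  exact h.inCone hS ((h2 v hv).2 (by rw [he, hxc]))

/-- **The vertex figure**, with positive multiples of the edge directions as points. -/
theorem exists_figure_cQA {S : Finset E} (h : CP S) {x : E} (hx : x ∈ S) :
    ∃ pt : E → E, ∃ Q : Finset E, CP Q ∧
      (∀ w, (PG S).Adj x w → pt w ∈ Q) ∧ (∀ u ∈ Q, ∃ w, (PG S).Adj x w ∧ pt w = u) ∧
      (∀ w, (PG S).Adj x w → ∃ r : ℝ, 0 < r ∧ pt w = r • (w - x)) ∧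
      (∀ w w', (PG S).Adj x w → (PG S).Adj x w' → pt w = pt w' → w = w') ∧
      ∀ p q, (PG S).Adj x p → (PG S).Adj x q → (PG Q).Adj (pt p) (pt q) → cQA S x p q := by
  classical
  obtain ⟨c, hc⟩ := h.sep hx
  set ρ : E → ℝ := fun y => c x - c y with hρ
  have hρpos : ∀ y ∈ S, y ≠ x → 0 < ρ y := fun y hy hne => sub_pos.2 (hc y hy hne)
  set pt : E → E := fun y => (ρ y)⁻¹ • (y - x) with hpt
  have hsmul : ∀ y ∈ S, y ≠ x → y - x = ρ y • pt y := by
    intro y hy hne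
    rw [hpt]
    simp only
    rw [smul_smul, mul_inv_cancel₀ (hρpos y hy hne).ne', one_smul]
  have hval : ∀ m : E →ₗ[ℝ] ℝ, ∀ y ∈ S, y ≠ x → m y - m x = ρ y * m (pt y) := by
    intro m y hy hne
    rw [← map_sub, hsmul y hy hne, map_smul, smul_eq_mul]
  have hshift : ∀ m : E →ₗ[ℝ] ℝ, ∀ t : ℝ, ∀ y ∈ S, y ≠ x →
      (m + t • c) y - (m + t • c) x = ρ y * (m (pt y) - t) := by
    intro m t y hy hne
    have h1 := hval m y hy hne
    simp only [LinearMap.add_apply, LinearMap.smul_apply, smul_eq_mul]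
    simp only [hρ] at h1 ⊢
    linarith
  have hexp : ∀ w, (PG S).Adj x w → ∃ m : E →ₗ[ℝ] ℝ, m (pt w) = 0 ∧
      ∀ y ∈ S, y ≠ x → y ≠ w → m (pt y) < 0 := by
    intro w hw
    obtain ⟨h1, h2, h3, m, h4, h5⟩ := hw
    refine ⟨m, ?_, fun y hy hyx hyw => ?_⟩
    · have := hval m w h2 h3.symm
      rw [h4, sub_self] at this
      exact (mul_eq_zero.1 this.symm).resolve_left (hρpos w h2 h3.symm).ne'
    · have h6 := hval m y hy hyx
      have h7 : m y < m x := lt_of_le_of_ne (h5 y hy).1 fun he => by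
        rcases (h5 y hy).2 he with h8 | h8
        · exact hyx h8
        · exact hyw h8
      have h8 : ρ y * m (pt y) < 0 := by linarith
      by_contra h9
      exact absurd h8 (not_lt.2 (mul_nonneg (hρpos y hy hyx).le (not_lt.1 h9)))
  have hinj : ∀ w w', (PG S).Adj x w → (PG S).Adj x w' → pt w = pt w' → w = w' := by
    intro w w' hw hw' he
    by_contra hne
    obtain ⟨m, h1, h2⟩ := hexp w hw
    have h3 := h2 w' hw'.2.1 hw'.2.2.1.symm (Ne.symm hne)
    rw [← he, h1] at h3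
    exact lt_irrefl _ h3
  set N : Finset E := S.filter fun w => (PG S).Adj x w with hN
  have hNmem : ∀ w, w ∈ N ↔ (PG S).Adj x w := by
    intro w
    rw [hN, Finset.mem_filter]
    exact ⟨fun hw => hw.2, fun hw => ⟨hw.2.1, hw⟩⟩
  set Q : Finset E := N.image pt with hQ
  have hQmem : ∀ u, u ∈ Q ↔ ∃ w, (PG S).Adj x w ∧ pt w = u := by
    intro u
    rw [hQ, Finset.mem_image]
    constructor
    · rintro ⟨w, hw, rfl⟩
      exact ⟨w, (hNmem w).1 hw, rfl⟩
    · rintro ⟨w, hw, rfl⟩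
      exact ⟨w, (hNmem w).2 hw, rfl⟩
  have hmax : ∀ m : E →ₗ[ℝ] ℝ, ∀ t : ℝ, (∀ w, (PG S).Adj x w → m (pt w) ≤ t) →
      ∀ y ∈ S, y ≠ x → m (pt y) ≤ t := by
    intro m t hm y hy hyx
    by_contra hlt
    rw [not_le] at hlt
    have h1 := hshift m t y hy hyx
    have h2 : 0 < ρ y * (m (pt y) - t) := mul_pos (hρpos y hy hyx) (sub_pos.2 hlt)
    obtain ⟨w, hw, hw'⟩ := exists_adj_gt h hx hy (m + t • c) (by linarith)
    have h3 := hshift m t w hw.2.1 hw.2.2.1.symm
    have h4 : 0 < ρ w * (m (pt w) - t) := by linarith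
    have h5 := (mul_pos_iff_of_pos_left (hρpos w hw.2.1 hw.2.2.1.symm)).1 h4
    linarith [hm w hw]
  refine ⟨pt, Q, ?_, fun w hw => (hQmem _).2 ⟨w, hw, rfl⟩, fun u hu => (hQmem u).1 hu,
    fun w hw => ⟨(ρ w)⁻¹, inv_pos.2 (hρpos w hw.2.1 hw.2.2.1.symm), rfl⟩, hinj, ?_⟩
  · intro u hu hcon
    obtain ⟨w, hw, rfl⟩ := (hQmem u).1 hu
    obtain ⟨m, h1, h2⟩ := hexp w hw
    have h3 : convexHull ℝ ((Q : Set E) \ {pt w}) ⊆ {z | m z < 0} := by
      refine convexHull_min ?_ (convex_halfSpace_lt m.isLinear 0)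
      rintro z ⟨hz, hzw⟩
      obtain ⟨w', hw', rfl⟩ := (hQmem z).1 hz
      refine h2 w' hw'.2.1 hw'.2.2.1.symm ?_
      rintro rfl
      exact hzw rfl
    have h4 : m (pt w) < 0 := h3 hcon
    rw [h1] at h4
    exact lt_irrefl _ h4
  · intro p q hp hq hadj
    obtain ⟨h1, h2, h3, m, h4, h5⟩ := hadj
    set t := m (pt p) with ht
    have hle : ∀ w, (PG S).Adj x w → m (pt w) ≤ t := fun w hw =>
      (h5 _ ((hQmem _).2 ⟨w, hw, rfl⟩)).1
    have hleS := hmax m t hle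
    set g : E →ₗ[ℝ] ℝ := m + t • c with hg
    have hgS : ∀ y ∈ S, g y ≤ g x := by
      intro y hy
      by_cases hyx : y = x
      · rw [hyx]
      · have h6 := hshift m t y hy hyx
        have h7 := mul_nonpos_of_nonneg_of_nonpos (hρpos y hy hyx).le
          (sub_nonpos.2 (hleS y hy hyx))
        linarith
    have hgE : ∀ y ∈ S, y ≠ x → (g y = g x ↔ m (pt y) = t) := by
      intro y hy hyx
      have h6 := hshift m t y hy hyx
      have h7 := (hρpos y hy hyx).ne'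
      constructor
      · intro he
        have h8 : ρ y * (m (pt y) - t) = 0 := by
          rw [← h6]
          linarith
        exact sub_eq_zero.1 ((mul_eq_zero.1 h8).resolve_left h7)
      · intro he
        rw [he, sub_self, mul_zero] at h6
        linarith
    have hpx : p ≠ x := hp.2.2.1.symm
    have hqx : q ≠ x := hq.2.2.1.symm
    have hcor : Corner2 S x p q (S.filter fun y => g y = g x) := by
      refine ⟨isFace_filter g _ hgS, by simp [hx], ?_, ?_, hp, hq, ?_, ?_⟩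
      · rw [Finset.mem_filter]
        exact ⟨hp.2.1, (hgE p hp.2.1 hpx).2 rfl⟩
      · rw [Finset.mem_filter]
        exact ⟨hq.2.1, (hgE q hq.2.1 hqx).2 h4⟩
      · rintro rfl
        exact h3 rfl
      · intro w hw hwF
        have h6 := (hgE w hw.2.1 hw.2.2.1.symm).1 (Finset.mem_filter.1 hwF).2
        rcases (h5 _ ((hQmem _).2 ⟨w, hw, rfl⟩)).2 h6 with h7 | h7
        · exact Or.inl (hinj w p hw hp h7)
        · exact Or.inr (hinj w q hw hq h7)
    exact hcor.cQA h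

/-- **G3a** Improving neighbours in the corner graph. -/
theorem cQA_up {S : Finset E} (h : CP S) {x p v : E} (hp : (PG S).Adj x p) (hv : v ∈ S)
    (ℓ : E →ₗ[ℝ] ℝ) (h0 : ℓ p = ℓ x) (h1 : ℓ x < ℓ v) : ∃ q, cQA S x p q ∧ ℓ x < ℓ q := by
  obtain ⟨pt, Q, hQ, hin, hout, hpos, -, hed⟩ := exists_figure_cQA h hp.1
  obtain ⟨w, hw, hw'⟩ := exists_adj_gt h hp.1 hv ℓ h1
  have hval : ∀ y, (PG S).Adj x y → (0 < ℓ (pt y) ↔ ℓ x < ℓ y) ∧ (ℓ (pt y) = 0 ↔ ℓ y = ℓ x) := by
    intro y hy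
    obtain ⟨r, hr, he⟩ := hpos y hy
    rw [he, map_smul, map_sub, smul_eq_mul]
    refine ⟨?_, ?_⟩
    · rw [mul_pos_iff_of_pos_left hr, sub_pos]
    · rw [mul_eq_zero, sub_eq_zero]
      exact ⟨fun h2 => h2.resolve_left hr.ne', Or.inr⟩
  have h2 : ℓ (pt p) < ℓ (pt w) := by
    rw [(hval p hp).2.2 h0]
    exact (hval w hw).1.2 hw'
  obtain ⟨u, hu, hu'⟩ := exists_adj_gt hQ (hin p hp) (hin w hw) ℓ h2
  obtain ⟨q, hq, rfl⟩ := hout u hu.2.1
  rw [(hval p hp).2.2 h0] at hu'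
  exact ⟨q, hed p q hp hq hu, (hval q hq).1.1 hu'⟩

/-- **G3b** Open half-spaces of the corner graph are connected. -/
theorem cQA_conn {S : Finset E} (h : CP S) {x p q : E} (hp : (PG S).Adj x p) (hq : (PG S).Adj x q)
    (ℓ : E →ₗ[ℝ] ℝ) (h0 : ℓ x < ℓ p) (h1 : ℓ x < ℓ q) :
    Relation.ReflTransGen (fun a b => cQA S x a b ∧ ℓ x < ℓ b) p q := by
  obtain ⟨pt, Q, hQ, hin, hout, hpos, hinj, hed⟩ := exists_figure_cQA h hp.1
  have hval : ∀ y, (PG S).Adj x y → (0 < ℓ (pt y) ↔ ℓ x < ℓ y) := by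
    intro y hy
    obtain ⟨r, hr, he⟩ := hpos y hy
    rw [he, map_smul, map_sub, smul_eq_mul, mul_pos_iff_of_pos_left hr, sub_pos]
  obtain ⟨w, hw⟩ := connIn_gt hQ ℓ 0 (pt p) ⟨hin p hp, (hval p hp).2 h0⟩ (pt q)
    ⟨hin q hq, (hval q hq).2 h1⟩
  have key : ∀ (a b : E) (W : (PG Q).Walk a b), (∀ z ∈ W.support, z ∈ {z | z ∈ Q ∧ 0 < ℓ z}) →
      ∀ p q, (PG S).Adj x p → (PG S).Adj x q → pt p = a → pt q = b →
      Relation.ReflTransGen (fun a b => cQA S x a b ∧ ℓ x < ℓ b) p q := by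
    intro a b W
    induction W with
    | nil =>
      intro _ p q hp hq h2 h3
      rw [hinj p q hp hq (h2.trans h3.symm)]
    | cons hadj W ih =>
      rename_i a' c b'
      intro hs p q hp hq h2 h3
      have h4 : c ∈ {z | z ∈ Q ∧ 0 < ℓ z} := hs c (by simp)
      obtain ⟨r, hr, rfl⟩ := hout c h4.1
      refine Relation.ReflTransGen.head ?_ (ih (fun z hz => hs z (by simp [hz])) r q hr hq rfl h3)
      refine ⟨hed p r hp hr (by rw [h2]; exact hadj), (hval r hr).1 h4.2⟩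
  exact key _ _ w hw p q hp hq rfl rfl

end Local

end Pool.Agent.P6
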