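import Pool.Agent.P6.StarDefs
import Pool.Agent.P6.DMengerFrom

set_option autoImplicit false

/-!
The shape of the five paths obtained from the directed Menger theorem (MP_035085_co).
-/

namespace Pool.Agent.P6

variable {V : Type} {G : SimpleGraph V} {x : V}

theorem Star.Nx.adj {D : Star G x} {u v : V} (h : D.Nx u v) : G.Adj u v := by
  obtain ⟨p, q, h1, h2, h3, h4, h5⟩ := h
  exact D.next p q u v h1 h2 h3 h4 h5

theorem Star.dr_adj {D : Star G x} {L : Finset V} {u v : V} (h : D.dr L u v) : G.Adj u v := by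
  rcases h.2.2 with h | h
  · exact h.adj
  · exact h.2

theorem Star.Nx.sig {D : Star G x} {u v : V} (h : D.Nx u v) : u ∈ D.Sig ∧ v ∈ D.Sig := by
  obtain ⟨p, q, h1, h2, h3, h4, h5⟩ := h
  exact ⟨Or.inr ⟨p, q, h1, h2⟩, Or.inr ⟨p, q, h1, h3⟩⟩

theorem Star.dr_walk_x {D : Star G x} {L : Finset V} {u v : V} {l : List V}
    (h : DW (D.dr L) u v l) (hu : u ≠ x) : x ∉ l := by
  induction h with
  | nil a => simpa using hu.symm
  | cons h _ ih =>
    rw [List.mem_cons, not_or]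
    exact ⟨hu.symm, ih h.2.1⟩

/-- Once a directed path is inside an arc, it follows the arc to a corner. -/
theorem Star.follow (D : Star G x) {L : Finset V} {z n : V} {l : List V}
    (h : DW (D.dr L) z n l) (hnd : l.Nodup) (hn : G.Adj x n) (hz : z ∈ D.Sig)
    (h1 : ∀ v ∈ l, v ∉ L) (h2 : ∀ v ∈ l, G.Adj x v → v = n) :
    ∃ E : Set V, D.IsExit z n E ∧ ∀ v, v ∈ l ↔ v ∈ E := by
  induction h with
  | nil a =>
    refine ⟨{a}, Or.inl ⟨rfl, hn, rfl⟩, fun v => ?_⟩
    rw [List.mem_singleton, Set.mem_singleton_iff]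
  | @cons z n c l h h' ih =>
    rw [List.nodup_cons] at hnd
    have hzx : ¬ G.Adj x z := h.1
    have hzL : z ∉ L := h1 z List.mem_cons_self
    have hNx : D.Nx z c := by
      rcases h.2.2 with h3 | ⟨h3 | h3, _⟩
      · exact h3
      · exact absurd hz h3
      · exact absurd h3 hzL
    obtain ⟨E', hE', hl⟩ := ih hnd.2 hn hNx.sig.2 (fun v hv => h1 v (List.mem_cons_of_mem _ hv))
      (fun v hv => h2 v (List.mem_cons_of_mem _ hv))
    -- it is enough to find the right orientation of the arc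
    have key : ∀ q, D.QA n q → z ∈ D.arc n q → c ∈ D.arc n q → D.th n q c < D.th n q z →
        (∀ w ∈ D.arc n q, ¬ (D.th n q c < D.th n q w ∧ D.th n q w < D.th n q z)) →
        (∀ w, w ∈ E' ↔ w ∈ D.arc n q ∧ D.th n q w ≤ D.th n q c) →
        ∃ E : Set V, D.IsExit z n E ∧ ∀ v, v ∈ z :: l ↔ v ∈ E := by
      intro q hq hzq hcq hlt hbet hE
      refine ⟨{w | w ∈ D.arc n q ∧ D.th n q w ≤ D.th n q z}, Or.inr ⟨hzx, q, hq, hzq, rfl⟩,
        fun v => ?_⟩
      rw [List.mem_cons, hl, hE]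
      change _ ↔ v ∈ D.arc n q ∧ D.th n q v ≤ D.th n q z
      constructor
      · rintro (rfl | ⟨h3, h4⟩)
        · exact ⟨hzq, le_rfl⟩
        · exact ⟨h3, h4.trans hlt.le⟩
      · rintro ⟨h3, h4⟩
        rcases lt_or_ge (D.th n q c) (D.th n q v) with h5 | h5
        · rcases h4.lt_or_eq with h6 | h6
          · exact absurd ⟨h5, h6⟩ (hbet v h3)
          · exact Or.inl (D.th_inj n q v z hq h3 hzq h6)
        · exact Or.inr ⟨h3, h5⟩
    obtain ⟨p, q, hpq, hzA, hcA, hlt, hbet⟩ := hNx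
    have hzne : z ≠ c := by
      rintro rfl
      exact lt_irrefl _ hlt
    have hqp := D.qsymm p q hpq
    have hAs := D.arc_symm p q hpq
    have hlt' : D.th q p c < D.th q p z := (D.th_symm p q c z hpq hcA hzA).2 hlt
    have hbet' : ∀ w ∈ D.arc q p, ¬ (D.th q p c < D.th q p w ∧ D.th q p w < D.th q p z) := by
      intro w hw hcon
      rw [hAs] at hw
      exact hbet w hw ⟨(D.th_symm p q w z hpq hw hzA).1 hcon.2,
        (D.th_symm p q c w hpq hcA hw).1 hcon.1⟩
    rcases hE' with ⟨hcn, _, hE'⟩ | ⟨hcx, q', hq', hcq', hE'⟩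
    · -- the next vertex is the corner
      subst hcn
      have hcq : c = q := by
        rcases D.corner p q c hpq hcA hn with h3 | h3
        · exfalso
          subst h3
          exact absurd (D.th_left c q z hpq hzA hzne) (not_lt.2 hlt.le)
        · exact h3
      subst hcq
      refine key p hqp (by rw [hAs]; exact hzA) (by rw [hAs]; exact hcA) hlt' hbet' fun w => ?_
      rw [hE', Set.mem_singleton_iff]
      constructor
      · rintro rfl
        exact ⟨by rw [hAs]; exact hcA, le_rfl⟩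
      · rintro ⟨h3, h4⟩
        by_contra hne
        exact absurd (D.th_left c p w hqp h3 hne) (not_lt.2 h4)
    · -- the next vertex is inside the arc
      have hzl : z ∉ l := hnd.1
      rcases D.unique n q' p q c hq' hpq hcq' hcA hcx with ⟨h3, h4⟩ | ⟨h3, h4⟩
      · -- the wrong direction
        exfalso
        subst h3 h4
        refine hzl ((hl z).2 ?_)
        rw [hE']
        exact ⟨hzA, hlt.le⟩
      · subst h3 h4
        refine key p hqp (by rw [hAs]; exact hzA) (by rw [hAs]; exact hcA) hlt' hbet' fun w => ?_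
        rw [hE']
        rfl

/-- A directed path to a corner: outside of its exit it does not meet `Sig`, except perhaps in its
starting point. -/
theorem Star.exit_of_walk (D : Star G x) {L : Finset V} {t n : V}
    {l : List V} (h : DW (D.dr L) t n l) (hnd : l.Nodup) (hn : G.Adj x n)
    (h1 : ∀ v ∈ l, v ∈ L → v = t) (h2 : ∀ v ∈ l, G.Adj x v → v = n) :
    ∃ (z : V) (E : Set V), D.IsExit z n E ∧ (∀ v ∈ E, v ∈ l) ∧
      (∀ v ∈ l, v ∈ D.Sig → v ∈ E ∨ (v = t ∧ t ∈ L)) ∧ (t ∈ D.Sig → t ∉ L → z = t) := by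
  induction h with
  | nil a =>
    refine ⟨a, {a}, Or.inl ⟨rfl, hn, rfl⟩, fun v hv => ?_, fun v hv _ => ?_, fun _ _ => rfl⟩
    · rw [Set.mem_singleton_iff] at hv
      rw [hv]
      exact List.mem_singleton_self _
    · exact Or.inl (by simpa using hv)
  | @cons t n c l h h' ih =>
    by_cases htS : t ∈ D.Sig ∧ t ∉ L
    · obtain ⟨E, hE, hl⟩ := D.follow (DW.cons h h') hnd hn htS.1 (fun v hv hvL => by
        have := h1 v hv hvL
        subst this
        exact htS.2 hvL) h2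
      exact ⟨t, E, hE, fun v hv => (hl v).2 hv, fun v hv _ => Or.inl ((hl v).1 hv), fun _ _ => rfl⟩
    · rw [List.nodup_cons] at hnd
      have h3 : ∀ v ∈ l, v ∉ L := by
        intro v hv hvL
        have := h1 v (List.mem_cons_of_mem _ hv) hvL
        subst this
        exact hnd.1 hv
      obtain ⟨z, E, hE, h4, h5, _⟩ := ih hnd.2 hn (fun v hv hvL => absurd hvL (h3 v hv))
        (fun v hv => h2 v (List.mem_cons_of_mem _ hv))
      refine ⟨z, E, hE, fun v hv => List.mem_cons_of_mem _ (h4 v hv), fun v hv hvS => ?_,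
        fun h6 h7 => absurd ⟨h6, h7⟩ htS⟩
      rcases List.mem_cons.1 hv with rfl | hv
      · refine Or.inr ⟨rfl, ?_⟩
        by_contra h6
        exact htS ⟨hvS, h6⟩
      · rcases h5 v hv hvS with h6 | ⟨h6, h7⟩
        · exact Or.inl h6
        · subst h6
          exact absurd h7 (h3 v hv)

/-- The shape of the paths. -/
theorem star_shape (D : Star G x) {Y L : Finset V} (hxY : x ∉ Y) (hLY : L ⊆ Y)
    (_hLS : ∀ v ∈ L, v ∈ D.Sig)
    (_hLc : ∀ v ∈ L, ¬ G.Adj x v) (n : V → V) (l : V → List V)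
    (h1 : ∀ t ∈ Y, G.Adj x (n t) ∧ DW (D.dr L) t (n t) (l t) ∧ (l t).Nodup)
    (h2 : ∀ t ∈ Y, ∀ z ∈ l t, (z ∈ Y → z = t) ∧ (G.Adj x z → z = n t))
    (h3 : ∀ t ∈ Y, ∀ t' ∈ Y, t ≠ t' → (l t).Disjoint (l t')) :
    ∃ (z : V → V) (A E : V → Set V), D.Shape Y L n z A E ∧ ∀ t ∈ Y, ∀ v ∈ A t, v ∈ l t := by
  classical
  have key : ∀ t : V, ∃ (z : V) (E : Set V), t ∈ Y → D.IsExit z (n t) E ∧ (∀ v ∈ E, v ∈ l t) ∧
      (∀ v ∈ l t, v ∈ D.Sig → v ∈ E ∨ (v = t ∧ t ∈ L)) ∧ (t ∈ D.Sig → t ∉ L → z = t) := by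
    intro t
    by_cases ht : t ∈ Y
    · obtain ⟨z, E, h4⟩ := D.exit_of_walk (h1 t ht).2.1 (h1 t ht).2.2 (h1 t ht).1
        (fun v hv hvL => (h2 t ht v hv).1 (hLY hvL)) (fun v hv => (h2 t ht v hv).2)
      exact ⟨z, E, fun _ => h4⟩
    · exact ⟨t, ∅, fun h => absurd h ht⟩
  choose z E hzE using key
  refine ⟨z, fun t => {v | v ∈ l t}, E, ⟨fun t ht => ?_, fun t ht => ?_, fun t ht => (hzE t ht).1,
    fun t ht => (hzE t ht).2.1, fun t ht => (hzE t ht).2.2.1, fun t ht => (hzE t ht).2.2.2,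
    fun t ht t' ht' hne => ?_⟩, fun t _ v hv => hv⟩
  · obtain ⟨w, hw⟩ := ((h1 t ht).2.1.mono (fun u v h => D.dr_adj h)).walk
    exact ⟨w, fun v hv => by rw [hw] at hv; exact hv⟩
  · exact D.dr_walk_x (h1 t ht).2.1 (fun h => hxY (h ▸ ht))
  · rw [Set.disjoint_left]
    intro v hv hv'
    exact h3 t ht t' ht' hne hv hv'

end Pool.Agent.P6
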