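import Pool.Agent.P6.Cut
import Pool.Agent.P6.Shape

set_option autoImplicit false

/-! The maximal exitable set and Claim 2. -/

namespace Pool.Agent.P6

variable {V : Type} {G : SimpleGraph V} {x : V}

theorem Star.IsExit.self_mem {D : Star G x} {z n : V} {E : Set V} (h : D.IsExit z n E) : z ∈ E := by
  rcases h with ⟨h1, -, h3⟩ | ⟨-, q, -, h3, h4⟩
  · rw [h3]
    exact h1
  · rw [h4]
    exact ⟨h3, le_refl _⟩

theorem Star.lt_end (D : Star G x) {p q w : V} (hpq : D.QA p q) (hw : w ∈ D.arc p q)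
    (hwc : ¬ G.Adj x w) : D.th p q w < D.th p q q := by
  have hq : q ∈ D.arc p q := D.right_mem hpq
  have hne : w ≠ q := by
    rintro rfl
    exact hwc (D.qadj _ _ (D.qsymm _ _ hpq))
  have h1 : D.th q p q < D.th q p w := by
    refine D.th_left q p w (D.qsymm _ _ hpq) ?_ hne
    rw [D.arc_symm p q hpq]
    exact hw
  exact (D.th_symm p q q w hpq hq hw).1 h1

/-- an exit of `t` which ends in a corner different from `p` and which does not contain `w` is disjoint from
the part of the arc `p q` between `p` and `w` -/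
theorem Star.IsExit.disj {D : Star G x} {t n : V} {E : Set V} (h : D.IsExit t n E) {p q w : V}
    (hpq : D.QA p q) (hw : w ∈ D.arc p q) (hwc : ¬ G.Adj x w) (hnp : n ≠ p) (hwE : w ∉ E) {u : V}
    (hu : u ∈ E) (hu' : u ∈ D.arc p q) (hle : D.th p q u ≤ D.th p q w) : False := by
  have hend := D.lt_end hpq hw hwc
  have huw : u ≠ w := by
    rintro rfl
    exact hwE hu
  have hlt : D.th p q u < D.th p q w := by
    rcases hle.lt_or_eq with h1 | h1
    · exact h1
    · exact absurd (D.th_inj p q u w hpq hu' hw h1) huw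
  have huq : u ≠ q := by
    rintro rfl
    exact absurd (hlt.trans hend) (lt_irrefl _)
  rcases h with ⟨h1, h2, h3⟩ | ⟨h1, q', h2, h3, h4⟩
  · rw [h3] at hu
    have hun : u = n := hu
    subst hun
    rcases D.corner p q u hpq hu' h2 with e | e
    · exact hnp e
    · exact huq e
  · rw [h4] at hu hwE
    by_cases huc : G.Adj x u
    · have huq' : u ≠ q' := by
        rintro rfl
        have := D.lt_end h2 h3 h1
        exact absurd (lt_of_lt_of_le this hu.2) (lt_irrefl _)
      rcases D.corner _ _ u h2 hu.1 huc with e | e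
      · subst e
        rcases D.corner p q u hpq hu' huc with e | e
        · exact hnp e
        · exact huq e
      · exact huq' e
    · rcases D.unique p q n q' u hpq h2 hu' hu.1 huc with ⟨e1, e2⟩ | ⟨e1, e2⟩
      · exact hnp e1
      · subst e1 e2
        apply hwE
        refine ⟨?_, ?_⟩
        · rw [D.arc_symm _ _ hpq]
          exact hw
        · exact (((D.th_symm _ _ w u hpq hw hu').2 hlt).trans_le hu.2).le

/-- **R8c** -/
theorem star_sys (D : Star G x) {S : Finset V} (hS : ∀ a b, G.Adj a b → a ∈ S ∧ b ∈ S)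
    (hAS : ∀ p q, D.QA p q → D.arc p q ⊆ S) (hE : D.Esc S 4) {Y : Finset V} (hY : Y ⊆ S) (hxY : x ∉ Y)
    (hcard : Y.card = 5) : D.Sys Y := by
  classical
  -- maximal exitable set
  obtain ⟨T, hTmem, hTmax⟩ := Finset.exists_max_image (Y.powerset.filter (D.Exitable Y)) Finset.card
    ⟨∅, by
      rw [Finset.mem_filter]
      refine ⟨Finset.empty_mem_powerset _, Finset.empty_subset _, id, fun _ => ∅, ?_, ?_, ?_⟩
      · intro t ht
        exact absurd ht (Finset.notMem_empty t)
      · intro t ht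
        exact absurd ht (Finset.notMem_empty t)
      · intro t ht
        exact absurd ht (Finset.notMem_empty t)⟩
  have hT : D.Exitable Y T := (Finset.mem_filter.1 hTmem).2
  have hmax : ∀ w ∈ Y, w ∉ T → ¬ D.Exitable Y (insert w T) := by
    intro w hw hwT hex
    have h1 := hTmax (insert w T) (Finset.mem_filter.2 ⟨Finset.mem_powerset.2 hex.1, hex⟩)
    rw [Finset.card_insert_of_notMem hwT] at h1
    omega
  -- extension of an exitable set
  have hext : ∀ (w p : V) (E0 : Set V) (n : V → V) (E : V → Set V), w ∈ Y → w ∉ T → D.IsExit w p E0 →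
      (∀ v ∈ E0, v ∈ Y → v = w) → (∀ t ∈ T, D.IsExit t (n t) (E t)) →
      (∀ t ∈ T, ∀ v ∈ E t, v ∈ Y → v = t) → (∀ t ∈ T, ∀ t' ∈ T, t ≠ t' → Disjoint (E t) (E t')) →
      (∀ t ∈ T, Disjoint (E t) E0) → False := by
    intro w p E0 n E hw hwT h1 h2 h3 h4 h5 h6
    apply hmax w hw hwT
    refine ⟨Finset.insert_subset hw hT.1, fun t => if t = w then p else n t,
      fun t => if t = w then E0 else E t, ?_, ?_, ?_⟩
    · intro t ht
      rcases Finset.mem_insert.1 ht with rfl | ht
      · simp only [if_true]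
        exact h1
      · have : t ≠ w := fun e => hwT (e ▸ ht)
        simp only [this, if_false]
        exact h3 t ht
    · intro t ht
      rcases Finset.mem_insert.1 ht with rfl | ht
      · simp only [if_true]
        exact h2
      · have : t ≠ w := fun e => hwT (e ▸ ht)
        simp only [this, if_false]
        exact h4 t ht
    · intro t ht t' ht' hne
      rcases Finset.mem_insert.1 ht with e | ht1 <;> rcases Finset.mem_insert.1 ht' with e' | ht1'
      · exact absurd (e.trans e'.symm) hne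
      · have : t' ≠ w := fun e => hwT (e ▸ ht1')
        simp only [e, this, if_true, if_false]
        exact (h6 t' ht1').symm
      · have : t ≠ w := fun e => hwT (e ▸ ht1)
        simp only [e', this, if_true, if_false]
        exact h6 t ht1
      · replace ht := ht1
        replace ht' := ht1'
        have e1 : t ≠ w := fun e => hwT (e ▸ ht)
        have e2 : t' ≠ w := fun e => hwT (e ▸ ht')
        simp only [e1, e2, if_false]
        exact h5 t ht t' ht' hne
  set L : Finset V := Y.filter (fun v => v ∈ D.Sig ∧ v ∉ T) with hLdef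
  have hL : ∀ v, v ∈ L ↔ v ∈ Y ∧ v ∈ D.Sig ∧ v ∉ T := fun v => Finset.mem_filter
  have hLY : L ⊆ Y := Finset.filter_subset _ _
  have hLS : ∀ v ∈ L, v ∈ D.Sig := fun v hv => ((hL v).1 hv).2.1
  -- no corner is left
  have hLc : ∀ v ∈ L, ¬ G.Adj x v := by
    intro v hv hvc
    obtain ⟨hvY, -, hvT⟩ := (hL v).1 hv
    obtain ⟨hTY, n, E, h1, h2, h3⟩ := hT
    refine hext v v {v} n E hvY hvT (Or.inl ⟨rfl, hvc, rfl⟩) (fun u hu _ => hu) h1 h2 h3 ?_
    intro t ht
    rw [Set.disjoint_singleton_right]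
    intro hvE
    have := h2 t ht v hvE hvY
    subst this
    exact hvT ht
  -- the paths
  have hfin : {e : V × V | D.dr L e.1 e.2}.Finite := by
    refine ((S.finite_toSet).prod (S.finite_toSet)).subset ?_
    rintro ⟨u, v⟩ huv
    have := hS u v (D.dr_adj huv)
    exact ⟨this.1, this.2⟩
  obtain ⟨n, l, h1, h2, h3⟩ := dmenger_from (r := D.dr L) hfin (Y := Y) (B := {v | G.Adj x v}) (by
    intro C hC
    obtain ⟨a, ha, b, hb, hab⟩ := star_cut D hS hAS hE hY hxY hcard hT hL hLc C hC
    exact ⟨a, ha, b, hb, hab⟩)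
  obtain ⟨z, A, E, hsh, -⟩ := star_shape D hxY hLY hLS hLc n l h1 h2 h3
  refine ⟨L, n, z, A, E, hLY, hsh, fun w hw => ⟨hLc w hw, ?_⟩⟩
  obtain ⟨hJ, hxA, hex, hEA, hAS', hzt, hdisj⟩ := hsh
  have hself : ∀ t ∈ Y, t ∈ A t := by
    intro t ht
    obtain ⟨p, hp⟩ := hJ t ht
    exact hp t (by simp)
  have hTY : T ⊆ Y := hT.1
  have hTS : ∀ t ∈ T, t ∈ D.Sig := by
    intro t ht
    obtain ⟨-, n', E', h1', -, -⟩ := hT
    rcases h1' t ht with ⟨e1, e2, -⟩ | ⟨-, q, e2, e3, -⟩
    · left
      rw [e1]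
      exact e2
    · exact Or.inr ⟨_, q, e2, e3⟩
  have hTL : ∀ t ∈ T, t ∉ L := fun t ht htL => ((hL t).1 htL).2.2 ht
  have hexT : ∀ t ∈ T, D.IsExit t (n t) (E t) := by
    intro t ht
    have := hex t (hTY ht)
    rwa [hzt t (hTY ht) (hTS t ht) (hTL t ht)] at this
  -- one side
  have side : ∀ p q, D.QA p q → ∀ w ∈ L, w ∈ D.arc p q → ∃ s ∈ Y, s ∉ L ∧ n s = p := by
    intro p q hpq w0 hw0 hw0a
    by_contra hno
    push Not at hno
    obtain ⟨w, hwm, hwmin⟩ := Finset.exists_min_image (L.filter (fun v => v ∈ D.arc p q)) (D.th p q)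
      ⟨w0, Finset.mem_filter.2 ⟨hw0, hw0a⟩⟩
    obtain ⟨hwL, hwa⟩ := Finset.mem_filter.1 hwm
    obtain ⟨hwY, hwS, hwT⟩ := (hL w).1 hwL
    have hwc := hLc w hwL
    have hwE : ∀ t ∈ T, w ∉ E t := by
      intro t ht hwE
      have hne : t ≠ w := fun e => hwT (e ▸ ht)
      exact Set.disjoint_left.1 (hdisj t (hTY ht) w hwY hne) (hEA t (hTY ht) hwE) (hself w hwY)
    have hcore : ∀ t ∈ T, ∀ u ∈ E t, u ∈ D.arc p q → D.th p q u ≤ D.th p q w → False := by
      intro t ht u hu hua hle
      exact (hexT t ht).disj hpq hwa hwc (hno t (hTY ht) (hTL t ht)) (hwE t ht) hu hua hle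
    refine hext w p {u | u ∈ D.arc p q ∧ D.th p q u ≤ D.th p q w} n E hwY hwT
      (Or.inr ⟨hwc, q, hpq, hwa, rfl⟩) ?_ hexT ?_ ?_ ?_
    · rintro v ⟨hv1, hv2⟩ hvY
      by_cases hvT : v ∈ T
      · exact (hcore v hvT v (hexT v hvT).self_mem hv1 hv2).elim
      · have hvL : v ∈ L := (hL v).2 ⟨hvY, Or.inr ⟨p, q, hpq, hv1⟩, hvT⟩
        have := hwmin v (Finset.mem_filter.2 ⟨hvL, hv1⟩)
        exact D.th_inj p q v w hpq hv1 hwa (le_antisymm hv2 this)
    · intro t ht v hv hvY
      by_contra hne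
      exact Set.disjoint_left.1 (hdisj t (hTY ht) v hvY (Ne.symm hne)) (hEA t (hTY ht) hv) (hself v hvY)
    · intro t ht t' ht' hne
      exact (hdisj t (hTY ht) t' (hTY ht') hne).mono (hEA t (hTY ht)) (hEA t' (hTY ht'))
    · intro t ht
      rw [Set.disjoint_left]
      rintro u hu ⟨hua, hle⟩
      exact hcore t ht u hu hua hle
  rcases hLS w hw with h | ⟨p, q, hpq, hwa⟩
  · exact absurd h (hLc w hw)
  · refine ⟨p, q, hpq, hwa, side p q hpq w hw hwa, side q p (D.qsymm _ _ hpq) w hw ?_⟩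
    rw [D.arc_symm p q hpq]
    exact hwa

end Pool.Agent.P6
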