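import Pool.Agent.P6.Star1
import Pool.Agent.P6.Esc
import Pool.Agent.P6.LemE
import Pool.Agent.P6.Asm
import Pool.Agent.P6.Local
import Pool.Agent.P6.Sys

set_option autoImplicit false

namespace Pool.Agent.P6

variable {E : Type} [NormedAddCommGroup E] [NormedSpace ℝ E] [FiniteDimensional ℝ E]

/-- Every 6-polytope is 3-linked. -/
theorem linked3 {S : Finset E} (h : CP S) (hd : dim S = 6) {x y a b c d : E} (hx : x ∈ S) (hy : y ∈ S)
    (ha : a ∈ S) (hb : b ∈ S) (hc : c ∈ S) (hdd : d ∈ S) (hn : [x, y, a, b, c, d].Nodup) :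
    Linked3 (PG S) Set.univ x y a b c d := by
  classical
  obtain ⟨D, hQ, hA⟩ := star_exists h hx
  have hS : ∀ a b, (PG S).Adj a b → a ∈ S ∧ b ∈ S := fun a b hab => ⟨hab.1, hab.2.1⟩
  have hAS : ∀ p q, D.QA p q → D.arc p q ⊆ S := by
    intro p q _ z hz
    rw [hA] at hz
    exact hz.1
  have hE := star_esc h hd hx D hQ hA
  have hL : D.Link := star_link_of hd.ge (fun p v hp hv l => cQA_up h hp hv l)
    (fun p q hp hq l => cQA_conn h hp hq l) D hQ
  refine linked3_of_sys D hL hn fun Y hY => ?_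
  have hYe : Y = {y, a, b, c, d} := by
    ext z
    rw [hY]
    simp
  simp only [List.nodup_cons, List.mem_cons, List.not_mem_nil, or_false, not_or, List.nodup_nil,
    and_true, not_false_eq_true] at hn
  obtain ⟨⟨hxy, hxa, hxb, hxc, hxd⟩, ⟨hya, hyb, hyc, hyd⟩, ⟨hab, hac, had⟩, ⟨hbc, hbd⟩, hcd⟩ := hn
  refine star_sys D hS hAS hE ?_ ?_ ?_
  · intro z hz
    rcases (hY z).1 hz with rfl | rfl | rfl | rfl | rfl <;> assumption
  · intro hxY
    rcases (hY x).1 hxY with e | e | e | e | e
    · exact hxy e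
    · exact hxa e
    · exact hxb e
    · exact hxc e
    · exact hxd e
  · rw [hYe, Finset.card_insert_of_notMem, Finset.card_insert_of_notMem, Finset.card_insert_of_notMem,
      Finset.card_insert_of_notMem, Finset.card_singleton]
    · simp [hcd]
    · simp [hbc, hbd]
    · simp [hab, hac, had]
    · simp [hya, hyb, hyc, hyd]

end Pool.Agent.P6
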