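import Pool.Agent.P6.StarDefs

set_option autoImplicit false

/-!
Arcs (MP_035085_co, row G1): the 2-face through `x` spanned by two adjacent corners `p`, `q`, minus
`x`, is a path of the polytope graph from `p` to `q`; existence of the structure `Star`.
-/

open Set

namespace Pool.Agent.P6

section Norm

variable {E : Type} [NormedAddCommGroup E] [NormedSpace ℝ E]

/-- The normalised direction from `x` to `y`. -/
noncomputable def nd (c : E →ₗ[ℝ] ℝ) (x y : E) : E := (c x - c y)⁻¹ • (y - x)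

theorem nd_smul {c : E →ₗ[ℝ] ℝ} {x y : E} (h : c y < c x) : (c x - c y) • nd c x y = y - x := by
  rw [nd, smul_smul, mul_inv_cancel₀ (sub_pos.2 h).ne', one_smul]

theorem map_nd (c ℓ : E →ₗ[ℝ] ℝ) (x y : E) : ℓ (nd c x y) = (c x - c y)⁻¹ * (ℓ y - ℓ x) := by
  simp [nd]

theorem map_nd_self {c : E →ₗ[ℝ] ℝ} {x y : E} (h : c y < c x) : c (nd c x y) = -1 := by
  rw [map_nd]
  have := (sub_pos.2 h).ne'
  field_simp
  ring

theorem map_nd_pos {c ℓ : E →ₗ[ℝ] ℝ} {x y : E} (h : c y < c x) : 0 < ℓ (nd c x y) ↔ ℓ x < ℓ y := by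
  rw [map_nd, mul_pos_iff_of_pos_left (inv_pos.2 (sub_pos.2 h)), sub_pos]

theorem map_nd_eq_zero {c ℓ : E →ₗ[ℝ] ℝ} {x y : E} (h : c y < c x) :
    ℓ (nd c x y) = 0 ↔ ℓ y = ℓ x := by
  rw [map_nd, mul_eq_zero, sub_eq_zero]
  constructor
  · rintro (h1 | h1)
    · exact absurd h1 (inv_pos.2 (sub_pos.2 h)).ne'
    · exact h1
  · intro h1; exact Or.inr h1

theorem map_nd_le_zero {c ℓ : E →ₗ[ℝ] ℝ} {x y : E} (h : c y < c x) :
    ℓ (nd c x y) ≤ 0 ↔ ℓ y ≤ ℓ x := by
  have := map_nd_pos (ℓ := ℓ) h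
  rw [← not_lt, this, not_lt]

theorem nd_inj {S : Finset E} (h : CP S) {c : E →ₗ[ℝ] ℝ} {x : E} (hx : x ∈ S)
    (hc : ∀ y ∈ S, y ≠ x → c y < c x) {y z : E} (hy : y ∈ S) (hyx : y ≠ x) (hz : z ∈ S)
    (hzx : z ≠ x) (he : nd c x y = nd c x z) : y = z := by
  have key : ∀ y₁ ∈ S, ∀ y₂ ∈ S, y₁ ≠ x → y₂ ≠ x → c x - c y₁ ≤ c x - c y₂ →
      nd c x y₁ = nd c x y₂ → y₁ = y₂ := by
    intro y₁ h₁ y₂ h₂ hn₁ hn₂ hle he
    by_contra hne
    have p1 := sub_pos.2 (hc y₁ h₁ hn₁)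
    have p2 := sub_pos.2 (hc y₂ h₂ hn₂)
    refine h.not_between h₁ hx h₂ (Ne.symm hn₁) (Ne.symm hne) ((c x - c y₁) / (c x - c y₂))
      (div_nonneg p1.le p2.le) ((div_le_one p2).2 hle) ?_
    have h3 : y₁ - x = ((c x - c y₁) / (c x - c y₂)) • (y₂ - x) := by
      rw [← nd_smul (hc y₁ h₁ hn₁), he, nd, smul_smul, div_eq_mul_inv]
    rw [← h3]; abel
  rcases le_total (c x - c y) (c x - c z) with hle | hle
  · exact key y hy z hz hyx hzx hle he
  · exact (key z hz y hy hzx hyx hle he.symm).symm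

/-- No vertex lies in a triangle of three others. -/
theorem CP.not_tri {S : Finset E} (h : CP S) {u x v w : E} (hu : u ∈ S) (hx : x ∈ S) (hv : v ∈ S)
    (hw : w ∈ S) (hxu : x ≠ u) (hvu : v ≠ u) (hwu : w ≠ u) (a b : ℝ) (ha : 0 ≤ a) (hb : 0 ≤ b)
    (hab : a + b ≤ 1) (he : u - x = a • (v - x) + b • (w - x)) : False := by
  obtain ⟨c, hc⟩ := h.sep hu
  have h1 := hc v hv hvu
  have h2 := hc w hw hwu
  have h0 := hc x hx hxu
  have h3 : c u - c x = a * (c v - c x) + b * (c w - c x) := by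
    rw [← map_sub, he]; simp
  rcases eq_or_lt_of_le ha with ha0 | ha0
  · rcases eq_or_lt_of_le hb with hb0 | hb0
    · rw [← ha0, ← hb0] at h3; linarith
    · nlinarith
  · nlinarith

end Norm

section Arc

variable {E : Type} [NormedAddCommGroup E] [NormedSpace ℝ E]

/-- A coordinate along the segment from `nd p` to `nd q`. -/
theorem exists_coord {S : Finset E} (h : CP S) {c : E →ₗ[ℝ] ℝ} {x p q : E} (hx : x ∈ S)
    (hc : ∀ y ∈ S, y ≠ x → c y < c x) (hp : p ∈ S) (hpx : p ≠ x) (hq : q ∈ S) (hqx : q ≠ x)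
    (hpq : p ≠ q) : ∃ m : E →ₗ[ℝ] ℝ, m (nd c x p) = 0 ∧ m (nd c x q) = 1 := by
  classical
  obtain ⟨g, hg⟩ := exists_inj ({nd c x p, nd c x q} : Finset E)
  have hne : g (nd c x q) - g (nd c x p) ≠ 0 := by
    intro h0
    have h1 := hg (nd c x q) (by simp) (nd c x p) (by simp) (sub_eq_zero.1 h0)
    exact hpq (nd_inj h hx hc hq hqx hp hpx h1).symm
  refine ⟨(g (nd c x q) - g (nd c x p))⁻¹ • (g + g (nd c x p) • c), ?_, ?_⟩
  · simp only [LinearMap.smul_apply, LinearMap.add_apply, smul_eq_mul, map_nd_self (hc p hp hpx)]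
    ring
  · simp only [LinearMap.smul_apply, LinearMap.add_apply, smul_eq_mul, map_nd_self (hc q hq hqx)]
    rw [mul_neg_one, ← sub_eq_add_neg, inv_mul_cancel₀ hne]

theorem inCone_coord {S : Finset E} {c : E →ₗ[ℝ] ℝ} {x p q y : E}
    (hc : ∀ y ∈ S, y ≠ x → c y < c x) (hp : p ∈ S) (hpx : p ≠ x) (hq : q ∈ S) (hqx : q ≠ x)
    {m : E →ₗ[ℝ] ℝ} (hm0 : m (nd c x p) = 0) (hm1 : m (nd c x q) = 1)
    (hy : y ∈ cArc S x p q) :
    0 ≤ m (nd c x y) ∧ m (nd c x y) ≤ 1 ∧
      nd c x y = (1 - m (nd c x y)) • nd c x p + m (nd c x y) • nd c x q := by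
  obtain ⟨hyS, hyx, α, β, ha, hb, h3⟩ := hy
  have py := sub_pos.2 (hc y hyS hyx)
  have pp := sub_pos.2 (hc p hp hpx)
  have pq := sub_pos.2 (hc q hq hqx)
  set α' : ℝ := (c x - c y)⁻¹ * (α * (c x - c p)) with hα'
  set β' : ℝ := (c x - c y)⁻¹ * (β * (c x - c q)) with hβ'
  have e1 : nd c x y = α' • nd c x p + β' • nd c x q := by
    have : nd c x y = (c x - c y)⁻¹ • (y - x) := rfl
    rw [this, h3, smul_add, hα', hβ', ← nd_smul (hc p hp hpx), ← nd_smul (hc q hq hqx)]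
    simp only [smul_smul]
  have ha' : 0 ≤ α' := mul_nonneg (inv_nonneg.2 py.le) (mul_nonneg ha pp.le)
  have hb' : 0 ≤ β' := mul_nonneg (inv_nonneg.2 py.le) (mul_nonneg hb pq.le)
  have e2 : m (nd c x y) = β' := by
    rw [e1, map_add, map_smul, map_smul, hm0, hm1]; simp
  have e3 : α' + β' = 1 := by
    have := congrArg c e1
    rw [map_add, map_smul, map_smul, map_nd_self (hc y hyS hyx), map_nd_self (hc p hp hpx),
      map_nd_self (hc q hq hqx)] at this
    simp only [smul_eq_mul] at this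
    linarith
  rw [e2]
  refine ⟨hb', by linarith, ?_⟩
  rw [show (1 : ℝ) - β' = α' by linarith]
  exact e1

theorem inCone_of_nd {S : Finset E} {c : E →ₗ[ℝ] ℝ} {x v w y : E}
    (hc : ∀ y ∈ S, y ≠ x → c y < c x) (hv : v ∈ S) (hvx : v ≠ x) (hw : w ∈ S) (hwx : w ≠ x)
    (hy : y ∈ S) (hyx : y ≠ x) (s : ℝ) (h0 : 0 ≤ s) (h1 : s ≤ 1)
    (he : nd c x y = (1 - s) • nd c x v + s • nd c x w) : InCone x v w y := by
  have py := sub_pos.2 (hc y hy hyx)
  have pv := sub_pos.2 (hc v hv hvx)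
  have pw := sub_pos.2 (hc w hw hwx)
  refine ⟨(c x - c y) * ((1 - s) * (c x - c v)⁻¹), (c x - c y) * (s * (c x - c w)⁻¹), ?_, ?_, ?_⟩
  · exact mul_nonneg py.le (mul_nonneg (by linarith) (inv_nonneg.2 pv.le))
  · exact mul_nonneg py.le (mul_nonneg h0 (inv_nonneg.2 pw.le))
  · rw [← nd_smul (hc y hy hyx), he, smul_add]
    simp only [nd, smul_smul]

/-- Between two points of an arc. -/
theorem inCone_of_coord {S : Finset E} {c : E →ₗ[ℝ] ℝ} {x p q v w y : E}
    (hc : ∀ y ∈ S, y ≠ x → c y < c x) (hp : p ∈ S) (hpx : p ≠ x) (hq : q ∈ S) (hqx : q ≠ x)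
    {m : E →ₗ[ℝ] ℝ} (hm0 : m (nd c x p) = 0) (hm1 : m (nd c x q) = 1)
    (hv : v ∈ cArc S x p q) (hw : w ∈ cArc S x p q) (hy : y ∈ cArc S x p q)
    (h1 : m (nd c x v) ≤ m (nd c x y)) (h2 : m (nd c x y) ≤ m (nd c x w))
    (h3 : m (nd c x v) < m (nd c x w)) :
    ∃ s : ℝ, 0 ≤ s ∧ s ≤ 1 ∧ m (nd c x y) = (1 - s) * m (nd c x v) + s * m (nd c x w) ∧
      nd c x y = (1 - s) • nd c x v + s • nd c x w := by
  obtain ⟨-, -, ev⟩ := inCone_coord hc hp hpx hq hqx hm0 hm1 hv
  obtain ⟨-, -, ew⟩ := inCone_coord hc hp hpx hq hqx hm0 hm1 hw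
  obtain ⟨-, -, ey⟩ := inCone_coord hc hp hpx hq hqx hm0 hm1 hy
  set a := m (nd c x v) with ha
  set b := m (nd c x w) with hb
  set t := m (nd c x y) with ht
  have hab : 0 < b - a := sub_pos.2 h3
  have hs : t = (1 - (t - a) / (b - a)) * a + (t - a) / (b - a) * b := by
    field_simp
    ring
  refine ⟨(t - a) / (b - a), div_nonneg (sub_nonneg.2 h1) hab.le,
    (div_le_one hab).2 (by linarith), hs, ?_⟩
  have e1 : (1 - t) = (1 - (t - a) / (b - a)) * (1 - a) + (t - a) / (b - a) * (1 - b) := by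
    field_simp
    ring
  generalize (t - a) / (b - a) = s at hs e1 ⊢
  rw [ev, ew, ey, smul_add, smul_add, smul_smul, smul_smul, smul_smul, smul_smul, e1]
  have e2 : t • nd c x q = ((1 - s) * a) • nd c x q + (s * b) • nd c x q := by
    rw [← add_smul, ← hs]
  rw [e2, add_smul]
  abel

/-- **Consecutive vertices of an arc are adjacent.** -/
theorem adj_of_consecutive {S : Finset E} (h : CP S) {c : E →ₗ[ℝ] ℝ} {x p q v w : E}
    (hx : x ∈ S) (hc : ∀ y ∈ S, y ≠ x → c y < c x) (hpq : cQA S x p q)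
    {m : E →ₗ[ℝ] ℝ} (hm0 : m (nd c x p) = 0) (hm1 : m (nd c x q) = 1)
    (hv : v ∈ cArc S x p q) (hw : w ∈ cArc S x p q) (hlt : m (nd c x v) < m (nd c x w))
    (hno : ∀ y, y ∈ cArc S x p q → m (nd c x y) ≤ m (nd c x v) ∨ m (nd c x w) ≤ m (nd c x y)) :
    (PG S).Adj v w := by
  obtain ⟨hp', hq', hne, ℓ, hℓp, hℓq, hℓ⟩ := hpq
  have hp := hp'.2.1
  have hq := hq'.2.1
  have hpx : p ≠ x := hp'.2.2.1.symm
  have hqx : q ≠ x := hq'.2.2.1.symm
  have hvS := hv.1
  have hwS := hw.1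
  have hvx := hv.2.1
  have hwx := hw.2.1
  have pv := sub_pos.2 (hc v hvS hvx)
  have pw := sub_pos.2 (hc w hwS hwx)
  have hvw : v ≠ w := by rintro rfl; exact lt_irrefl _ hlt
  have hd : 0 < m (nd c x w) - m (nd c x v) := sub_pos.2 hlt
  -- the functional with value `1` on `v - x` and on `w - x`
  set B : ℝ := ((c x - c w)⁻¹ - (c x - c v)⁻¹) / (m (nd c x w) - m (nd c x v)) with hB
  set A : ℝ := (c x - c v)⁻¹ - B * m (nd c x v) with hA
  set g : E →ₗ[ℝ] ℝ := B • m - A • c with hg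
  have gnd : ∀ y ∈ S, y ≠ x → g (nd c x y) = A + B * m (nd c x y) := by
    intro y hy hyx
    simp only [hg, LinearMap.sub_apply, LinearMap.smul_apply, smul_eq_mul,
      map_nd_self (hc y hy hyx)]
    ring
  have gval : ∀ y ∈ S, y ≠ x → g y - g x = (c x - c y) * (A + B * m (nd c x y)) := by
    intro y hy hyx
    rw [← gnd y hy hyx, ← map_sub, ← nd_smul (hc y hy hyx), map_smul, smul_eq_mul]
  have gv0 : A + B * m (nd c x v) = (c x - c v)⁻¹ := by rw [hA]; ring
  have gw0 : A + B * m (nd c x w) = (c x - c w)⁻¹ := by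
    have : B * (m (nd c x w) - m (nd c x v)) = (c x - c w)⁻¹ - (c x - c v)⁻¹ := by
      rw [hB, div_mul_cancel₀ _ hd.ne']
    rw [hA]; linarith
  have gv : g v - g x = 1 := by
    rw [gval v hvS hvx, gv0, mul_inv_cancel₀ pv.ne']
  have gw : g w - g x = 1 := by
    rw [gval w hwS hwx, gw0, mul_inv_cancel₀ pw.ne']
  -- the other vertices of the arc have a smaller value
  have main : ∀ v w y : E, v ∈ cArc S x p q → w ∈ cArc S x p q → y ∈ cArc S x p q →
      g v - g x = 1 → g w - g x = 1 → y ≠ v → y ≠ w → v ≠ w →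
      (∃ s : ℝ, 0 ≤ s ∧ s ≤ 1 ∧ m (nd c x v) = (1 - s) * m (nd c x y) + s * m (nd c x w) ∧
        nd c x v = (1 - s) • nd c x y + s • nd c x w) → g y - g x < 1 := by
    intro v w y hv hw hy gv gw hyv hyw hvw hs
    obtain ⟨s, s0, s1, s2, s3⟩ := hs
    by_contra hge
    push Not at hge
    have pv := sub_pos.2 (hc v hv.1 hv.2.1)
    have pw := sub_pos.2 (hc w hw.1 hw.2.1)
    have py := sub_pos.2 (hc y hy.1 hy.2.1)
    rw [gval v hv.1 hv.2.1] at gv
    rw [gval w hw.1 hw.2.1] at gw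
    rw [gval y hy.1 hy.2.1] at hge
    have ivv : (c x - c v)⁻¹ = A + B * m (nd c x v) := by
      rw [inv_eq_one_div, div_eq_iff pv.ne', mul_comm]; exact gv.symm
    have iw : (c x - c w)⁻¹ = A + B * m (nd c x w) := by
      rw [inv_eq_one_div, div_eq_iff pw.ne', mul_comm]; exact gw.symm
    have iy : (c x - c y)⁻¹ ≤ A + B * m (nd c x y) := by
      rw [inv_eq_one_div, div_le_iff₀ py, mul_comm]; exact hge
    refine h.not_tri hv.1 hx hy.1 hw.1 hv.2.1.symm hyv hvw.symm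
      ((c x - c v) * ((1 - s) * (c x - c y)⁻¹)) ((c x - c v) * (s * (c x - c w)⁻¹))
      (mul_nonneg pv.le (mul_nonneg (by linarith) (inv_nonneg.2 py.le)))
      (mul_nonneg pv.le (mul_nonneg s0 (inv_nonneg.2 pw.le))) ?_ ?_
    · have h5 : (1 - s) * (c x - c y)⁻¹ + s * (c x - c w)⁻¹ ≤ (c x - c v)⁻¹ := by
        rw [ivv, iw, s2]
        have := mul_le_mul_of_nonneg_left iy (show 0 ≤ 1 - s by linarith)
        linarith
      rw [← mul_add]
      calc (c x - c v) * ((1 - s) * (c x - c y)⁻¹ + s * (c x - c w)⁻¹)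
          ≤ (c x - c v) * (c x - c v)⁻¹ := mul_le_mul_of_nonneg_left h5 pv.le
        _ = 1 := mul_inv_cancel₀ pv.ne'
    · rw [← nd_smul (hc v hv.1 hv.2.1), s3, smul_add]
      simp only [nd, smul_smul]
  have hlow : ∀ y, y ∈ cArc S x p q → y ≠ v → y ≠ w → g y - g x < 1 := by
    intro y hy hyv hyw
    rcases hno y hy with h1 | h1
    · refine main v w y hv hw hy gv gw hyv hyw hvw ?_
      exact inCone_of_coord hc hp hpx hq hqx hm0 hm1 hy hw hv h1 hlt.le (lt_of_le_of_lt h1 hlt)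
    · refine main w v y hw hv hy gw gv hyw hyv hvw.symm ?_
      obtain ⟨s, s0, s1, s2, s3⟩ := inCone_of_coord hc hp hpx hq hqx hm0 hm1 hv hy hw hlt.le h1
        (lt_of_lt_of_le hlt h1)
      refine ⟨1 - s, by linarith, by linarith, ?_, ?_⟩
      · rw [s2]; ring
      · rw [s3, add_comm, sub_sub_cancel]
  -- vertices of the arc are in the face
  have hface : ∀ y, y ∈ cArc S x p q → ℓ y = ℓ x := by
    intro y hy
    obtain ⟨α, β, -, -, h3⟩ := hy.2.2
    have : ℓ y - ℓ x = α * (ℓ p - ℓ x) + β * (ℓ q - ℓ x) := by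
      rw [← map_sub, h3]; simp
    rw [hℓp, hℓq] at this
    linarith
  obtain ⟨ε, hε, heps⟩ := exists_eps S ℓ g
  refine ⟨hvS, hwS, hvw, ℓ + ε • g, ?_, fun y hy => ?_⟩
  · simp only [LinearMap.add_apply, LinearMap.smul_apply, smul_eq_mul, hface v hv, hface w hw]
    rw [show g w = g v by linarith]
  · by_cases hyx : y = x
    · subst hyx
      have e1 : (ℓ + ε • g) y < (ℓ + ε • g) v := by
        simp only [LinearMap.add_apply, LinearMap.smul_apply, smul_eq_mul, hface v hv]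
        have := mul_lt_mul_of_pos_left (show g y < g v by linarith) hε
        linarith
      exact ⟨e1.le, fun he => absurd he e1.ne⟩
    · rcases eq_or_lt_of_le (hℓ y hy).1 with h1 | h1
      · have hyA : y ∈ cArc S x p q := ⟨hy, hyx, (hℓ y hy).2 h1⟩
        by_cases hyv : y = v
        · subst hyv; exact ⟨le_rfl, fun _ => Or.inl rfl⟩
        by_cases hyw : y = w
        · subst hyw
          refine ⟨le_of_eq ?_, fun _ => Or.inr rfl⟩
          simp only [LinearMap.add_apply, LinearMap.smul_apply, smul_eq_mul, hface v hv, hface y hw]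
          rw [show g y = g v by linarith]
        · have e1 : (ℓ + ε • g) y < (ℓ + ε • g) v := by
            simp only [LinearMap.add_apply, LinearMap.smul_apply, smul_eq_mul, hface v hv,
              hface y hyA]
            have := mul_lt_mul_of_pos_left (show g y < g v by linarith [hlow y hyA hyv hyw]) hε
            linarith
          exact ⟨e1.le, fun he => absurd he e1.ne⟩
      · have e1 := heps y hy v hvS (by rw [hface v hv]; exact h1)
        exact ⟨e1.le, fun he => absurd he e1.ne⟩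

theorem inCone_symm {x p q y : E} (h : InCone x p q y) : InCone x q p y := by
  obtain ⟨α, β, h1, h2, h3⟩ := h
  exact ⟨β, α, h2, h1, by rw [h3, add_comm]⟩

theorem cQA_symm {S : Finset E} {x p q : E} (h : cQA S x p q) : cQA S x q p := by
  obtain ⟨h1, h2, h3, g, h4, h5, h6⟩ := h
  exact ⟨h2, h1, h3.symm, g, h5, h4, fun v hv => ⟨(h6 v hv).1, fun he => inCone_symm ((h6 v hv).2 he)⟩⟩

/-- A neighbour of `x` in the cone of `p` and `q` is `p` or `q`. -/
theorem eq_of_inCone {S : Finset E} {x p q y : E} (hp : p ∈ S) (hq : q ∈ S) (hpx : p ≠ x)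
    (hqx : q ≠ x) (hy : (PG S).Adj x y) (h : InCone x p q y) : y = p ∨ y = q := by
  obtain ⟨hx, hyS, hxy, ℓ, h1, h2⟩ := hy
  obtain ⟨α, β, ha, hb, h3⟩ := h
  have h4 : ℓ y - ℓ x = α * (ℓ p - ℓ x) + β * (ℓ q - ℓ x) := by
    rw [← map_sub, h3]; simp
  rw [h1, sub_self] at h4
  have hp' := (h2 p hp)
  have hq' := (h2 q hq)
  have h5 := mul_nonpos_of_nonneg_of_nonpos ha (sub_nonpos.2 hp'.1)
  have h6 := mul_nonpos_of_nonneg_of_nonpos hb (sub_nonpos.2 hq'.1)
  have h7 : α * (ℓ p - ℓ x) = 0 := by linarith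
  have h8 : β * (ℓ q - ℓ x) = 0 := by linarith
  rcases mul_eq_zero.1 h7 with h | h
  · rcases mul_eq_zero.1 h8 with h' | h'
    · rw [h, h', zero_smul, zero_smul, add_zero, sub_eq_zero] at h3
      exact absurd h3.symm hxy
    · right
      exact ((hq'.2 (sub_eq_zero.1 h')).resolve_left hqx).symm
  · left
    exact ((hp'.2 (sub_eq_zero.1 h)).resolve_left hpx).symm

/-- An interior vertex of an arc lies in only one arc. -/
theorem cArc_unique {S : Finset E} (h : CP S) {x p q p' q' v : E} (hx : x ∈ S)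
    (hpq : cQA S x p q) (hpq' : cQA S x p' q') (hv : v ∈ cArc S x p q) (hv' : v ∈ cArc S x p' q')
    (hno : ¬ (PG S).Adj x v) : (p' = p ∧ q' = q) ∨ (p' = q ∧ q' = p) := by
  obtain ⟨c, hc⟩ := h.sep hx
  have hp := hpq.1.2.1
  have hq := hpq.2.1.2.1
  have hpx : p ≠ x := hpq.1.2.2.1.symm
  have hqx : q ≠ x := hpq.2.1.2.2.1.symm
  have hp' := hpq'.1.2.1
  have hq' := hpq'.2.1.2.1
  have hpx' : p' ≠ x := hpq'.1.2.2.1.symm
  have hqx' : q' ≠ x := hpq'.2.1.2.2.1.symm
  obtain ⟨g, hgp, hgq, hg⟩ := hpq'.2.2.2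
  obtain ⟨hvS, hvx, α, β, ha, hb, h3⟩ := hv
  -- the vertex is in the second face
  have hgv : g v = g x := by
    obtain ⟨-, -, α', β', -, -, h4⟩ := hv'
    have : g v - g x = α' * (g p' - g x) + β' * (g q' - g x) := by
      rw [← map_sub, h4]; simp
    rw [hgp, hgq] at this
    linarith
  have hray : ∀ (r : E) (γ : ℝ), (PG S).Adj x r → 0 ≤ γ → v - x = γ • (r - x) → False := by
    intro r γ hr hγ he
    have hrx : r ≠ x := hr.2.2.1.symm
    have hγ0 : γ ≠ 0 := by
      rintro rfl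
      rw [zero_smul, sub_eq_zero] at he
      exact hvx he
    have pr := sub_pos.2 (hc r hr.2.1 hrx)
    have pv := sub_pos.2 (hc v hvS hvx)
    have e1 : c x - c v = γ * (c x - c r) := by
      have := congrArg c he
      rw [map_smul, map_sub, map_sub, smul_eq_mul] at this
      linarith
    have e2 : nd c x v = nd c x r := by
      rw [nd, he, e1, nd, smul_smul, mul_inv, mul_comm (γ⁻¹), mul_assoc, inv_mul_cancel₀ hγ0,
        mul_one]
    have e3 := nd_inj h hx hc hvS hvx hr.2.1 hrx e2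
    rw [e3] at hno
    exact hno hr
  have ha' : 0 < α := by
    rcases eq_or_lt_of_le ha with h0 | h0
    · exfalso
      rw [← h0, zero_smul, zero_add] at h3
      exact hray q β hpq.2.1 hb h3
    · exact h0
  have hb' : 0 < β := by
    rcases eq_or_lt_of_le hb with h0 | h0
    · exfalso
      rw [← h0, zero_smul, add_zero] at h3
      exact hray p α hpq.1 ha h3
    · exact h0
  have h4 : g v - g x = α * (g p - g x) + β * (g q - g x) := by
    rw [← map_sub, h3]; simp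
  rw [hgv, sub_self] at h4
  have h5 := mul_nonpos_of_nonneg_of_nonpos ha (sub_nonpos.2 (hg p hp).1)
  have h6 := mul_nonpos_of_nonneg_of_nonpos hb (sub_nonpos.2 (hg q hq).1)
  have h7 : g p = g x := by
    have : α * (g p - g x) = 0 := by linarith
    exact sub_eq_zero.1 ((mul_eq_zero.1 this).resolve_left ha'.ne')
  have h8 : g q = g x := by
    have : β * (g q - g x) = 0 := by linarith
    exact sub_eq_zero.1 ((mul_eq_zero.1 this).resolve_left hb'.ne')
  have k1 := eq_of_inCone hp' hq' hpx' hqx' hpq.1 ((hg p hp).2 h7)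
  have k2 := eq_of_inCone hp' hq' hpx' hqx' hpq.2.1 ((hg q hq).2 h8)
  have hne := hpq.2.2.1
  rcases k1 with k1 | k1 <;> rcases k2 with k2 | k2
  · exact absurd (k1.trans k2.symm) hne
  · exact Or.inl ⟨k1.symm, k2.symm⟩
  · exact Or.inr ⟨k2.symm, k1.symm⟩
  · exact absurd (k1.trans k2.symm) hne

/-- **G1**: the local picture. -/
theorem star_exists {S : Finset E} (h : CP S) {x : E} (hx : x ∈ S) :
    ∃ D : Star (PG S) x, D.QA = cQA S x ∧ D.arc = cArc S x := by
  classical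
  obtain ⟨c, hc⟩ := h.sep hx
  have hex : ∀ p q, ∃ m : E →ₗ[ℝ] ℝ, cQA S x p q → m (nd c x p) = 0 ∧ m (nd c x q) = 1 := by
    intro p q
    by_cases hpq : cQA S x p q
    · obtain ⟨m, h1, h2⟩ := exists_coord h hx hc hpq.1.2.1 hpq.1.2.2.1.symm hpq.2.1.2.1
        hpq.2.1.2.2.1.symm hpq.2.2.1
      exact ⟨m, fun _ => ⟨h1, h2⟩⟩
    · exact ⟨0, fun h => absurd h hpq⟩
  choose m hm using hex
  have hcoord : ∀ p q v, cQA S x p q → v ∈ cArc S x p q →
      0 ≤ m p q (nd c x v) ∧ m p q (nd c x v) ≤ 1 ∧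
        nd c x v = (1 - m p q (nd c x v)) • nd c x p + m p q (nd c x v) • nd c x q := by
    intro p q v hpq hv
    exact inCone_coord hc hpq.1.2.1 hpq.1.2.2.1.symm hpq.2.1.2.1 hpq.2.1.2.2.1.symm
      (hm p q hpq).1 (hm p q hpq).2 hv
  have harc : ∀ p q, cArc S x q p = cArc S x p q := by
    intro p q
    ext v
    exact ⟨fun hv => ⟨hv.1, hv.2.1, inCone_symm hv.2.2⟩, fun hv => ⟨hv.1, hv.2.1, inCone_symm hv.2.2⟩⟩
  have hinj : ∀ p q u v, cQA S x p q → u ∈ cArc S x p q → v ∈ cArc S x p q →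
      m p q (nd c x u) = m p q (nd c x v) → u = v := by
    intro p q u v hpq hu hv he
    have e1 := (hcoord p q u hpq hu).2.2
    have e2 := (hcoord p q v hpq hv).2.2
    rw [he, ← e2] at e1
    exact nd_inj h hx hc hu.1 hu.2.1 hv.1 hv.2.1 e1
  have hleft : ∀ p q, cQA S x p q → p ∈ cArc S x p q := by
    intro p q hpq
    exact ⟨hpq.1.2.1, hpq.1.2.2.1.symm, 1, 0, zero_le_one, le_rfl, by simp⟩
  have hflip : ∀ p q v, cQA S x p q → v ∈ cArc S x p q →
      m q p (nd c x v) = 1 - m p q (nd c x v) := by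
    intro p q v hpq hv
    have h1 := (hcoord p q v hpq hv).2.2
    have h2 := hm q p (cQA_symm hpq)
    rw [h1, map_add, map_smul, map_smul, h2.1, h2.2, ← h1]
    simp
  refine ⟨{
    QA := cQA S x
    arc := cArc S x
    th := fun p q v => m p q (nd c x v)
    qsymm := fun p q h => cQA_symm h
    qne := fun p q h => h.2.2.1
    qadj := fun p q h => h.1
    arc_symm := fun p q _ => harc p q
    arc_finite := fun p q _ => S.finite_toSet.subset fun v hv => hv.1
    left_mem := hleft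
    x_notMem := fun p q _ hx' => hx'.2.1 rfl
    corner := fun p q v hpq hv hadj => eq_of_inCone hpq.1.2.1 hpq.2.1.2.1 hpq.1.2.2.1.symm
      hpq.2.1.2.2.1.symm hadj hv.2.2
    unique := fun p q p' q' v hpq hpq' hv hv' hno => cArc_unique h hx hpq hpq' hv hv' hno
    th_symm := ?_
    th_inj := hinj
    th_left := ?_
    next := ?_ }, rfl, rfl⟩
  · intro p q u v hpq hu hv
    show m q p (nd c x u) < m q p (nd c x v) ↔ m p q (nd c x v) < m p q (nd c x u)
    rw [hflip p q u hpq hu, hflip p q v hpq hv]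
    constructor <;> intro h <;> linarith
  · intro p q v hpq hv hne
    show m p q (nd c x p) < m p q (nd c x v)
    have h1 := (hcoord p q v hpq hv).1
    have h2 := (hm p q hpq).1
    rw [h2]
    refine lt_of_le_of_ne h1 fun he => hne ?_
    exact (hinj p q p v hpq (hleft p q hpq) hv (by rw [h2]; exact he)).symm
  · intro p q u v hpq hu hv hlt hno
    refine adj_of_consecutive h hx hc hpq (hm p q hpq).1 (hm p q hpq).2 hu hv hlt ?_
    intro y hy
    by_contra hcon
    rw [not_or, not_le, not_le] at hcon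
    exact hno y hy ⟨hcon.1, hcon.2⟩

end Arc

end Pool.Agent.P6
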