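import Pool.Agent.P6.Dim

set_option autoImplicit false

/-!
The local picture of a polytope graph at a vertex `x` (MP_035085_co): corners = neighbours of `x`,
arcs = 2-faces through `x` without `x`.  Abstract version (`Star`) and concrete version (`cQA`, `cArc`).
-/

namespace Pool.Agent.P6

section Abstract

variable {V : Type}

/-- The local picture of a graph `G` at a vertex `x`. -/
structure Star (G : SimpleGraph V) (x : V) where
  /-- adjacency of corners (neighbours of `x`) -/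
  QA : V → V → Prop
  /-- the set of vertices of the arc between the corners `p` and `q`, `p` and `q` included -/
  arc : V → V → Set V
  /-- position of a vertex on the arc, measured from `p` -/
  th : V → V → V → ℝ
  qsymm : ∀ p q, QA p q → QA q p
  qne : ∀ p q, QA p q → p ≠ q
  qadj : ∀ p q, QA p q → G.Adj x p
  arc_symm : ∀ p q, QA p q → arc q p = arc p q
  arc_finite : ∀ p q, QA p q → (arc p q).Finite
  left_mem : ∀ p q, QA p q → p ∈ arc p q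
  x_notMem : ∀ p q, QA p q → x ∉ arc p q
  corner : ∀ p q v, QA p q → v ∈ arc p q → G.Adj x v → v = p ∨ v = q
  unique : ∀ p q p' q' v, QA p q → QA p' q' → v ∈ arc p q → v ∈ arc p' q' → ¬ G.Adj x v →
    (p' = p ∧ q' = q) ∨ (p' = q ∧ q' = p)
  th_symm : ∀ p q u v, QA p q → u ∈ arc p q → v ∈ arc p q →
    (th q p u < th q p v ↔ th p q v < th p q u)
  th_inj : ∀ p q u v, QA p q → u ∈ arc p q → v ∈ arc p q → th p q u = th p q v → u = v
  th_left : ∀ p q v, QA p q → v ∈ arc p q → v ≠ p → th p q p < th p q v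
  next : ∀ p q u v, QA p q → u ∈ arc p q → v ∈ arc p q → th p q u < th p q v →
    (∀ w ∈ arc p q, ¬ (th p q u < th p q w ∧ th p q w < th p q v)) → G.Adj u v

variable {G : SimpleGraph V} {x : V}

/-- corners and vertices of arcs -/
def Star.Sig (D : Star G x) : Set V := {v | G.Adj x v ∨ ∃ p q, D.QA p q ∧ v ∈ D.arc p q}

/-- `u` and `v` are consecutive on an arc (a symmetric relation) -/
def Star.Nx (D : Star G x) (u v : V) : Prop :=
  ∃ p q, D.QA p q ∧ u ∈ D.arc p q ∧ v ∈ D.arc p q ∧ D.th p q u < D.th p q v ∧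
    ∀ w ∈ D.arc p q, ¬ (D.th p q u < D.th p q w ∧ D.th p q w < D.th p q v)

/-- `E` is an exit: the part of an arc from `z` to the corner `n` -/
def Star.IsExit (D : Star G x) (z n : V) (E : Set V) : Prop :=
  (z = n ∧ G.Adj x n ∧ E = {n}) ∨
  (¬ G.Adj x z ∧ ∃ q, D.QA n q ∧ z ∈ D.arc n q ∧ E = {w | w ∈ D.arc n q ∧ D.th n q w ≤ D.th n q z})

/-- combinatorial version of the flat spanned by `x` and `C` -/
def Star.Cl (D : Star G x) (C : Finset V) : Set V :=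
  {v | v = x ∨ v ∈ C ∨ ∃ p q, D.QA p q ∧ v ∈ D.arc p q ∧
    ∃ c₁ ∈ C, ∃ c₂ ∈ C, c₁ ≠ c₂ ∧ c₁ ∈ D.arc p q ∧ c₂ ∈ D.arc p q}

/-- (H1) from every vertex which is no corner one can escape to a corner outside of the closure
of at most `k` vertices -/
def Star.Esc (D : Star G x) (S : Finset V) (k : ℕ) : Prop :=
  ∀ C : Finset V, C.card ≤ k → C ⊆ S → ∀ u ∈ S, u ≠ x → u ∉ C → ¬ G.Adj x u →
    ∃ w n, G.Adj u w ∧ G.Adj x n ∧ Joined G (D.Cl C)ᶜ w n

/-- (H2) Lemma E -/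
def Star.Link (D : Star G x) : Prop :=
  ∀ n₀ na nb nc nd : V, G.Adj x n₀ → G.Adj x na → G.Adj x nb → G.Adj x nc → G.Adj x nd →
    [n₀, na, nb, nc, nd].Nodup →
    ∃ M N : Set V, (∀ m ∈ M, G.Adj x m) ∧ (∀ m ∈ N, G.Adj x m) ∧ Disjoint M N ∧
      n₀ ∉ M ∧ na ∉ M ∧ nb ∉ M ∧ nc ∉ M ∧ nd ∉ M ∧ n₀ ∉ N ∧ na ∉ N ∧ nb ∉ N ∧
      (∃ u ∈ M, ∃ v ∈ M, D.QA na u ∧ D.QA v nb ∧
        Relation.ReflTransGen (fun a b => D.QA a b ∧ b ∈ M) u v) ∧
      nc ∈ N ∧ nd ∈ N ∧ Relation.ReflTransGen (fun a b => D.QA a b ∧ b ∈ N) nc nd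

/-- the digraph of the proof: one may enter arcs, but then one has to follow them;
the vertices of `L` may leave their arc -/
def Star.dr (D : Star G x) (L : Finset V) (u v : V) : Prop :=
  ¬ G.Adj x u ∧ v ≠ x ∧ (D.Nx u v ∨ ((u ∉ D.Sig ∨ u ∈ L) ∧ G.Adj u v))

/-- the subset `T` of `Y` has disjoint exits which meet `Y` only in their starting points -/
def Star.Exitable (D : Star G x) (Y T : Finset V) : Prop :=
  T ⊆ Y ∧ ∃ (n : V → V) (E : V → Set V), (∀ t ∈ T, D.IsExit t (n t) (E t)) ∧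
    (∀ t ∈ T, ∀ v ∈ E t, v ∈ Y → v = t) ∧
    ∀ t ∈ T, ∀ t' ∈ T, t ≠ t' → Disjoint (E t) (E t')

/-- the shape of the five paths (without Claim 2) -/
def Star.Shape (D : Star G x) (Y L : Finset V) (n z : V → V) (A E : V → Set V) : Prop :=
  (∀ t ∈ Y, Joined G (A t) t (n t)) ∧
  (∀ t ∈ Y, x ∉ A t) ∧
  (∀ t ∈ Y, D.IsExit (z t) (n t) (E t)) ∧
  (∀ t ∈ Y, E t ⊆ A t) ∧
  (∀ t ∈ Y, ∀ v ∈ A t, v ∈ D.Sig → v ∈ E t ∨ (v = t ∧ t ∈ L)) ∧
  (∀ t ∈ Y, t ∈ D.Sig → t ∉ L → z t = t) ∧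
  (∀ t ∈ Y, ∀ t' ∈ Y, t ≠ t' → Disjoint (A t) (A t'))

/-- Claim 2 -/
def Star.Sys (D : Star G x) (Y : Finset V) : Prop :=
  ∃ (L : Finset V) (n z : V → V) (A E : V → Set V), L ⊆ Y ∧ D.Shape Y L n z A E ∧
    ∀ w ∈ L, ¬ G.Adj x w ∧ ∃ p q, D.QA p q ∧ w ∈ D.arc p q ∧
      (∃ s ∈ Y, s ∉ L ∧ n s = p) ∧ (∃ s ∈ Y, s ∉ L ∧ n s = q)

end Abstract

section Concrete

variable {E : Type} [AddCommGroup E] [Module ℝ E]

/-- `v` lies in the cone with apex `x` spanned by `p` and `q` -/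
def InCone (x p q v : E) : Prop :=
  ∃ α β : ℝ, 0 ≤ α ∧ 0 ≤ β ∧ v - x = α • (p - x) + β • (q - x)

/-- `p` and `q` are the two neighbours of `x` in a common 2-face -/
def cQA (S : Finset E) (x p q : E) : Prop :=
  (PG S).Adj x p ∧ (PG S).Adj x q ∧ p ≠ q ∧
    ∃ g : E →ₗ[ℝ] ℝ, g p = g x ∧ g q = g x ∧ ∀ v ∈ S, g v ≤ g x ∧ (g v = g x → InCone x p q v)

/-- the arc from `p` to `q` -/
def cArc (S : Finset E) (x p q : E) : Set E := {v | v ∈ S ∧ v ≠ x ∧ InCone x p q v}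

end Concrete

end Pool.Agent.P6
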