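import Pool.Agent.P6.StarDefs
import Pool.Agent.P6.DMengerFrom

set_option autoImplicit false

/-!
Maximal exitable sets and Claim 2 (MP_035085_co).
-/

namespace Pool.Agent.P6

section Sys

variable {V : Type} {G : SimpleGraph V} {x : V}

/-- corners of an arc: the position of `q` is last -/
theorem Star.th_right (D : Star G x) {p q v : V} (h : D.QA p q) (hv : v ∈ D.arc p q) (hne : v ≠ q) :
    D.th p q v < D.th p q q := by
  have h' := D.qsymm p q h
  have hs := D.arc_symm p q h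
  have hq : q ∈ D.arc p q := by
    rw [← hs]; exact D.left_mem q p h'
  have h1 := D.th_left q p v h' (by rw [hs]; exact hv) hne
  exact (D.th_symm p q q v h hq hv).1 h1

theorem Star.right_mem (D : Star G x) {p q : V} (h : D.QA p q) : q ∈ D.arc p q := by
  rw [← D.arc_symm p q h]; exact D.left_mem q p (D.qsymm p q h)

theorem Star.qadj' (D : Star G x) {p q : V} (h : D.QA p q) : G.Adj x q :=
  D.qadj q p (D.qsymm p q h)

/-- order reversal for `≤` -/
theorem Star.th_le_symm (D : Star G x) {p q u v : V} (h : D.QA p q) (hu : u ∈ D.arc p q)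
    (hv : v ∈ D.arc p q) : D.th q p u ≤ D.th q p v ↔ D.th p q v ≤ D.th p q u := by
  have h1 := D.th_symm p q v u h hv hu
  rw [← not_lt, ← not_lt, h1]

/-- an exit that meets the initial part `[p, w]` of an arc (with `w` no corner) ends in `p` or
contains `w` -/
theorem Star.exit_meets (D : Star G x) {p q w : V} (h : D.QA p q) (hw : w ∈ D.arc p q)
    (hwc : ¬ G.Adj x w) {s n : V} {F : Set V} (hF : D.IsExit s n F) {u : V} (huF : u ∈ F)
    (hu : u ∈ D.arc p q) (hle : D.th p q u ≤ D.th p q w) : n = p ∨ w ∈ F := by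
  have hwq : w ≠ q := fun e => hwc (e ▸ D.qadj' h)
  have hwlt := D.th_right h hw hwq
  -- a corner `u` of the arc is `p`
  have hcor : G.Adj x u → u = p := by
    intro hc
    rcases D.corner p q u h hu hc with e | e
    · exact e
    · rw [e] at hle
      exact absurd hle (not_le.2 hwlt)
  rcases hF with ⟨e1, hn, hE⟩ | ⟨hs, q', hq', hsa, hE⟩
  · rw [hE, Set.mem_singleton_iff] at huF
    left
    rw [← huF]
    exact hcor (huF ▸ hn)
  · rw [hE] at huF
    obtain ⟨hu1, hu2⟩ := huF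
    by_cases hcu : G.Adj x u
    · have hup := hcor hcu
      rcases D.corner n q' u hq' hu1 hcu with e | e
      · left; rw [← e]; exact hup
      · exfalso
        rw [e] at hu2
        have hsq : s ≠ q' := fun e' => hs (e' ▸ D.qadj' hq')
        exact absurd hu2 (not_le.2 (D.th_right hq' hsa hsq))
    · rcases D.unique p q n q' u h hq' hu hu1 hcu with ⟨e1, e2⟩ | ⟨e1, e2⟩
      · left; exact e1
      · right
        subst e1 e2
        rw [hE]
        have hs' := D.arc_symm _ _ hq'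
        refine ⟨by rw [← hs']; exact hw, ?_⟩
        have hsa' : s ∈ D.arc q' n := by rw [hs']; exact hsa
        have h1 : D.th n q' w ≤ D.th n q' u := (D.th_le_symm h hw hu).2 hle
        exact h1.trans hu2

/-- one half of Claim 2 -/
theorem Star.claim2 (D : Star G x) {Y T L : Finset V} (hT : D.Exitable Y T)
    (hmax : ∀ T' : Finset V, D.Exitable Y T' → T'.card ≤ T.card)
    (hL : ∀ v, v ∈ L ↔ v ∈ Y ∧ v ∈ D.Sig ∧ v ∉ T) (hLc : ∀ v ∈ L, ¬ G.Adj x v)
    {n z : V → V} {A E : V → Set V} (hsh : D.Shape Y L n z A E)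
    (hAY : ∀ t ∈ Y, ∀ v ∈ A t, v ∈ Y → v = t) {w p q : V} (hw : w ∈ L) (hpq : D.QA p q)
    (hwa : w ∈ D.arc p q) : ∃ s ∈ Y, s ∉ L ∧ n s = p := by
  classical
  by_contra hno
  push Not at hno
  obtain ⟨hTY, nT, ET, hT1, hT2, hT3⟩ := hT
  obtain ⟨-, -, hs3, hs4, -, hs6, hs7⟩ := hsh
  -- the element of `L` on the arc which is nearest to `p`
  obtain ⟨w', hw'mem, hw'min⟩ := Finset.exists_min_image (L.filter (fun v => v ∈ D.arc p q))
    (fun v => D.th p q v) ⟨w, Finset.mem_filter.2 ⟨hw, hwa⟩⟩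
  obtain ⟨hw'L, hw'a⟩ := Finset.mem_filter.1 hw'mem
  have hw'c := hLc w' hw'L
  obtain ⟨hw'Y, -, hw'T⟩ := (hL w').1 hw'L
  have hTL : ∀ s ∈ T, s ∉ L := fun s hs hsL => ((hL s).1 hsL).2.2 hs
  have hTSig : ∀ s ∈ T, s ∈ D.Sig := by
    intro s hs
    rcases hT1 s hs with ⟨e1, hn, -⟩ | ⟨-, q', hq', hsa, -⟩
    · left; rw [e1]; exact hn
    · right; exact ⟨_, _, hq', hsa⟩
  have hex : ∀ s ∈ T, D.IsExit s (n s) (E s) := by
    intro s hs
    have h1 := hs3 s (hTY hs)
    rwa [hs6 s (hTY hs) (hTSig s hs) (hTL s hs)] at h1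
  have hself : ∀ s ∈ T, ∀ v ∈ E s, v ∈ Y → v = s := fun s hs v hv hvY =>
    hAY s (hTY hs) v (hs4 s (hTY hs) hv) hvY
  have hnp : ∀ s ∈ T, n s ≠ p := fun s hs => hno s (hTY hs) (hTL s hs)
  set F : Set V := {u | u ∈ D.arc p q ∧ D.th p q u ≤ D.th p q w'} with hF
  -- the exits of `T` do not meet `F`
  have hdis : ∀ s ∈ T, Disjoint (E s) F := by
    intro s hs
    rw [Set.disjoint_left]
    intro u huE huF
    rcases D.exit_meets hpq hw'a hw'c (hex s hs) huE huF.1 huF.2 with e | e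
    · exact hnp s hs e
    · have h1 := hself s hs w' e hw'Y
      exact hw'T (h1 ▸ hs)
  have hsin : ∀ s ∈ T, s ∈ E s := by
    intro s hs
    rcases hex s hs with ⟨e1, hn, hE⟩ | ⟨-, q', hq', hsa, hE⟩
    · rw [hE, Set.mem_singleton_iff]; exact e1
    · rw [hE]; exact ⟨hsa, le_refl _⟩
  have hFY : ∀ v ∈ F, v ∈ Y → v = w' := by
    intro v hv hvY
    by_cases hvT : v ∈ T
    · exact absurd hv (Set.disjoint_left.1 (hdis v hvT) (hsin v hvT))
    · have hvL : v ∈ L := (hL v).2 ⟨hvY, Or.inr ⟨p, q, hpq, hv.1⟩, hvT⟩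
      have h1 := hw'min v (Finset.mem_filter.2 ⟨hvL, hv.1⟩)
      exact D.th_inj p q v w' hpq hv.1 hw'a (le_antisymm hv.2 h1)
  have hnew : D.Exitable Y (insert w' T) := by
    refine ⟨Finset.insert_subset hw'Y hTY, fun t => if t = w' then p else n t,
      fun t => if t = w' then F else E t, ?_, ?_, ?_⟩
    · intro t ht
      by_cases h : t = w'
      · simp only [h, if_true]
        exact Or.inr ⟨hw'c, q, hpq, hw'a, rfl⟩
      · simp only [h, if_false]
        exact hex t ((Finset.mem_insert.1 ht).resolve_left h)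
    · intro t ht v hv hvY
      by_cases h : t = w'
      · simp only [h, if_true] at hv ⊢
        exact hFY v hv hvY
      · simp only [h, if_false] at hv
        exact hself t ((Finset.mem_insert.1 ht).resolve_left h) v hv hvY
    · intro t ht t' ht' hne
      by_cases h : t = w' <;> by_cases h' : t' = w'
      · exact absurd (h.trans h'.symm) hne
      · simp only [h, h', if_true, if_false]
        exact (hdis t' ((Finset.mem_insert.1 ht').resolve_left h')).symm
      · simp only [h, h', if_true, if_false]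
        exact hdis t ((Finset.mem_insert.1 ht).resolve_left h)
      · simp only [h, h', if_false]
        have a1 := (Finset.mem_insert.1 ht).resolve_left h
        have a2 := (Finset.mem_insert.1 ht').resolve_left h'
        exact (hs7 t (hTY a1) t' (hTY a2) hne).mono (hs4 t (hTY a1)) (hs4 t' (hTY a2))
  have hc := hmax _ hnew
  rw [Finset.card_insert_of_notMem hw'T] at hc
  omega

/-- A largest exitable set exists, and it contains all corners of `Y`. -/
theorem Star.exists_max (D : Star G x) (Y : Finset V) :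
    ∃ T : Finset V, D.Exitable Y T ∧ (∀ T' : Finset V, D.Exitable Y T' → T'.card ≤ T.card) ∧
      ∀ v ∈ Y, G.Adj x v → v ∈ T := by
  classical
  have h0 : D.Exitable Y ∅ :=
    ⟨Finset.empty_subset _, id, fun _ => ∅, by simp, by simp, by simp⟩
  obtain ⟨T, hTmem, hTmax⟩ := Finset.exists_max_image (Y.powerset.filter (fun T => D.Exitable Y T))
    Finset.card ⟨∅, Finset.mem_filter.2 ⟨Finset.mem_powerset.2 (Finset.empty_subset _), h0⟩⟩
  obtain ⟨-, hT⟩ := Finset.mem_filter.1 hTmem
  have hmax : ∀ T' : Finset V, D.Exitable Y T' → T'.card ≤ T.card := fun T' hT' =>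
    hTmax T' (Finset.mem_filter.2 ⟨Finset.mem_powerset.2 hT'.1, hT'⟩)
  refine ⟨T, hT, hmax, fun v hvY hvc => ?_⟩
  by_contra hvT
  obtain ⟨hTY, nT, ET, hT1, hT2, hT3⟩ := hT
  have hnv : ∀ t ∈ T, v ∉ ET t := fun t ht hv => hvT ((hT2 t ht v hv hvY) ▸ ht)
  have hnew : D.Exitable Y (insert v T) := by
    refine ⟨Finset.insert_subset hvY hTY, fun t => if t = v then v else nT t,
      fun t => if t = v then {v} else ET t, ?_, ?_, ?_⟩
    · intro t ht
      by_cases h : t = v
      · simp only [h, if_true]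
        exact Or.inl ⟨rfl, hvc, rfl⟩
      · simp only [h, if_false]
        exact hT1 t ((Finset.mem_insert.1 ht).resolve_left h)
    · intro t ht u hu huY
      by_cases h : t = v
      · simp only [h, if_true, Set.mem_singleton_iff] at hu ⊢
        exact hu
      · simp only [h, if_false] at hu
        exact hT2 t ((Finset.mem_insert.1 ht).resolve_left h) u hu huY
    · intro t ht t' ht' hne
      by_cases h : t = v <;> by_cases h' : t' = v
      · exact absurd (h.trans h'.symm) hne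
      · simp only [h, h', if_true, if_false, Set.disjoint_singleton_left]
        exact hnv t' ((Finset.mem_insert.1 ht').resolve_left h')
      · simp only [h, h', if_true, if_false, Set.disjoint_singleton_right]
        exact hnv t ((Finset.mem_insert.1 ht).resolve_left h)
      · simp only [h, h', if_false]
        exact hT3 t ((Finset.mem_insert.1 ht).resolve_left h) t'
          ((Finset.mem_insert.1 ht').resolve_left h') hne
  have hc := hmax _ hnew
  rw [Finset.card_insert_of_notMem hvT] at hc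
  omega

/-- **R8c**, with the cut argument (R8a) and the shape of the paths (R8b) as hypotheses. -/
theorem Star.sys_of (D : Star G x) {S : Finset V} (hS : ∀ a b, G.Adj a b → a ∈ S ∧ b ∈ S)
    {Y : Finset V}
    (hcut : ∀ T L : Finset V, D.Exitable Y T → (∀ v, v ∈ L ↔ v ∈ Y ∧ v ∈ D.Sig ∧ v ∉ T) →
      (∀ v ∈ L, ¬ G.Adj x v) → ∀ C : Finset V, C.card < Y.card →
      ∃ a ∈ Y, ∃ b, G.Adj x b ∧ DJ (D.dr L) (↑C)ᶜ a b)
    (hshape : ∀ L : Finset V, L ⊆ Y → (∀ v ∈ L, v ∈ D.Sig) → (∀ v ∈ L, ¬ G.Adj x v) →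
      ∀ (n : V → V) (l : V → List V),
      (∀ t ∈ Y, G.Adj x (n t) ∧ DW (D.dr L) t (n t) (l t) ∧ (l t).Nodup) →
      (∀ t ∈ Y, ∀ z ∈ l t, (z ∈ Y → z = t) ∧ (G.Adj x z → z = n t)) →
      (∀ t ∈ Y, ∀ t' ∈ Y, t ≠ t' → (l t).Disjoint (l t')) →
      ∃ (z : V → V) (A E : V → Set V), D.Shape Y L n z A E ∧ ∀ t ∈ Y, ∀ v ∈ A t, v ∈ l t) :
    D.Sys Y := by
  classical
  obtain ⟨T, hT, hmax, hcor⟩ := D.exists_max Y
  set L : Finset V := Y.filter (fun v => v ∈ D.Sig ∧ v ∉ T) with hLdef
  have hL : ∀ v, v ∈ L ↔ v ∈ Y ∧ v ∈ D.Sig ∧ v ∉ T := fun v => by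
    rw [hLdef, Finset.mem_filter]
  have hLc : ∀ v ∈ L, ¬ G.Adj x v := fun v hv hc =>
    ((hL v).1 hv).2.2 (hcor v ((hL v).1 hv).1 hc)
  have hfin : {e : V × V | D.dr L e.1 e.2}.Finite := by
    refine ((S ×ˢ S : Finset (V × V)).finite_toSet).subset ?_
    rintro ⟨u, v⟩ ⟨-, -, huv⟩
    have hadj : G.Adj u v := by
      rcases huv with ⟨p, q, hpq, hu, hv, hlt, hno⟩ | ⟨-, huv⟩
      · exact D.next p q u v hpq hu hv hlt hno
      · exact huv
    rw [Finset.mem_coe, Finset.mem_product]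
    exact hS _ _ hadj
  obtain ⟨n, l, h1, h2, h3⟩ := dmenger_from hfin (Y := Y) (B := {b | G.Adj x b})
    (fun C hC => hcut T L hT hL hLc C hC)
  obtain ⟨z, A, E, hsh, hAl⟩ := hshape L (fun v hv => ((hL v).1 hv).1)
    (fun v hv => ((hL v).1 hv).2.1) hLc n l h1 h2 h3
  have hAY : ∀ t ∈ Y, ∀ v ∈ A t, v ∈ Y → v = t := fun t ht v hv hvY =>
    (h2 t ht v (hAl t ht v hv)).1 hvY
  refine ⟨L, n, z, A, E, fun v hv => ((hL v).1 hv).1, hsh, fun w hw => ⟨hLc w hw, ?_⟩⟩
  obtain ⟨-, hwS, -⟩ := (hL w).1 hw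
  rcases hwS with hwS | ⟨p, q, hpq, hwa⟩
  · exact absurd hwS (hLc w hw)
  · refine ⟨p, q, hpq, hwa, D.claim2 hT hmax hL hLc hsh hAY hw hpq hwa, ?_⟩
    exact D.claim2 hT hmax hL hLc hsh hAY hw (D.qsymm p q hpq)
      (by rw [D.arc_symm p q hpq]; exact hwa)

end Sys

end Pool.Agent.P6
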