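import Pool.Agent.P6.StarSys
import Pool.Agent.P6.Cut
import Pool.Agent.P6.Shape

set_option autoImplicit false

/-!
Row R8c of MP_035085_co: the system of paths exists (Claims 1 and 2).
-/

namespace Pool.Agent.P6

variable {V : Type} {G : SimpleGraph V} {x : V}

/-- **R8c**: maximal exitable set and Claim 2. -/
theorem star_sys (D : Star G x) {S : Finset V} (hS : ∀ a b, G.Adj a b → a ∈ S ∧ b ∈ S)
    (hAS : ∀ p q, D.QA p q → D.arc p q ⊆ S) (hE : D.Esc S 4) {Y : Finset V} (hY : Y ⊆ S)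
    (hxY : x ∉ Y) (hcard : Y.card = 5) : D.Sys Y :=
  D.sys_of hS
    (fun _T _L hT hL hLc C hC => star_cut D hS hAS hE hY hxY hcard hT hL hLc C hC)
    (fun _L hLY hLS hLc n l h1 h2 h3 => star_shape D hxY hLY hLS hLc n l h1 h2 h3)

end Pool.Agent.P6
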