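import Pool.Agent.P6.Base

set_option autoImplicit false

/-!
Transfer to the language of the frozen statement S06931.
-/

open Set

namespace Pool.Agent.P6

section

variable {E : Type} [NormedAddCommGroup E] [NormedSpace ℝ E]

theorem CP_of_extreme (S : Finset E)
    (h : ∀ x ∈ S, x ∈ Set.extremePoints ℝ (convexHull ℝ (S : Set E))) : CP S := by
  intro x hx hc
  have h1 := h x hx
  rw [(convex_convexHull ℝ _).mem_extremePoints_iff_mem_diff_convexHull_diff] at h1
  refine h1.2 (convexHull_mono ?_ hc)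
  intro y hy
  exact ⟨subset_convexHull ℝ _ hy.1, hy.2⟩

/-- The graph of the frozen statement. -/
def FG (S : Finset E) : SimpleGraph S :=
  SimpleGraph.fromRel (fun a b : S =>
    ∃ ℓ : E →ₗ[ℝ] ℝ,
      ℓ b.1 = ℓ a.1 ∧
      ∀ x ∈ S, ℓ x ≤ ℓ a.1 ∧ (ℓ x = ℓ a.1 → x ∈ segment ℝ a.1 b.1))

theorem PG_adj_to_FG {S : Finset E} {a b : E} (ha : a ∈ S) (hb : b ∈ S) (h : (PG S).Adj a b) :
    (FG S).Adj ⟨a, ha⟩ ⟨b, hb⟩ := by
  obtain ⟨-, -, hab, ℓ, h1, h2⟩ := h
  refine ⟨fun he => hab (Subtype.ext_iff.1 he), Or.inl ⟨ℓ, h1, fun x hx => ⟨(h2 x hx).1, ?_⟩⟩⟩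
  intro he
  rcases (h2 x hx).2 he with rfl | rfl
  · exact left_mem_segment ℝ x b
  · exact right_mem_segment ℝ a x

theorem FG_adj_to_PG {S : Finset E} (hS : CP S) {a b : S} (h : (FG S).Adj a b) :
    (PG S).Adj a b := by
  have key : ∀ a b x : E, a ∈ S → b ∈ S → x ∈ S → x ∈ segment ℝ a b → x = a ∨ x = b := by
    intro a b x ha hb hx hseg
    by_contra hne
    push Not at hne
    rw [segment_eq_image'] at hseg
    obtain ⟨t, ht, he⟩ := hseg
    exact hS.not_between hx ha hb hne.1.symm hne.2.symm t ht.1 ht.2 he.symm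
  obtain ⟨hab, h | h⟩ := h
  · obtain ⟨ℓ, h1, h2⟩ := h
    exact ⟨a.2, b.2, fun he => hab (Subtype.ext he), ℓ, h1,
      fun x hx => ⟨(h2 x hx).1, fun he => key _ _ x a.2 b.2 hx ((h2 x hx).2 he)⟩⟩
  · obtain ⟨ℓ, h1, h2⟩ := h
    refine SimpleGraph.Adj.symm ?_
    exact ⟨b.2, a.2, fun he => hab (Subtype.ext he.symm), ℓ, h1,
      fun x hx => ⟨(h2 x hx).1, fun he => key _ _ x b.2 a.2 hx ((h2 x hx).2 he)⟩⟩

theorem exists_walk_FG {S : Finset E} {a b : E} (p : (PG S).Walk a b) :
    ∀ (ha : a ∈ S) (hb : b ∈ S), ∃ q : (FG S).Walk ⟨a, ha⟩ ⟨b, hb⟩,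
      q.support.map Subtype.val = p.support := by
  induction p with
  | nil =>
    intro ha hb
    exact ⟨SimpleGraph.Walk.nil, rfl⟩
  | @cons u v w h p ih =>
    intro hu hw
    obtain ⟨q, hq⟩ := ih h.2.1 hw
    refine ⟨SimpleGraph.Walk.cons (PG_adj_to_FG hu h.2.1 h) q, ?_⟩
    rw [SimpleGraph.Walk.support_cons, SimpleGraph.Walk.support_cons, List.map_cons, hq]

theorem dim_eq_of_interior [FiniteDimensional ℝ E] (S : Finset E)
    (h : (interior (convexHull ℝ (S : Set E))).Nonempty) : dim S = Module.finrank ℝ E := by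
  rw [interior_convexHull_nonempty_iff_affineSpan_eq_top] at h
  unfold dim
  rw [← direction_affineSpan, h, AffineSubspace.direction_top, finrank_top]

end

/-- The frozen statement S06931 follows from the linkedness of `PG S`. -/
theorem frozen_of
    (h : ∀ S : Finset (EuclideanSpace ℝ (Fin 6)), CP S → dim S = 6 →
      ∀ x y a c b d : EuclideanSpace ℝ (Fin 6), [x, y, a, c, b, d].Nodup →
        (∀ z ∈ [x, y, a, c, b, d], z ∈ S) → Linked3 (PG S) (S : Set _) x y a c b d) :
    ∀ S : Finset (EuclideanSpace ℝ (Fin 6)),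
      (interior (convexHull ℝ (S : Set (EuclideanSpace ℝ (Fin 6))))).Nonempty →
      (∀ x ∈ S, x ∈ Set.extremePoints ℝ (convexHull ℝ (S : Set (EuclideanSpace ℝ (Fin 6))))) →
      ∀ s t : Fin 3 → S, Function.Injective (Sum.elim s t) →
        ∃ p : ∀ i, (SimpleGraph.fromRel (fun a b : S =>
              ∃ ℓ : EuclideanSpace ℝ (Fin 6) →ₗ[ℝ] ℝ,
                ℓ b.1 = ℓ a.1 ∧
                ∀ x ∈ S, ℓ x ≤ ℓ a.1 ∧ (ℓ x = ℓ a.1 → x ∈ segment ℝ a.1 b.1))).Walk (s i) (t i),
          (∀ i, (p i).IsPath) ∧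
          ∀ i j, i ≠ j → List.Disjoint (p i).support (p j).support := by
  intro S h1 h2 s t hst
  have hdim : dim S = 6 := by
    rw [dim_eq_of_interior S h1]; simp
  have hCP := CP_of_extreme S h2
  have hs : ∀ i j, s i = s j → i = j := fun i j he => by
    have := hst (a₁ := Sum.inl i) (a₂ := Sum.inl j) (by simpa using he)
    simpa using this
  have ht : ∀ i j, t i = t j → i = j := fun i j he => by
    have := hst (a₁ := Sum.inr i) (a₂ := Sum.inr j) (by simpa using he)
    simpa using this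
  have hd : ∀ i j, s i ≠ t j := fun i j he => by
    have := hst (a₁ := Sum.inl i) (a₂ := Sum.inr j) (by simpa using he)
    simp at this
  have e1 : ∀ i j, i ≠ j → (s i : EuclideanSpace ℝ (Fin 6)) ≠ s j :=
    fun i j hij he => hij (hs i j (Subtype.ext he))
  have e2 : ∀ i j, i ≠ j → (t i : EuclideanSpace ℝ (Fin 6)) ≠ t j :=
    fun i j hij he => hij (ht i j (Subtype.ext he))
  have e3 : ∀ i j, (s i : EuclideanSpace ℝ (Fin 6)) ≠ t j :=
    fun i j he => hd i j (Subtype.ext he)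
  obtain ⟨p, q, r, hp, hq, hr, -, -, -, hpq, hpr, hqr⟩ :=
    h S hCP hdim (s 0) (t 0) (s 1) (t 1) (s 2) (t 2)
      (by
        simp only [List.nodup_cons, List.mem_cons, List.not_mem_nil, or_false, not_or,
          not_false_eq_true, List.nodup_nil, and_true]
        exact ⟨⟨e3 _ _, e1 _ _ (by decide), e3 _ _, e1 _ _ (by decide), e3 _ _⟩,
          ⟨(e3 _ _).symm, e2 _ _ (by decide), (e3 _ _).symm, e2 _ _ (by decide)⟩,
          ⟨e3 _ _, e1 _ _ (by decide), e3 _ _⟩, ⟨(e3 _ _).symm, e2 _ _ (by decide)⟩, e3 _ _⟩)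
      (by
        simp only [List.mem_cons, List.not_mem_nil, or_false]
        rintro z (rfl | rfl | rfl | rfl | rfl | rfl) <;> exact Subtype.property _)
  obtain ⟨p', hp'⟩ := exists_walk_FG p (s 0).2 (t 0).2
  obtain ⟨q', hq'⟩ := exists_walk_FG q (s 1).2 (t 1).2
  obtain ⟨r', hr'⟩ := exists_walk_FG r (s 2).2 (t 2).2
  have hpath : ∀ {a b : S} {u v : EuclideanSpace ℝ (Fin 6)} (w : (FG S).Walk a b)
      (w' : (PG S).Walk u v), w.support.map Subtype.val = w'.support → w'.IsPath → w.IsPath := by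
    intro a b u v w w' he hw'
    rw [SimpleGraph.Walk.isPath_def] at hw' ⊢
    rw [← he] at hw'
    exact List.Nodup.of_map _ hw'
  have hdisj : ∀ {a b a' b' : S} {u v u' v' : EuclideanSpace ℝ (Fin 6)} (w : (FG S).Walk a b)
      (w' : (FG S).Walk a' b') (z : (PG S).Walk u v) (z' : (PG S).Walk u' v'),
      w.support.map Subtype.val = z.support → w'.support.map Subtype.val = z'.support →
      z.support.Disjoint z'.support → List.Disjoint w.support w'.support := by
    intro a b a' b' u v u' v' w w' z z' he he' hd x hx hx'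
    exact hd (he ▸ List.mem_map_of_mem hx) (he' ▸ List.mem_map_of_mem hx')
  let P : ∀ i : Fin 3, (FG S).Walk (s i) (t i) := fun i =>
    match i with
    | 0 => p'
    | 1 => q'
    | 2 => r'
  refine ⟨P, fun i => ?_, fun i j hij => ?_⟩
  · match i with
    | 0 => exact hpath p' p hp' hp
    | 1 => exact hpath q' q hq' hq
    | 2 => exact hpath r' r hr' hr
  · match i, j with
    | 0, 0 => exact absurd rfl hij
    | 0, 1 => exact hdisj p' q' p q hp' hq' hpq
    | 0, 2 => exact hdisj p' r' p r hp' hr' hpr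
    | 1, 0 => exact hdisj q' p' q p hq' hp' hpq.symm
    | 1, 1 => exact absurd rfl hij
    | 1, 2 => exact hdisj q' r' q r hq' hr' hqr
    | 2, 0 => exact hdisj r' p' r p hr' hp' hpr.symm
    | 2, 1 => exact hdisj r' q' r q hr' hq' hqr.symm
    | 2, 2 => exact absurd rfl hij

end Pool.Agent.P6
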